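import Mathlib

/-!
# Connecting lines of a finite planar point set
-/

set_option autoImplicit false

namespace Pool.Agent.Dirac80

open Classical in
/-- `connectingLines S` : the set of all traces `L ∩ S` of the lines `L` through at least two
points of `S`, that is, the collinear subsets `T` of `S` with at least two points which contain
every point of `S` lying on the affine span of `T`. -/
noncomputable def connectingLines (S : Finset (EuclideanSpace ℝ (Fin 2))) :
    Finset (Finset (EuclideanSpace ℝ (Fin 2))) :=
  S.powerset.filter (fun T => 2 ≤ T.card ∧
    Collinear ℝ (T : Set (EuclideanSpace ℝ (Fin 2))) ∧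
    ∀ r ∈ S, r ∈ affineSpan ℝ (T : Set (EuclideanSpace ℝ (Fin 2))) → r ∈ T)

end Pool.Agent.Dirac80
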