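import Mathlib
import Pool.Agent.Dirac80.Defs

/-!
# Ordinary lines of planar point sets: a parity argument

Let `S` be a finite non-collinear set of `n` points of the real plane, and let `O` be a point
of `S` such that every line through `O` contains at most three points of `S`.  Send `O` to
infinity, so that the lines through `O` are vertical lines carrying one or two further points.
If `{a, a'}` and `{b, b'}` are the points on two (cyclically) adjacent vertical lines, a parity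
count of the crossings of the four half strips cut out by the dual lines of `a, a', b, b'` shows
that the number of pairs (point among `a, a', b, b'`, line through it not containing exactly
three points of `S`) is at least four (`adjacent`).  Summing over all cyclically adjacent pairs
of vertical lines gives that the number of incidences between `S` and the connecting lines which
do not contain exactly three points is at least `n - 1`.  If there is no such point `O`, every
point is on a line with at least four points, and the same bound is trivial.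
-/

set_option autoImplicit false
open Finset Classical

namespace Pool.Agent.Dirac80

section abstractPart

variable {ι : Type*} [Fintype ι]

/-- the axioms of a collinearity relation which are used -/
structure Lin (C : ι → ι → ι → Prop) : Prop where
  hs : ∀ i j k, C i j k → C i k j
  hs' : ∀ i j k, C i j k → C j i k
  rf : ∀ i j, C i j j
  tr : ∀ x w k l, x ≠ w → C x w k → C x w l → C x k l

/-- the line through `x` and `w` -/
noncomputable def Ln (C : ι → ι → ι → Prop) (x w : ι) : Finset ι := univ.filter (fun k => C x w k)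

/-- the number of lines through `x` and a point of `U` which do not have exactly three points -/
noncomputable def bad (C : ι → ι → ι → Prop) (x : ι) (U : Finset ι) : ℕ :=
  ((U.image (Ln C x)).filter (fun T => T.card ≠ 3)).card

theorem mem_Ln {C : ι → ι → ι → Prop} {x w k : ι} : k ∈ Ln C x w ↔ C x w k := by simp [Ln]

theorem Lin.Ln_eq {C : ι → ι → ι → Prop} (h : Lin C) {x w k : ι} (h1 : x ≠ w) (h2 : x ≠ k)
    (hc : C x w k) : Ln C x k = Ln C x w := by
  ext l
  rw [mem_Ln, mem_Ln]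
  constructor
  · intro hl; exact h.tr x k w l h2 (h.hs _ _ _ hc) hl
  · intro hl; exact h.tr x w k l h1 hc hl

theorem Lin.Ln_symm {C : ι → ι → ι → Prop} (h : Lin C) (x w : ι) : Ln C x w = Ln C w x := by
  ext l
  rw [mem_Ln, mem_Ln]
  exact ⟨h.hs' _ _ _, h.hs' _ _ _⟩

theorem Lin.left_mem {C : ι → ι → ι → Prop} (h : Lin C) (x w : ι) : x ∈ Ln C x w := by
  rw [mem_Ln]; exact h.hs' _ _ _ (h.rf w x)

theorem Lin.right_mem {C : ι → ι → ι → Prop} (h : Lin C) (x w : ι) : w ∈ Ln C x w := by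
  rw [mem_Ln]; exact h.rf x w

/-- in a set closed under lines through `x`, all of which have three points, the number of
points is even -/
theorem even_of_bad {C : ι → ι → ι → Prop} (h : Lin C) (x : ι) (U : Finset ι) (hx : x ∉ U)
    (hU : ∀ w ∈ U, ∀ k, k ≠ x → C x w k → k ∈ U) (hb : bad C x U = 0) : Even U.card := by
  have h1 := Finset.card_eq_sum_card_image (Ln C x) U
  have h2 : ∀ T ∈ U.image (Ln C x), (U.filter (fun w => Ln C x w = T)).card = 2 := by
    intro T hT
    have h3 : T.card = 3 := by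
      by_contra hcon
      unfold bad at hb
      rw [card_eq_zero] at hb
      have : T ∈ (U.image (Ln C x)).filter (fun T => T.card ≠ 3) := by
        rw [mem_filter]; exact ⟨hT, hcon⟩
      rw [hb] at this
      exact notMem_empty _ this
    rw [mem_image] at hT
    obtain ⟨w0, hw0, rfl⟩ := hT
    have hne : x ≠ w0 := fun h' => hx (h' ▸ hw0)
    have h4 : U.filter (fun w => Ln C x w = Ln C x w0) = (Ln C x w0).erase x := by
      ext w
      rw [mem_filter, mem_erase]
      constructor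
      · rintro ⟨hw, he⟩
        refine ⟨fun h' => hx (h' ▸ hw), ?_⟩
        rw [← he]; exact h.right_mem x w
      · rintro ⟨hwx, hw⟩
        rw [mem_Ln] at hw
        exact ⟨hU w0 hw0 w hwx hw, h.Ln_eq hne (Ne.symm hwx) hw⟩
    rw [h4, card_erase_of_mem (h.left_mem x w0), h3]
  rw [h1, Finset.sum_congr rfl h2, sum_const, smul_eq_mul]
  exact ⟨_, by ring⟩

omit [Fintype ι] in
theorem hs_count (W : Finset ι) (f g : ι → ℝ) (hfg : ∀ w ∈ W, g w < f w) :
    (W.filter (fun w => 0 < f w)).card + (W.filter (fun w => 0 < g w)).card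
      + (W.filter (fun w => 0 < f w ∧ g w < 0)).card =
    (W.filter (fun w => g w = 0)).card + 2 * ((W.filter (fun w => 0 < g w)).card
      + (W.filter (fun w => 0 < f w ∧ g w < 0)).card) := by
  simp only [card_filter, mul_add, mul_sum, ← sum_add_distrib]
  refine Finset.sum_congr rfl (fun w hw => ?_)
  have h := hfg w hw
  rcases lt_trichotomy (g w) 0 with h0 | h0 | h0
  · rcases lt_or_ge 0 (f w) with h1 | h1
    · simp [h0, h1, h0.ne, not_lt.mpr h0.le]
    · simp [h0, not_lt.mpr h1, h0.ne, not_lt.mpr h0.le]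
  · have h1 : 0 < f w := by linarith
    simp [h0, h1]
  · have h1 : 0 < f w := by linarith
    simp [h0, h1, h0.ne', not_lt.mpr h0.le]

/-- the parity lemma for one half strip -/
theorem half_strip {C : ι → ι → ι → Prop} (h : Lin C)
    (W : Finset ι) (x y z : ι) (hx : x ∉ W) (hy : y ∉ W) (hz : z ∉ W)
    (f g : ι → ℝ) (hfg : ∀ w ∈ W, g w < f w)
    (hX : ∀ w ∈ W, 0 < f w → ∀ k, k ≠ x → C x w k → k ∈ W ∧ 0 < f k)
    (hY : ∀ w ∈ W, 0 < g w → ∀ k, k ≠ y → C y w k → k ∈ W ∧ 0 < g k)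
    (hZ : ∀ w ∈ W, (0 < f w ∧ g w < 0) → ∀ k, k ≠ z → C z w k →
      k ∈ W ∧ (0 < f k ∧ g k < 0)) :
    1 ≤ bad C x (W.filter (fun w => 0 < f w)) + bad C y (W.filter (fun w => 0 < g w))
      + bad C z (W.filter (fun w => 0 < f w ∧ g w < 0))
      + (if (W.filter (fun w => g w = 0)).card ≠ 1 then 1 else 0) := by
  by_contra hcon
  have e1 : bad C x (W.filter (fun w => 0 < f w)) = 0 := by omega
  have e2 : bad C y (W.filter (fun w => 0 < g w)) = 0 := by omega
  have e3 : bad C z (W.filter (fun w => 0 < f w ∧ g w < 0)) = 0 := by omega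
  have h1 := even_of_bad h x _ (by simp [hx]) (by
    intro w hw k k1 k2
    rw [mem_filter] at hw ⊢
    exact hX w hw.1 hw.2 k k1 k2) e1
  have h2 := even_of_bad h y _ (by simp [hy]) (by
    intro w hw k k1 k2
    rw [mem_filter] at hw ⊢
    exact hY w hw.1 hw.2 k k1 k2) e2
  have h3 := even_of_bad h z _ (by simp [hz]) (by
    intro w hw k k1 k2
    rw [mem_filter] at hw ⊢
    exact hZ w hw.1 hw.2 k k1 k2) e3
  have h4 := hs_count W f g hfg
  have h5 : (W.filter (fun w => g w = 0)).card = 1 := by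
    by_contra h5
    rw [if_pos h5] at hcon
    omega
  rw [h5] at h4
  obtain ⟨a, ha⟩ := h1
  obtain ⟨b, hb⟩ := h2
  obtain ⟨c, hc⟩ := h3
  omega

/-- number of lines through `i` which do not have exactly three points -/
noncomputable def deg (C : ι → ι → ι → Prop) (i : ι) : ℕ := bad C i (univ.erase i)

theorem deg_lower {C : ι → ι → ι → Prop} (h : Lin C) (x b : ι) (hxb : x ≠ b)
    (U V X : Finset ι) (hUx : x ∉ U) (hVx : x ∉ V) (hXx : x ∉ X)
    (hUb : b ∉ U) (hVb : b ∉ V) (hXb : b ∉ X)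
    (hU : ∀ w ∈ U, ∀ k, k ≠ x → C x w k → k ∈ U)
    (hV : ∀ w ∈ V, ∀ k, k ≠ x → C x w k → k ∈ V)
    (hX : ∀ w ∈ X, ∀ k, k ≠ x → C x w k → k ∈ X)
    (hUV : ∀ w ∈ U, w ∉ V) (hUX : ∀ w ∈ U, w ∉ X) (hVX : ∀ w ∈ V, w ∉ X) :
    bad C x U + bad C x V + bad C x X + (if (Ln C x b).card ≠ 3 then 1 else 0) ≤ deg C x := by
  set F : Finset ι → Finset (Finset ι) := fun A => (A.image (Ln C x)).filter (fun T => T.card ≠ 3)
    with hF
  have hdis : ∀ A B : Finset ι, x ∉ A → x ∉ B → (∀ w ∈ A, ∀ k, k ≠ x → C x w k → k ∈ A) →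
      (∀ w ∈ A, w ∉ B) → Disjoint (F A) (F B) := by
    intro A B hA hB hcl hAB
    rw [Finset.disjoint_left]
    intro T hTA hTB
    simp only [hF, mem_filter, mem_image] at hTA hTB
    obtain ⟨⟨w, hw, rfl⟩, _⟩ := hTA
    obtain ⟨⟨k, hk, hk'⟩, _⟩ := hTB
    have hkx : k ≠ x := fun h' => hB (h' ▸ hk)
    have hkm : k ∈ Ln C x w := by rw [← hk']; exact h.right_mem x k
    rw [mem_Ln] at hkm
    exact hAB k (hcl w hw k hkx hkm) hk
  have hsub : ∀ A : Finset ι, x ∉ A → F A ⊆ F (univ.erase x) := by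
    intro A hA T hT
    simp only [hF, mem_filter, mem_image] at hT ⊢
    obtain ⟨⟨w, hw, rfl⟩, h3⟩ := hT
    exact ⟨⟨w, by simp only [mem_erase, mem_univ, and_true]; exact fun h' => hA (h' ▸ hw), rfl⟩, h3⟩
  have hb : F {b} = if (Ln C x b).card ≠ 3 then {Ln C x b} else ∅ := by
    simp only [hF, image_singleton, filter_singleton]
  have hbc : (F {b}).card = if (Ln C x b).card ≠ 3 then 1 else 0 := by
    rw [hb]; split_ifs <;> simp
  have d1 := hdis U V hUx hVx hU hUV
  have d2 := hdis U X hUx hXx hU hUX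
  have d3 := hdis V X hVx hXx hV hVX
  have hxb' : x ∉ ({b} : Finset ι) := by simp [hxb]
  have d4 := hdis U {b} hUx hxb' hU (fun w hw h' => hUb (by rw [mem_singleton] at h'; exact h' ▸ hw))
  have d5 := hdis V {b} hVx hxb' hV (fun w hw h' => hVb (by rw [mem_singleton] at h'; exact h' ▸ hw))
  have d6 := hdis X {b} hXx hxb' hX (fun w hw h' => hXb (by rw [mem_singleton] at h'; exact h' ▸ hw))
  have key : (((F U ∪ F V) ∪ F X) ∪ F {b}).card ≤ (F (univ.erase x)).card := by
    apply card_le_card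
    exact union_subset (union_subset (union_subset (hsub U hUx) (hsub V hVx)) (hsub X hXx))
      (hsub {b} hxb')
  rw [card_union_of_disjoint, card_union_of_disjoint, card_union_of_disjoint d1, hbc] at key
  · exact key
  · exact Finset.disjoint_union_left.mpr ⟨d2, d3⟩
  · exact Finset.disjoint_union_left.mpr ⟨Finset.disjoint_union_left.mpr ⟨d4, d5⟩, d6⟩

/-- the local inequality for two adjacent three-point classes -/
theorem adjacent {C : ι → ι → ι → Prop} (h : Lin C)
    (W : Finset ι) (a1 a2 b1 b2 : ι) (ha1 : a1 ∉ W) (ha2 : a2 ∉ W) (hb1 : b1 ∉ W) (hb2 : b2 ∉ W)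
    (h12 : a1 ≠ b2) (h21 : a2 ≠ b1)
    (g11 g12 g21 g22 : ι → ℝ)
    (m1 : ∀ w ∈ W, g21 w < g11 w) (m2 : ∀ w ∈ W, g22 w < g12 w)
    (m3 : ∀ w ∈ W, g11 w < g12 w) (m4 : ∀ w ∈ W, g21 w < g22 w)
    (Ka1 : ∀ w ∈ W, g11 w ≠ 0 → g12 w ≠ 0 → ∀ k, k ≠ a1 → C a1 w k →
      k ∈ W ∧ (0 < g11 w ↔ 0 < g11 k) ∧ (0 < g12 w ↔ 0 < g12 k) ∧ g11 k ≠ 0 ∧ g12 k ≠ 0)
    (Ka2 : ∀ w ∈ W, g21 w ≠ 0 → g22 w ≠ 0 → ∀ k, k ≠ a2 → C a2 w k →
      k ∈ W ∧ (0 < g21 w ↔ 0 < g21 k) ∧ (0 < g22 w ↔ 0 < g22 k) ∧ g21 k ≠ 0 ∧ g22 k ≠ 0)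
    (Kb1 : ∀ w ∈ W, g11 w ≠ 0 → g21 w ≠ 0 → ∀ k, k ≠ b1 → C b1 w k →
      k ∈ W ∧ (0 < g11 w ↔ 0 < g11 k) ∧ (0 < g21 w ↔ 0 < g21 k) ∧ g11 k ≠ 0 ∧ g21 k ≠ 0)
    (Kb2 : ∀ w ∈ W, g12 w ≠ 0 → g22 w ≠ 0 → ∀ k, k ≠ b2 → C b2 w k →
      k ∈ W ∧ (0 < g12 w ↔ 0 < g12 k) ∧ (0 < g22 w ↔ 0 < g22 k) ∧ g12 k ≠ 0 ∧ g22 k ≠ 0)
    (O21 : ∀ k, k ≠ a2 → k ≠ b1 → (C a2 b1 k ↔ k ∈ W ∧ g21 k = 0))
    (O12 : ∀ k, k ≠ a1 → k ≠ b2 → (C a1 b2 k ↔ k ∈ W ∧ g12 k = 0)) :
    4 ≤ deg C a1 + deg C a2 + deg C b1 + deg C b2 := by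
  -- a generic sign transfer
  have tp : ∀ a b : ℝ, (0 < a ↔ 0 < b) → b ≠ 0 → a < 0 → b < 0 := fun a b hab hb ha =>
    lt_of_le_of_ne (not_lt.mp (fun h' => absurd (hab.mpr h') (not_lt.mpr ha.le))) hb
  -- closure statements
  have A1p : ∀ w ∈ W, 0 < g11 w → ∀ k, k ≠ a1 → C a1 w k → k ∈ W ∧ 0 < g11 k := by
    intro w hw h1 k k1 k3
    have := Ka1 w hw h1.ne' (by linarith [m3 w hw]) k k1 k3
    exact ⟨this.1, this.2.1.mp h1⟩
  have A1m : ∀ w ∈ W, (0 < -g11 w ∧ -g12 w < 0) → ∀ k, k ≠ a1 → C a1 w k →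
      k ∈ W ∧ (0 < -g11 k ∧ -g12 k < 0) := by
    intro w hw h1 k k1 k3
    have := Ka1 w hw (by linarith [h1.1]) (by linarith [h1.2]) k k1 k3
    exact ⟨this.1, by linarith [tp _ _ this.2.1 this.2.2.2.1 (by linarith [h1.1])],
      by linarith [this.2.2.1.mp (by linarith [h1.2])]⟩
  have A1n : ∀ w ∈ W, 0 < -g12 w → ∀ k, k ≠ a1 → C a1 w k → k ∈ W ∧ 0 < -g12 k := by
    intro w hw h1 k k1 k3
    have := Ka1 w hw (by linarith [m3 w hw]) (by linarith) k k1 k3
    exact ⟨this.1, by linarith [tp _ _ this.2.2.1 this.2.2.2.2 (by linarith)]⟩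
  have A2p : ∀ w ∈ W, 0 < g21 w → ∀ k, k ≠ a2 → C a2 w k → k ∈ W ∧ 0 < g21 k := by
    intro w hw h1 k k1 k3
    have := Ka2 w hw h1.ne' (by linarith [m4 w hw]) k k1 k3
    exact ⟨this.1, this.2.1.mp h1⟩
  have A2m : ∀ w ∈ W, (0 < g22 w ∧ g21 w < 0) → ∀ k, k ≠ a2 → C a2 w k →
      k ∈ W ∧ (0 < g22 k ∧ g21 k < 0) := by
    intro w hw h1 k k1 k3
    have := Ka2 w hw h1.2.ne h1.1.ne' k k1 k3
    exact ⟨this.1, this.2.2.1.mp h1.1, tp _ _ this.2.1 this.2.2.2.1 h1.2⟩
  have A2n : ∀ w ∈ W, 0 < -g22 w → ∀ k, k ≠ a2 → C a2 w k → k ∈ W ∧ 0 < -g22 k := by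
    intro w hw h1 k k1 k3
    have := Ka2 w hw (by linarith [m4 w hw]) (by linarith) k k1 k3
    exact ⟨this.1, by linarith [tp _ _ this.2.2.1 this.2.2.2.2 (by linarith)]⟩
  have B1p : ∀ w ∈ W, 0 < g21 w → ∀ k, k ≠ b1 → C b1 w k → k ∈ W ∧ 0 < g21 k := by
    intro w hw h1 k k1 k3
    have := Kb1 w hw (by linarith [m1 w hw]) h1.ne' k k1 k3
    exact ⟨this.1, this.2.2.1.mp h1⟩
  have B1m : ∀ w ∈ W, (0 < g11 w ∧ g21 w < 0) → ∀ k, k ≠ b1 → C b1 w k →
      k ∈ W ∧ (0 < g11 k ∧ g21 k < 0) := by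
    intro w hw h1 k k1 k3
    have := Kb1 w hw h1.1.ne' h1.2.ne k k1 k3
    exact ⟨this.1, this.2.1.mp h1.1, tp _ _ this.2.2.1 this.2.2.2.2 h1.2⟩
  have B1n : ∀ w ∈ W, 0 < -g11 w → ∀ k, k ≠ b1 → C b1 w k → k ∈ W ∧ 0 < -g11 k := by
    intro w hw h1 k k1 k3
    have := Kb1 w hw (by linarith) (by linarith [m1 w hw]) k k1 k3
    exact ⟨this.1, by linarith [tp _ _ this.2.1 this.2.2.2.1 (by linarith)]⟩
  have B2p : ∀ w ∈ W, 0 < g22 w → ∀ k, k ≠ b2 → C b2 w k → k ∈ W ∧ 0 < g22 k := by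
    intro w hw h1 k k1 k3
    have := Kb2 w hw (by linarith [m2 w hw]) h1.ne' k k1 k3
    exact ⟨this.1, this.2.2.1.mp h1⟩
  have B2m : ∀ w ∈ W, (0 < -g22 w ∧ -g12 w < 0) → ∀ k, k ≠ b2 → C b2 w k →
      k ∈ W ∧ (0 < -g22 k ∧ -g12 k < 0) := by
    intro w hw h1 k k1 k3
    have := Kb2 w hw (by linarith [h1.2]) (by linarith [h1.1]) k k1 k3
    exact ⟨this.1, by linarith [tp _ _ this.2.2.1 this.2.2.2.2 (by linarith [h1.1])],
      by linarith [this.2.1.mp (by linarith [h1.2])]⟩
  have B2n : ∀ w ∈ W, 0 < -g12 w → ∀ k, k ≠ b2 → C b2 w k → k ∈ W ∧ 0 < -g12 k := by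
    intro w hw h1 k k1 k3
    have := Kb2 w hw (by linarith) (by linarith [m2 w hw]) k k1 k3
    exact ⟨this.1, by linarith [tp _ _ this.2.1 this.2.2.2.1 (by linarith)]⟩
  have H1 := half_strip h W a1 a2 b1 ha1 ha2 hb1 g11 g21 m1 A1p A2p B1m
  have H3 := half_strip h W b2 b1 a2 hb2 hb1 ha2 g22 g21 m4 B2p B1p A2m
  have H2 := half_strip h W b1 b2 a1 hb1 hb2 ha1 (fun w => -g11 w) (fun w => -g12 w)
      (fun w hw => neg_lt_neg (m3 w hw)) B1n B2n A1m
  have H4 := half_strip h W a2 a1 b2 ha2 ha1 hb2 (fun w => -g22 w) (fun w => -g12 w)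
      (fun w hw => neg_lt_neg (m2 w hw)) A2n A1n B2m
  have cl : ∀ (x : ι) (p : ι → Prop), (∀ w ∈ W, p w → ∀ k, k ≠ x → C x w k → k ∈ W ∧ p k) →
      ∀ w ∈ W.filter p, ∀ k, k ≠ x → C x w k → k ∈ W.filter p := by
    intro x p hp w hw k k1 k2
    rw [mem_filter] at hw ⊢
    exact hp w hw.1 hw.2 k k1 k2
  have D1 := deg_lower h a1 b2 h12 (W.filter (fun w => 0 < g11 w))
    (W.filter (fun w => 0 < -g11 w ∧ -g12 w < 0)) (W.filter (fun w => 0 < -g12 w))
    (by simp [ha1]) (by simp [ha1]) (by simp [ha1]) (by simp [hb2]) (by simp [hb2])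
    (by simp [hb2]) (by simpa only [mem_filter] using cl a1 _ A1p)
    (by simpa only [mem_filter] using cl a1 _ A1m) (by simpa only [mem_filter] using cl a1 _ A1n)
    (by intro w hw h'; rw [mem_filter] at hw h'; linarith [hw.2, h'.2.1])
    (by intro w hw h'; rw [mem_filter] at hw h'; linarith [hw.2, h'.2, m3 w hw.1])
    (by intro w hw h'; rw [mem_filter] at hw h'; linarith [hw.2.2, h'.2])
  have D2 := deg_lower h a2 b1 h21 (W.filter (fun w => 0 < g21 w))
    (W.filter (fun w => 0 < g22 w ∧ g21 w < 0)) (W.filter (fun w => 0 < -g22 w))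
    (by simp [ha2]) (by simp [ha2]) (by simp [ha2]) (by simp [hb1]) (by simp [hb1])
    (by simp [hb1]) (by simpa only [mem_filter] using cl a2 _ A2p)
    (by simpa only [mem_filter] using cl a2 _ A2m) (by simpa only [mem_filter] using cl a2 _ A2n)
    (by intro w hw h'; rw [mem_filter] at hw h'; linarith [hw.2, h'.2.2])
    (by intro w hw h'; rw [mem_filter] at hw h'; linarith [hw.2, h'.2, m4 w hw.1])
    (by intro w hw h'; rw [mem_filter] at hw h'; linarith [hw.2.1, h'.2])
  have D3 := deg_lower h b1 a2 h21.symm (W.filter (fun w => 0 < g21 w))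
    (W.filter (fun w => 0 < g11 w ∧ g21 w < 0)) (W.filter (fun w => 0 < -g11 w))
    (by simp [hb1]) (by simp [hb1]) (by simp [hb1]) (by simp [ha2]) (by simp [ha2])
    (by simp [ha2]) (by simpa only [mem_filter] using cl b1 _ B1p)
    (by simpa only [mem_filter] using cl b1 _ B1m) (by simpa only [mem_filter] using cl b1 _ B1n)
    (by intro w hw h'; rw [mem_filter] at hw h'; linarith [hw.2, h'.2.2])
    (by intro w hw h'; rw [mem_filter] at hw h'; linarith [hw.2, h'.2, m1 w hw.1])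
    (by intro w hw h'; rw [mem_filter] at hw h'; linarith [hw.2.1, h'.2])
  have D4 := deg_lower h b2 a1 h12.symm (W.filter (fun w => 0 < g22 w))
    (W.filter (fun w => 0 < -g22 w ∧ -g12 w < 0)) (W.filter (fun w => 0 < -g12 w))
    (by simp [hb2]) (by simp [hb2]) (by simp [hb2]) (by simp [ha1]) (by simp [ha1])
    (by simp [ha1]) (by simpa only [mem_filter] using cl b2 _ B2p)
    (by simpa only [mem_filter] using cl b2 _ B2m) (by simpa only [mem_filter] using cl b2 _ B2n)
    (by intro w hw h'; rw [mem_filter] at hw h'; linarith [hw.2, h'.2.1])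
    (by intro w hw h'; rw [mem_filter] at hw h'; linarith [hw.2, h'.2, m2 w hw.1])
    (by intro w hw h'; rw [mem_filter] at hw h'; linarith [hw.2.2, h'.2])
  have card21 : (Ln C a2 b1).card = (W.filter (fun w => g21 w = 0)).card + 2 := by
    have : Ln C a2 b1 = insert a2 (insert b1 (W.filter (fun w => g21 w = 0))) := by
      ext k
      rw [mem_insert, mem_insert, mem_filter]
      by_cases k1 : k = a2
      · simp only [k1, true_or, iff_true]; exact h.left_mem _ _
      by_cases k2 : k = b1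
      · simp only [k2, true_or, or_true, iff_true]; exact h.right_mem _ _
      · simp only [k1, k2, false_or]; rw [mem_Ln]; exact O21 k k1 k2
    rw [this, card_insert_of_notMem, card_insert_of_notMem]
    · simp [hb1]
    · simp [h21, ha2]
  have card12 : (Ln C a1 b2).card = (W.filter (fun w => -g12 w = 0)).card + 2 := by
    have : Ln C a1 b2 = insert a1 (insert b2 (W.filter (fun w => -g12 w = 0))) := by
      ext k
      rw [mem_insert, mem_insert, mem_filter, neg_eq_zero]
      by_cases k1 : k = a1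
      · simp only [k1, true_or, iff_true]; exact h.left_mem _ _
      by_cases k2 : k = b2
      · simp only [k2, true_or, or_true, iff_true]; exact h.right_mem _ _
      · simp only [k1, k2, false_or]; rw [mem_Ln]; exact O12 k k1 k2
    rw [this, card_insert_of_notMem, card_insert_of_notMem]
    · simp [hb2]
    · simp [h12, ha1]
  rw [h.Ln_symm b1 a2] at D3
  rw [h.Ln_symm b2 a1] at D4
  rw [card21] at D2 D3
  rw [card12] at D1 D4
  have i1 : (if (W.filter (fun w => g21 w = 0)).card ≠ 1 then 1 else 0) =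
      (if (W.filter (fun w => g21 w = 0)).card + 2 ≠ 3 then 1 else 0) := by
    congr 1
    simp only [ne_eq, eq_iff_iff]
    constructor <;> intro h' <;> omega
  have i2 : (if (W.filter (fun w => -g12 w = 0)).card ≠ 1 then 1 else 0) =
      (if (W.filter (fun w => -g12 w = 0)).card + 2 ≠ 3 then 1 else 0) := by
    congr 1
    simp only [ne_eq, eq_iff_iff]
    constructor <;> intro h' <;> omega
  rw [i1] at H1 H3
  rw [i2] at H2 H4
  omega

theorem sgn_aux {x y : ℝ} (h : 0 < x * y) : (0 < x ↔ 0 < y) ∧ y ≠ 0 := by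
  constructor
  · constructor
    · intro hx; exact (pos_iff_pos_of_mul_pos h).mp hx
    · intro hy; exact (pos_iff_pos_of_mul_pos h).mpr hy
  · intro hy; rw [hy, mul_zero] at h; exact lt_irrefl _ h

/-- intercept on the vertical line `α` of the line through `(β,t)` and `(x,y)` -/
noncomputable def icp (α β t x y : ℝ) : ℝ := t + (y - t) * (α - β) / (x - β)

theorem icp_zero {α β s t x y : ℝ} (hx : x ≠ β) :
    icp α β t x y - s = 0 ↔ (β - α) * (y - s) - (t - s) * (x - α) = 0 := by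
  have h : x - β ≠ 0 := sub_ne_zero.mpr hx
  have : icp α β t x y - s = -((β - α) * (y - s) - (t - s) * (x - α)) / (x - β) := by
    unfold icp; field_simp; ring
  rw [this, div_eq_zero_iff, neg_eq_zero]
  constructor
  · rintro (h' | h')
    · exact h'
    · exact absurd h' h
  · intro h'; exact Or.inl h'

theorem icp_lt {α β t1 t2 x y : ℝ} (h : 0 < (t2 - t1) * ((x - α) * (x - β))) :
    icp α β t1 x y < icp α β t2 x y := by
  have hx : x - β ≠ 0 := by
    intro h'; rw [h', mul_zero, mul_zero] at h; exact lt_irrefl _ h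
  have h1 : icp α β t2 x y - icp α β t1 x y = (t2 - t1) * ((x - α) * (x - β)) / (x - β) ^ 2 := by
    unfold icp; field_simp; ring
  have h2 : 0 < (x - β) ^ 2 := by positivity
  have h3 : 0 < icp α β t2 x y - icp α β t1 x y := by rw [h1]; exact div_pos h h2
  linarith

/-- points collinear with `(α,s)` -/
theorem icp_a {α β s t x y x' y' : ℝ} (hx : x ≠ β) (hx' : x' ≠ β)
    (ha : x ≠ α) (ha' : x' ≠ α)
    (hpos : 0 < ((x - α) * (x - β)) * ((x' - α) * (x' - β)))
    (hcol : (x - α) * (y' - s) - (y - s) * (x' - α) = 0)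
    (h0 : icp α β t x y - s ≠ 0) :
    0 < (icp α β t x y - s) * (icp α β t x' y' - s) := by
  have h1 : x - β ≠ 0 := sub_ne_zero.mpr hx
  have h2 : x' - β ≠ 0 := sub_ne_zero.mpr hx'
  have h3 : x - α ≠ 0 := sub_ne_zero.mpr ha
  have h4 : x' - α ≠ 0 := sub_ne_zero.mpr ha'
  -- slope
  obtain ⟨m, hm⟩ : ∃ m, y = s + m * (x - α) := ⟨(y - s) / (x - α), by field_simp; ring⟩
  have hm' : y' = s + m * (x' - α) := by
    have : (x - α) * (y' - s - m * (x' - α)) = 0 := by rw [hm] at hcol; linarith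
    rcases mul_eq_zero.mp this with h | h
    · exact absurd h h3
    · linarith
  have e1 : icp α β t x y - s = (t - s - m * (β - α)) * ((x - α) * (x - β)) / (x - β) ^ 2 := by
    unfold icp; rw [hm]; field_simp; ring
  have e2 : icp α β t x' y' - s = (t - s - m * (β - α)) * ((x' - α) * (x' - β)) / (x' - β) ^ 2 := by
    unfold icp; rw [hm']; field_simp; ring
  have hA : t - s - m * (β - α) ≠ 0 := by
    intro h; rw [e1, h] at h0; simp at h0
  have hA2 : 0 < (t - s - m * (β - α)) ^ 2 := by positivity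
  have p1 : 0 < (x - β) ^ 2 := by positivity
  have p2 : 0 < (x' - β) ^ 2 := by positivity
  have e3 : (icp α β t x y - s) * (icp α β t x' y' - s) =
      (t - s - m * (β - α)) ^ 2 * (((x - α) * (x - β)) * ((x' - α) * (x' - β))) /
        ((x - β) ^ 2 * (x' - β) ^ 2) := by
    rw [e1, e2]; field_simp
  rw [e3]
  exact div_pos (mul_pos hA2 hpos) (mul_pos p1 p2)

theorem icp_b {α β t x y x' y' : ℝ} (hx : x ≠ β) (hx' : x' ≠ β)
    (hcol : (x - β) * (y' - t) - (y - t) * (x' - β) = 0) :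
    icp α β t x y = icp α β t x' y' := by
  have h1 : x - β ≠ 0 := sub_ne_zero.mpr hx
  have h2 : x' - β ≠ 0 := sub_ne_zero.mpr hx'
  have : (y - t) / (x - β) = (y' - t) / (x' - β) := by
    rw [div_eq_div_iff h1 h2]; linarith
  unfold icp
  have e1 : (y - t) * (α - β) / (x - β) = (y - t) / (x - β) * (α - β) := by ring
  have e2 : (y' - t) * (α - β) / (x' - β) = (y' - t) / (x' - β) * (α - β) := by ring
  rw [e1, e2, this]

/-- a chart in which the point `O` is the vertical point at infinity -/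
structure Chart (C : ι → ι → ι → Prop) (O : ι) (u v : ι → ℝ) : Prop where
  lin : Lin C
  three : ∀ a b c, a ≠ O → b ≠ O → c ≠ O → u a = u b → u c = u a → a ≠ b → c = a ∨ c = b
  hC : ∀ i j k, i ≠ O → j ≠ O → k ≠ O →
    (C i j k ↔ (u j - u i) * (v k - v i) - (v j - v i) * (u k - u i) = 0)
  hO : ∀ i j, i ≠ O → j ≠ O → (C O i j ↔ u i = u j)
  inj : ∀ i j, i ≠ O → j ≠ O → u i = u j → v i = v j → i = j

omit [Fintype ι] in
theorem Chart.col {C : ι → ι → ι → Prop} {O : ι} {u v : ι → ℝ} (ch : Chart C O u v)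
    {a1 a2 k : ι} (h1 : a1 ≠ O) (h2 : a2 ≠ O) (hk : k ≠ O) (h : a1 ≠ a2) (hu : u a1 = u a2)
    (hk1 : u k = u a1) : k = a1 ∨ k = a2 := ch.three a1 a2 k h1 h2 hk hu hk1 h

omit [Fintype ι] in
theorem Chart.notcol {C : ι → ι → ι → Prop} {O : ι} {u v : ι → ℝ} (ch : Chart C O u v)
    {a1 a2 k : ι} (h1 : a1 ≠ O) (h2 : a2 ≠ O) (hk : k ≠ O) (h : a1 ≠ a2) (hu : u a1 = u a2)
    (hk1 : u k ≠ u a1) : ¬ C a1 k a2 := by
  intro hc
  rw [ch.hC a1 k a2 h1 hk h2, ← hu, sub_self, mul_zero, sub_zero] at hc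
  rcases mul_eq_zero.mp hc with h' | h'
  · exact hk1 (by linarith)
  · exact h (ch.inj a1 a2 h1 h2 hu (by linarith))

theorem geo' {C : ι → ι → ι → Prop} {O : ι} {u v : ι → ℝ} (ch : Chart C O u v)
    {a1 a2 b1 b2 : ι} (ha1 : a1 ≠ O) (ha2 : a2 ≠ O) (hb1 : b1 ≠ O) (hb2 : b2 ≠ O)
    (ha : a1 ≠ a2) (hb : b1 ≠ b2) (ua : u a1 = u a2) (ub : u b1 = u b2) (uab : u a1 ≠ u b1)
    (hva : v a1 < v a2)
    (hvb : ∀ w, w ≠ O → u w ≠ u a1 → u w ≠ u b1 →
      0 < (v b2 - v b1) * ((u w - u a1) * (u w - u b1)))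
    (hsep : ∀ w k, w ≠ O → k ≠ O → u w ≠ u a1 → u w ≠ u b1 → u k ≠ u a1 → u k ≠ u b1 →
      0 < ((u w - u a1) * (u w - u b1)) * ((u k - u a1) * (u k - u b1))) :
    4 ≤ deg C a1 + deg C a2 + deg C b1 + deg C b2 := by
  have n11 : a1 ≠ b1 := fun h => uab (by rw [h])
  have n12 : a1 ≠ b2 := fun h => uab (by rw [h, ub])
  have n21 : a2 ≠ b1 := fun h => uab (by rw [ua, h])
  have n22 : a2 ≠ b2 := fun h => uab (by rw [ua, h, ub])
  set W : Finset ι := (univ : Finset ι).filter
    (fun w => w ≠ O ∧ u w ≠ u a1 ∧ u w ≠ u b1) with hW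
  have mW : ∀ w, w ∈ W ↔ (w ≠ O ∧ u w ≠ u a1 ∧ u w ≠ u b1) := by intro w; simp [hW]
  -- a point different from the five special ones is in `W`
  have inW : ∀ k, k ≠ O → k ≠ a1 → k ≠ a2 → k ≠ b1 → k ≠ b2 → k ∈ W := by
    intro k h0 h1 h2 h3 h4
    rw [mW]
    refine ⟨h0, fun h => ?_, fun h => ?_⟩
    · rcases ch.col ha1 ha2 h0 ha ua h with h' | h'
      · exact h1 h'
      · exact h2 h'
    · rcases ch.col hb1 hb2 h0 hb ub h with h' | h'
      · exact h3 h'
      · exact h4 h'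
  have nO : ∀ i w, i ≠ O → w ≠ O → u w ≠ u i → ¬ C i w O := by
    intro i w hi hw h hc
    exact h (((ch.hO i w hi hw).mp (ch.lin.hs' _ _ _ (ch.lin.hs _ _ _ hc))).symm)
  -- the functions
  have zero_iff : ∀ a b w, a ≠ O → b ≠ O → w ≠ O → u a = u a1 → u b = u b1 → u w ≠ u b1 →
      (icp (u a1) (u b1) (v b) (u w) (v w) - v a = 0 ↔ C a b w) := by
    intro a b w h0 h1 h2 h3 h4 h5
    rw [icp_zero h5, ch.hC a b w h0 h1 h2, h3, h4]
  refine adjacent ch.lin W a1 a2 b1 b2 (by simp [mW]) (by simp [mW, ua])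
    (by simp [mW]) (by simp [mW, ub]) n12 n21
    (fun w => icp (u a1) (u b1) (v b1) (u w) (v w) - v a1)
    (fun w => icp (u a1) (u b1) (v b2) (u w) (v w) - v a1)
    (fun w => icp (u a1) (u b1) (v b1) (u w) (v w) - v a2)
    (fun w => icp (u a1) (u b1) (v b2) (u w) (v w) - v a2)
    (fun w hw => by linarith) (fun w hw => by linarith) ?_ ?_ ?_ ?_ ?_ ?_
    ?_ ?_
  · intro w hw
    rw [mW] at hw
    have := icp_lt (y := v w) (hvb w hw.1 hw.2.1 hw.2.2)
    linarith
  · intro w hw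
    rw [mW] at hw
    have := icp_lt (y := v w) (hvb w hw.1 hw.2.1 hw.2.2)
    linarith
  · -- Ka1
    intro w hw g1 g2 k k1 k3
    have hw' := (mW w).mp hw
    have kO : k ≠ O := fun h => nO a1 w ha1 hw'.1 hw'.2.1 (h ▸ k3)
    have ka2 : k ≠ a2 := fun h => ch.notcol ha1 ha2 hw'.1 ha ua hw'.2.1 (h ▸ k3)
    have kb1 : k ≠ b1 := fun h => g1 ((zero_iff a1 b1 w ha1 hb1 hw'.1 rfl rfl hw'.2.2).mpr
      (ch.lin.hs _ _ _ (h ▸ k3)))
    have kb2 : k ≠ b2 := fun h => g2 ((zero_iff a1 b2 w ha1 hb2 hw'.1 rfl ub.symm hw'.2.2).mpr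
      (ch.lin.hs _ _ _ (h ▸ k3)))
    have hk := inW k kO k1 ka2 kb1 kb2
    have hk' := (mW k).mp hk
    have hcol := (ch.hC a1 w k ha1 hw'.1 kO).mp k3
    have p1 := icp_a hw'.2.2 hk'.2.2 hw'.2.1 hk'.2.1
      (hsep w k hw'.1 kO hw'.2.1 hw'.2.2 hk'.2.1 hk'.2.2) hcol g1
    have p2 := icp_a hw'.2.2 hk'.2.2 hw'.2.1 hk'.2.1
      (hsep w k hw'.1 kO hw'.2.1 hw'.2.2 hk'.2.1 hk'.2.2) hcol g2
    exact ⟨hk, (sgn_aux p1).1, (sgn_aux p2).1, (sgn_aux p1).2, (sgn_aux p2).2⟩
  · -- Ka2
    intro w hw g1 g2 k k1 k3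
    have hw' := (mW w).mp hw
    have kO : k ≠ O := fun h => nO a2 w ha2 hw'.1 (ua ▸ hw'.2.1) (h ▸ k3)
    have ka1 : k ≠ a1 := fun h =>
      ch.notcol ha2 ha1 hw'.1 ha.symm ua.symm (ua ▸ hw'.2.1) (h ▸ k3)
    have kb1 : k ≠ b1 := fun h => g1 ((zero_iff a2 b1 w ha2 hb1 hw'.1 ua.symm rfl hw'.2.2).mpr
      (ch.lin.hs _ _ _ (h ▸ k3)))
    have kb2 : k ≠ b2 := fun h =>
      g2 ((zero_iff a2 b2 w ha2 hb2 hw'.1 ua.symm ub.symm hw'.2.2).mpr
      (ch.lin.hs _ _ _ (h ▸ k3)))
    have hk := inW k kO ka1 k1 kb1 kb2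
    have hk' := (mW k).mp hk
    have hcol := (ch.hC a2 w k ha2 hw'.1 kO).mp k3
    rw [← ua] at hcol
    have p1 := icp_a hw'.2.2 hk'.2.2 hw'.2.1 hk'.2.1
      (hsep w k hw'.1 kO hw'.2.1 hw'.2.2 hk'.2.1 hk'.2.2) hcol g1
    have p2 := icp_a hw'.2.2 hk'.2.2 hw'.2.1 hk'.2.1
      (hsep w k hw'.1 kO hw'.2.1 hw'.2.2 hk'.2.1 hk'.2.2) hcol g2
    exact ⟨hk, (sgn_aux p1).1, (sgn_aux p2).1, (sgn_aux p1).2, (sgn_aux p2).2⟩
  · -- Kb1
    intro w hw g1 g2 k k1 k3
    have hw' := (mW w).mp hw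
    have kO : k ≠ O := fun h => nO b1 w hb1 hw'.1 hw'.2.2 (h ▸ k3)
    have kb2 : k ≠ b2 := fun h => ch.notcol hb1 hb2 hw'.1 hb ub hw'.2.2 (h ▸ k3)
    have ka1 : k ≠ a1 := fun h => g1 ((zero_iff a1 b1 w ha1 hb1 hw'.1 rfl rfl hw'.2.2).mpr
      (ch.lin.hs' _ _ _ (ch.lin.hs _ _ _ (h ▸ k3))))
    have ka2 : k ≠ a2 := fun h => g2 ((zero_iff a2 b1 w ha2 hb1 hw'.1 ua.symm rfl hw'.2.2).mpr
      (ch.lin.hs' _ _ _ (ch.lin.hs _ _ _ (h ▸ k3))))
    have hk := inW k kO ka1 ka2 k1 kb2
    have hk' := (mW k).mp hk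
    have hcol := (ch.hC b1 w k hb1 hw'.1 kO).mp k3
    have e := icp_b (α := u a1) hw'.2.2 hk'.2.2 hcol
    rw [← e]
    exact ⟨hk, Iff.rfl, Iff.rfl, g1, g2⟩
  · -- Kb2
    intro w hw g1 g2 k k1 k3
    have hw' := (mW w).mp hw
    have kO : k ≠ O := fun h => nO b2 w hb2 hw'.1 (ub ▸ hw'.2.2) (h ▸ k3)
    have kb1 : k ≠ b1 := fun h =>
      ch.notcol hb2 hb1 hw'.1 hb.symm ub.symm (ub ▸ hw'.2.2) (h ▸ k3)
    have ka1 : k ≠ a1 := fun h => g1 ((zero_iff a1 b2 w ha1 hb2 hw'.1 rfl ub.symm hw'.2.2).mpr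
      (ch.lin.hs' _ _ _ (ch.lin.hs _ _ _ (h ▸ k3))))
    have ka2 : k ≠ a2 := fun h =>
      g2 ((zero_iff a2 b2 w ha2 hb2 hw'.1 ua.symm ub.symm hw'.2.2).mpr
      (ch.lin.hs' _ _ _ (ch.lin.hs _ _ _ (h ▸ k3))))
    have hk := inW k kO ka1 ka2 kb1 k1
    have hk' := (mW k).mp hk
    have hcol := (ch.hC b2 w k hb2 hw'.1 kO).mp k3
    rw [← ub] at hcol
    have e := icp_b (α := u a1) hw'.2.2 hk'.2.2 hcol
    rw [← e]
    exact ⟨hk, Iff.rfl, Iff.rfl, g1, g2⟩
  · intro k k1 k2
    constructor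
    · intro k3
      have kO : k ≠ O := fun h => nO a2 b1 ha2 hb1 (by rw [← ua]; exact uab.symm) (h ▸ k3)
      have ka1 : k ≠ a1 := fun h =>
        ch.notcol ha2 ha1 hb1 ha.symm ua.symm (by rw [← ua]; exact uab.symm) (h ▸ k3)
      have kb2 : k ≠ b2 := fun h =>
        ch.notcol hb1 hb2 ha2 hb ub (by rw [← ua]; exact uab) (ch.lin.hs' _ _ _ (h ▸ k3))
      have hk := inW k kO ka1 k1 k2 kb2
      have hk' := (mW k).mp hk
      exact ⟨hk, (zero_iff a2 b1 k ha2 hb1 kO ua.symm rfl hk'.2.2).mpr k3⟩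
    · rintro ⟨hk, h⟩
      have hk' := (mW k).mp hk
      exact (zero_iff a2 b1 k ha2 hb1 hk'.1 ua.symm rfl hk'.2.2).mp h
  · intro k k1 k2
    constructor
    · intro k3
      have kO : k ≠ O := fun h => nO a1 b2 ha1 hb2 (by rw [← ub]; exact uab.symm) (h ▸ k3)
      have ka2 : k ≠ a2 := fun h =>
        ch.notcol ha1 ha2 hb2 ha ua (by rw [← ub]; exact uab.symm) (h ▸ k3)
      have kb1 : k ≠ b1 := fun h =>
        ch.notcol hb2 hb1 ha1 hb.symm ub.symm (by rw [← ub]; exact uab) (ch.lin.hs' _ _ _ (h ▸ k3))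
      have hk := inW k kO k1 ka2 kb1 k2
      have hk' := (mW k).mp hk
      exact ⟨hk, (zero_iff a1 b2 k ha1 hb2 kO rfl ub.symm hk'.2.2).mpr k3⟩
    · rintro ⟨hk, h⟩
      have hk' := (mW k).mp hk
      exact (zero_iff a1 b2 k ha1 hb2 hk'.1 rfl ub.symm hk'.2.2).mp h

theorem geo {C : ι → ι → ι → Prop} {O : ι} {u v : ι → ℝ} (ch : Chart C O u v)
    {a1 a2 b1 b2 : ι} (ha1 : a1 ≠ O) (ha2 : a2 ≠ O) (hb1 : b1 ≠ O) (hb2 : b2 ≠ O)
    (ha : a1 ≠ a2) (hb : b1 ≠ b2) (ua : u a1 = u a2) (ub : u b1 = u b2) (uab : u a1 ≠ u b1)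
    (hsep : ∀ w k, w ≠ O → k ≠ O → u w ≠ u a1 → u w ≠ u b1 → u k ≠ u a1 → u k ≠ u b1 →
      0 < ((u w - u a1) * (u w - u b1)) * ((u k - u a1) * (u k - u b1))) :
    4 ≤ deg C a1 + deg C a2 + deg C b1 + deg C b2 := by
  have key : ∀ a1 a2 b1 b2 : ι, a1 ≠ O → a2 ≠ O → b1 ≠ O → b2 ≠ O → a1 ≠ a2 → b1 ≠ b2 →
      u a1 = u a2 → u b1 = u b2 → u a1 ≠ u b1 → v a1 < v a2 →
      (∀ w k, w ≠ O → k ≠ O → u w ≠ u a1 → u w ≠ u b1 → u k ≠ u a1 → u k ≠ u b1 →
      0 < ((u w - u a1) * (u w - u b1)) * ((u k - u a1) * (u k - u b1))) →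
      4 ≤ deg C a1 + deg C a2 + deg C b1 + deg C b2 := by
    intro a1 a2 b1 b2 ha1 ha2 hb1 hb2 ha hb ua ub uab hva hsep
    have hvne : v b1 ≠ v b2 := fun h => hb (ch.inj b1 b2 hb1 hb2 ub h)
    by_cases hw : ∃ w, w ≠ O ∧ u w ≠ u a1 ∧ u w ≠ u b1
    · obtain ⟨w0, h0, h1, h2⟩ := hw
      have hne : (v b2 - v b1) * ((u w0 - u a1) * (u w0 - u b1)) ≠ 0 :=
        mul_ne_zero (sub_ne_zero.mpr hvne.symm)
          (mul_ne_zero (sub_ne_zero.mpr h1) (sub_ne_zero.mpr h2))
      rcases lt_or_gt_of_ne hne with hneg | hpos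
      · have := geo' ch ha1 ha2 hb2 hb1 ha hb.symm ua ub.symm (by rw [← ub]; exact uab) hva
          (by
            intro w g0 g1 g2
            rw [← ub] at g2 ⊢
            have h3 := hsep w0 w h0 g0 h1 h2 g1 g2
            have h4 : 0 < (v b1 - v b2) * ((u w0 - u a1) * (u w0 - u b1)) := by linarith
            have h5 : 0 < ((v b1 - v b2) * ((u w - u a1) * (u w - u b1))) *
              ((u w0 - u a1) * (u w0 - u b1)) ^ 2 := by
              have := mul_pos h4 h3
              nlinarith [this]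
            exact (pos_iff_pos_of_mul_pos h5).mpr (by positivity))
          (by
            rw [← ub]; exact hsep)
        omega
      · refine geo' ch ha1 ha2 hb1 hb2 ha hb ua ub uab hva ?_ hsep
        intro w g0 g1 g2
        have h3 := hsep w0 w h0 g0 h1 h2 g1 g2
        have h5 : 0 < ((v b2 - v b1) * ((u w - u a1) * (u w - u b1))) *
          ((u w0 - u a1) * (u w0 - u b1)) ^ 2 := by
          have := mul_pos hpos h3
          nlinarith [this]
        exact (pos_iff_pos_of_mul_pos h5).mpr (by positivity)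
    · refine geo' ch ha1 ha2 hb1 hb2 ha hb ua ub uab hva ?_ hsep
      intro w g0 g1 g2
      exact absurd ⟨w, g0, g1, g2⟩ hw
  rcases lt_trichotomy (v a1) (v a2) with h | h | h
  · exact key a1 a2 b1 b2 ha1 ha2 hb1 hb2 ha hb ua ub uab h hsep
  · exact absurd (ch.inj a1 a2 ha1 ha2 ua h) ha
  · have := key a2 a1 b1 b2 ha2 ha1 hb1 hb2 ha.symm hb ua.symm ub (by rw [← ua]; exact uab) h
      (by rw [← ua]; exact hsep)
    omega

theorem card_ne_one {C : ι → ι → ι → Prop} (h : Lin C) (hn : Even (Fintype.card ι)) (i : ι) :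
    1 ≤ deg C i := by
  by_contra hcon
  have h0 : bad C i (univ.erase i) = 0 := by unfold deg at hcon; omega
  have h1 := even_of_bad h i (univ.erase i) (by simp) (by
    intro w _ k hk _
    simp [hk]) h0
  rw [card_erase_of_mem (mem_univ i), card_univ] at h1
  have hpos : 0 < Fintype.card ι := Fintype.card_pos_iff.mpr ⟨i⟩
  rcases hn with ⟨a, ha⟩
  rcases h1 with ⟨b, hb⟩
  omega

theorem deg_even_case {C : ι → ι → ι → Prop} (h : Lin C)
    (hn : Even (Fintype.card ι)) : Fintype.card ι ≤ ∑ i, deg C i := by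
  have h2 := Finset.sum_le_sum (fun i (_ : i ∈ (univ : Finset ι)) => card_ne_one h hn i)
  simpa using h2

theorem deg_ge_two {C : ι → ι → ι → Prop} (h : Lin C)
    (hn : Odd (Fintype.card ι)) (i j : ι) (hij : i ≠ j) (h2 : ∀ k, C i j k → k = i ∨ k = j) :
    2 ≤ deg C i := by
  have hL : Ln C i j = {i, j} := by
    ext k
    rw [mem_Ln, mem_insert, mem_singleton]
    constructor
    · exact h2 k
    · rintro (rfl | rfl)
      · exact mem_Ln.mp (h.left_mem _ _)
      · exact mem_Ln.mp (h.right_mem _ _)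
  have hcl : ∀ w ∈ (univ.erase i).erase j, ∀ k, k ≠ i → C i w k → k ∈ (univ.erase i).erase j := by
    intro w hw k hk hc
    rw [mem_erase, mem_erase] at hw ⊢
    refine ⟨fun hkj => ?_, hk, mem_univ _⟩
    rw [hkj] at hc
    rcases h2 w (h.hs _ _ _ hc) with h' | h'
    · exact hw.2.1 h'
    · exact hw.1 h'
  have hd := deg_lower h i j hij ((univ.erase i).erase j) ∅ ∅ (by simp) (by simp) (by simp)
    (by simp) (by simp) (by simp) hcl (by simp) (by simp) (by simp) (by simp) (by simp)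
  rw [hL, card_pair hij, if_pos (by decide)] at hd
  by_contra hcon
  have h0 : bad C i ((univ.erase i).erase j) = 0 := by omega
  have h1 := even_of_bad h i _ (by simp) hcl h0
  have hj : j ∈ (univ : Finset ι).erase i := by simp [hij.symm]
  have hlt : 1 < (univ : Finset ι).card := one_lt_card.mpr ⟨i, mem_univ _, j, mem_univ _, hij⟩
  rw [card_erase_of_mem hj, card_erase_of_mem (mem_univ i)] at h1
  rw [card_univ] at h1 hlt
  rcases hn with ⟨a, ha⟩
  rcases h1 with ⟨b, hb⟩
  omega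

theorem odd_case {C : ι → ι → ι → Prop} {O : ι} {u v : ι → ℝ} (ch : Chart C O u v)
    (hn : Odd (Fintype.card ι)) (hcol : ∃ i j, i ≠ O ∧ j ≠ O ∧ u i ≠ u j) :
    Fintype.card ι - 1 ≤ ∑ i, deg C i := by
  set J : Finset ι := univ.erase O with hJ
  set U : Finset ℝ := J.image u with hU
  set F : ℝ → Finset ι := fun c => J.filter (fun i => u i = c) with hF
  set w : ℝ → ℕ := fun c => ∑ i ∈ F c, deg C i with hw
  set s : ℝ → ℕ := fun c => if (F c).card = 1 then 1 else 0 with hs
  have memJ : ∀ i, i ∈ J ↔ i ≠ O := by intro i; simp [hJ]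
  have memF : ∀ c i, i ∈ F c ↔ (i ≠ O ∧ u i = c) := by
    intro c i; simp [hF, hJ]
  -- fibre sizes
  have Fpos : ∀ c ∈ U, 1 ≤ (F c).card := by
    intro c hc
    rw [hU, mem_image] at hc
    obtain ⟨i, hi, hic⟩ := hc
    rw [Nat.one_le_iff_ne_zero, ← Nat.pos_iff_ne_zero, card_pos]
    exact ⟨i, (memF c i).mpr ⟨(memJ i).mp hi, hic⟩⟩
  have Fle : ∀ c, (F c).card ≤ 2 := by
    intro c
    by_contra hcon
    have h3 : 2 < (F c).card := by omega
    obtain ⟨x, hx, y, hy, z, hz, hxy, hxz, hyz⟩ := (two_lt_card).mp h3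
    rw [memF] at hx hy hz
    rcases ch.col hx.1 hy.1 hz.1 hxy (by rw [hx.2, hy.2]) (by rw [hz.2, hx.2]) with h | h
    · exact hxz h.symm
    · exact hyz h.symm
  have Fs : ∀ c ∈ U, (F c).card + s c = 2 := by
    intro c hc
    have h1 := Fpos c hc
    have h2 := Fle c
    simp only [hs]
    by_cases h : (F c).card = 1
    · rw [if_pos h]; omega
    · rw [if_neg h]; omega
  -- sums over columns
  have sumJ : ∑ c ∈ U, w c = ∑ i ∈ J, deg C i := by
    simp only [hw, hF]
    exact Finset.sum_fiberwise_of_maps_to (fun i hi => mem_image_of_mem u hi) _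
  have cardJ : ∑ c ∈ U, (F c).card = J.card := by
    rw [Finset.card_eq_sum_card_fiberwise (f := u) (t := U)
      (fun i hi => by exact_mod_cast mem_image_of_mem u hi)]
  have cardJ' : J.card = Fintype.card ι - 1 := by
    rw [hJ, card_erase_of_mem (mem_univ O), card_univ]
  have sumFs : J.card + ∑ c ∈ U, s c = 2 * U.card := by
    rw [← cardJ, ← sum_add_distrib, Finset.sum_congr rfl Fs, sum_const, smul_eq_mul, mul_comm]
  -- singles
  have single : ∀ c ∈ U, (F c).card = 1 →
      ∃ i, F c = {i} ∧ (i ≠ O ∧ ∀ k, C O i k → k = O ∨ k = i) ∧ 2 ≤ w c := by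
    intro c _ h
    obtain ⟨i, hi⟩ := card_eq_one.mp h
    have hiF : i ∈ F c := by rw [hi]; exact mem_singleton_self i
    rw [memF] at hiF
    have ho : ∀ k, C O i k → k = O ∨ k = i := by
      intro k k3
      by_cases k1 : k = O
      · exact Or.inl k1
      have hk : k ∈ F c := by
        rw [memF]
        exact ⟨k1, by rw [← (ch.hO i k hiF.1 k1).mp k3, hiF.2]⟩
      rw [hi, mem_singleton] at hk
      exact Or.inr hk
    refine ⟨i, hi, ⟨hiF.1, ho⟩, ?_⟩
    have h2 := deg_ge_two ch.lin hn i O hiF.1 (fun k hk => (ho k (ch.lin.hs' _ _ _ hk)).symm)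
    simp only [hw, hi, sum_singleton]
    exact h2
  have degO : ∑ c ∈ U, s c ≤ deg C O := by
    have h1 : ∑ c ∈ U, s c = (U.filter (fun c => (F c).card = 1)).card := by
      simp only [hs, card_filter]
    rw [h1, deg, bad]
    have hex : ∀ c ∈ U.filter (fun c => (F c).card = 1),
        ∃ i, F c = {i} ∧ (i ≠ O ∧ ∀ k, C O i k → k = O ∨ k = i) := by
      intro c hc
      rw [mem_filter] at hc
      obtain ⟨i, h1, h2, _⟩ := single c hc.1 hc.2
      exact ⟨i, h1, h2⟩
    refine Finset.card_le_card_of_injOn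
      (fun c => if hc : c ∈ U.filter (fun c => (F c).card = 1) then
        Ln C O (hex c hc).choose else ∅) ?_ ?_
    · intro c hc
      have hc' : c ∈ U.filter (fun c => (F c).card = 1) := by exact_mod_cast hc
      simp only [coe_filter, Set.mem_ofPred_eq]
      rw [dif_pos hc']
      have hsp := (hex c hc').choose_spec
      refine ⟨mem_image.mpr ⟨(hex c hc').choose, by simp [hsp.2.1], rfl⟩, ?_⟩
      have hL : Ln C O (hex c hc').choose = {O, (hex c hc').choose} := by
        ext k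
        rw [mem_Ln, mem_insert, mem_singleton]
        constructor
        · exact hsp.2.2 k
        · rintro (h' | h')
          · rw [h']; exact mem_Ln.mp (ch.lin.left_mem _ _)
          · rw [h']; exact mem_Ln.mp (ch.lin.right_mem _ _)
      rw [hL, card_pair hsp.2.1.symm]
      decide
    · intro c hc d hd hcd
      have hc' : c ∈ U.filter (fun c => (F c).card = 1) := by exact_mod_cast hc
      have hd' : d ∈ U.filter (fun c => (F c).card = 1) := by exact_mod_cast hd
      simp only at hcd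
      rw [dif_pos hc', dif_pos hd'] at hcd
      have sc := (hex c hc').choose_spec
      have sd := (hex d hd').choose_spec
      have e1 : (hex c hc').choose ∈ F c :=
        (Finset.ext_iff.mp (hex c hc').choose_spec.1 _).mpr (mem_singleton_self _)
      have e2 : (hex d hd').choose ∈ F d :=
        (Finset.ext_iff.mp (hex d hd').choose_spec.1 _).mpr (mem_singleton_self _)
      rw [memF] at e1 e2
      have e3 : (hex c hc').choose ∈ Ln C O (hex d hd').choose := by
        rw [← hcd]; exact ch.lin.right_mem _ _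
      rcases sd.2.2 _ (mem_Ln.mp e3) with h' | h'
      · exact absurd h' sc.2.1
      · rw [← e1.2, ← e2.2, h']
  -- two adjacent columns
  have adj : ∀ c ∈ U, ∀ d ∈ U, c ≠ d →
      (∀ γ ∈ U, ∀ δ ∈ U, γ ≠ c → γ ≠ d → δ ≠ c → δ ≠ d →
        0 < ((γ - c) * (γ - d)) * ((δ - c) * (δ - d))) →
      4 ≤ w c + w d + 2 * s c + 2 * s d := by
    intro c hc d hd hcd hsep
    have c1 := Fpos c hc
    have c2 := Fle c
    have d1 := Fpos d hd
    have d2 := Fle d
    by_cases hc1 : (F c).card = 1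
    · obtain ⟨_, _, _, h2⟩ := single c hc hc1
      have : s c = 1 := by simp [hs, hc1]
      omega
    by_cases hd1 : (F d).card = 1
    · obtain ⟨_, _, _, h2⟩ := single d hd hd1
      have : s d = 1 := by simp [hs, hd1]
      omega
    have hc2 : (F c).card = 2 := by omega
    have hd2 : (F d).card = 2 := by omega
    obtain ⟨a1, a2, ha, hFa⟩ := card_eq_two.mp hc2
    obtain ⟨b1, b2, hb, hFb⟩ := card_eq_two.mp hd2
    have A1 : a1 ∈ F c := by rw [hFa]; simp
    have A2 : a2 ∈ F c := by rw [hFa]; simp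
    have B1 : b1 ∈ F d := by rw [hFb]; simp
    have B2 : b2 ∈ F d := by rw [hFb]; simp
    rw [memF] at A1 A2 B1 B2
    have hg := geo ch A1.1 A2.1 B1.1 B2.1 ha hb (by rw [A1.2, A2.2]) (by rw [B1.2, B2.2])
      (by rw [A1.2, B1.2]; exact hcd) (by
        intro x k x0 k0 x1 x2 k1 k2
        rw [A1.2] at x1 k1 ⊢
        rw [B1.2] at x2 k2 ⊢
        exact hsep (u x) (mem_image_of_mem u ((memJ x).mpr x0)) (u k)
          (mem_image_of_mem u ((memJ k).mpr k0)) x1 x2 k1 k2)
    have wc : w c = deg C a1 + deg C a2 := by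
      simp only [hw, hFa]; rw [sum_pair ha]
    have wd : w d = deg C b1 + deg C b2 := by
      simp only [hw, hFb]; rw [sum_pair hb]
    omega
  -- at least two columns
  have hM : 2 ≤ U.card := by
    obtain ⟨i, j, hi, hj, hij⟩ := hcol
    have : 1 < U.card := one_lt_card.mpr ⟨u i, mem_image_of_mem u ((memJ i).mpr hi), u j,
      mem_image_of_mem u ((memJ j).mpr hj), hij⟩
    omega
  -- cyclic summation
  obtain ⟨m, hm⟩ : ∃ m, U.card = m + 1 := ⟨U.card - 1, by omega⟩
  set f : Fin (m + 1) ↪o ℝ := U.orderEmbOfFin hm with hf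
  have fmem : ∀ k, f k ∈ U := fun k => orderEmbOfFin_mem U hm k
  have fsurj : ∀ c ∈ U, ∃ k, f k = c := by
    intro c hc
    have : c ∈ Set.range f := by rw [hf, range_orderEmbOfFin]; exact_mod_cast hc
    exact this
  have sumf : ∀ g : ℝ → ℕ, ∑ k, g (f k) = ∑ c ∈ U, g c := by
    intro g
    have : U = (univ : Finset (Fin (m + 1))).map f.toEmbedding := by
      ext c
      simp only [mem_map, mem_univ, true_and]
      constructor
      · intro hc; obtain ⟨k, hk⟩ := fsurj c hc; exact ⟨k, hk⟩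
      · rintro ⟨k, hk⟩; rw [← hk]; exact fmem k
    rw [this, sum_map]
    rfl
  have sumf' : ∀ g : ℝ → ℕ, ∑ k, g (f (finRotate (m + 1) k)) = ∑ c ∈ U, g c := by
    intro g
    rw [← sumf g]
    exact Equiv.sum_comp (finRotate (m + 1)) (fun k => g (f k))
  have hm1 : 1 ≤ m := by omega
  have loc : ∀ k : Fin (m + 1), 4 ≤ w (f k) + w (f (finRotate (m + 1) k)) + 2 * s (f k)
      + 2 * s (f (finRotate (m + 1) k)) := by
    intro k
    by_cases hk : k = Fin.last m
    · subst hk
      rw [finRotate_last]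
      have hlt : (0 : Fin (m + 1)) < Fin.last m := by
        rw [Fin.lt_def, Fin.val_zero, Fin.val_last]; omega
      refine adj _ (fmem _) _ (fmem _) (fun h => by
        have := f.injective h; rw [this] at hlt; exact lt_irrefl _ hlt) ?_
      intro γ hγ δ hδ g1 g2 d1 d2
      have key : ∀ γ ∈ U, γ ≠ f (Fin.last m) → γ ≠ f 0 →
          (γ - f (Fin.last m)) * (γ - f 0) < 0 := by
        intro γ hγ g1 g2
        obtain ⟨l, rfl⟩ := fsurj γ hγ
        have l1 : f l < f (Fin.last m) :=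
          lt_of_le_of_ne (f.monotone (Fin.le_last l)) g1
        have l2 : f 0 < f l := lt_of_le_of_ne (f.monotone (Fin.zero_le l)) (Ne.symm g2)
        exact mul_neg_of_neg_of_pos (by linarith) (by linarith)
      exact mul_pos_of_neg_of_neg (key γ hγ g1 g2) (key δ hδ d1 d2)
    · have hk' : k.val < m := by
        have := Fin.lt_last_iff_ne_last.mpr hk
        rw [Fin.lt_def] at this
        simpa using this
      have hr : finRotate (m + 1) k = ⟨k.val + 1, by omega⟩ := by
        rw [finRotate_apply]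
        apply Fin.ext
        rw [Fin.val_add_one_of_lt (Fin.lt_last_iff_ne_last.mpr hk)]
      rw [hr]
      have hlt : k < (⟨k.val + 1, by omega⟩ : Fin (m + 1)) := by
        rw [Fin.lt_def]; simp
      refine adj _ (fmem _) _ (fmem _) (fun h => by
        have := f.injective h; rw [← this] at hlt; exact lt_irrefl _ hlt) ?_
      intro γ hγ δ hδ g1 g2 d1 d2
      have key : ∀ γ ∈ U, γ ≠ f k → γ ≠ f ⟨k.val + 1, by omega⟩ →
          0 < (γ - f k) * (γ - f ⟨k.val + 1, by omega⟩) := by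
        intro γ hγ g1 g2
        obtain ⟨l, rfl⟩ := fsurj γ hγ
        have l1 : l ≠ k := fun h => g1 (by rw [h])
        have l2 : l ≠ ⟨k.val + 1, by omega⟩ := fun h => g2 (by rw [h])
        have hkk := f.strictMono hlt
        rcases lt_or_gt_of_ne l1 with h | h
        · have := f.strictMono h
          exact mul_pos_of_neg_of_neg (by linarith) (by linarith)
        · have h' : (⟨k.val + 1, by omega⟩ : Fin (m + 1)) < l := by
            rw [Fin.lt_def]
            rw [Fin.lt_def] at h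
            have : l.val ≠ k.val + 1 := fun h' => l2 (Fin.ext h')
            simp only
            omega
          have := f.strictMono h'
          exact mul_pos (by linarith) (by linarith)
      exact mul_pos (key γ hγ g1 g2) (key δ hδ d1 d2)
  have hsum := Finset.sum_le_sum (fun k (_ : k ∈ (univ : Finset (Fin (m + 1)))) => loc k)
  simp only [sum_add_distrib, ← mul_sum, sumf, sumf', sum_const, card_univ, Fintype.card_fin,
    smul_eq_mul] at hsum
  have total : ∑ i, deg C i = deg C O + ∑ i ∈ J, deg C i := by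
    rw [hJ, Finset.add_sum_erase _ _ (mem_univ O)]
  rw [total, ← sumJ]
  rw [hm] at sumFs
  omega

end abstractPart

section plane

/-- the Euclidean plane -/
abbrev Pl := EuclideanSpace ℝ (Fin 2)

/-- twice the signed area of a triangle -/
noncomputable def area (p q r : Pl) : ℝ :=
  (q 0 - p 0) * (r 1 - p 1) - (q 1 - p 1) * (r 0 - p 0)

theorem pl_ext {p q : Pl} (h0 : p 0 = q 0) (h1 : p 1 = q 1) : p = q := by
  ext i
  fin_cases i
  · exact h0
  · exact h1

theorem area_of_span {p q r : Pl} (h : r ∈ affineSpan ℝ ({p, q} : Set Pl)) :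
    area p q r = 0 := by
  rw [mem_affineSpan_pair_iff_exists_lineMap_eq] at h
  obtain ⟨t, rfl⟩ := h
  simp only [area, AffineMap.lineMap_apply, vsub_eq_sub, vadd_eq_add, PiLp.add_apply,
    PiLp.smul_apply, PiLp.sub_apply, smul_eq_mul]
  ring

theorem exists_of_area {p q r : Pl} (hpq : p ≠ q) (h : area p q r = 0) :
    ∃ t : ℝ, r = t • (q - p) +ᵥ p := by
  unfold area at h
  by_cases h0 : q 0 - p 0 = 0
  · have h1 : q 1 - p 1 ≠ 0 := by
      intro h1
      exact hpq (pl_ext (by linarith) (by linarith))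
    refine ⟨(r 1 - p 1) / (q 1 - p 1), ?_⟩
    apply pl_ext
    · simp only [vadd_eq_add, PiLp.add_apply, PiLp.smul_apply, PiLp.sub_apply,
        smul_eq_mul]
      rw [h0] at h ⊢
      have : r 0 - p 0 = 0 := by
        rcases mul_eq_zero.mp (show (q 1 - p 1) * (r 0 - p 0) = 0 by linarith) with h' | h'
        · exact absurd h' h1
        · exact h'
      linarith
    · simp only [vadd_eq_add, PiLp.add_apply, PiLp.smul_apply, PiLp.sub_apply,
        smul_eq_mul]
      field_simp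
      ring
  · refine ⟨(r 0 - p 0) / (q 0 - p 0), ?_⟩
    apply pl_ext
    · simp only [vadd_eq_add, PiLp.add_apply, PiLp.smul_apply, PiLp.sub_apply,
        smul_eq_mul]
      field_simp
      ring
    · simp only [vadd_eq_add, PiLp.add_apply, PiLp.smul_apply, PiLp.sub_apply,
        smul_eq_mul]
      have : (r 0 - p 0) / (q 0 - p 0) * (q 1 - p 1) = r 1 - p 1 := by
        rw [div_mul_eq_mul_div, div_eq_iff h0]; linarith
      linarith

theorem span_of_area {p q r : Pl} (hpq : p ≠ q) (h : area p q r = 0) :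
    r ∈ affineSpan ℝ ({p, q} : Set Pl) := by
  obtain ⟨t, ht⟩ := exists_of_area hpq h
  rw [mem_affineSpan_pair_iff_exists_lineMap_eq]
  exact ⟨t, by rw [ht, AffineMap.lineMap_apply, vsub_eq_sub]⟩

theorem collinear_of_area {p q : Pl} (hpq : p ≠ q) (A : Set Pl) (hp : p ∈ A)
    (h : ∀ r ∈ A, area p q r = 0) : Collinear ℝ A := by
  rw [collinear_iff_of_mem hp]
  exact ⟨q - p, fun r hr => exists_of_area hpq (h r hr)⟩

theorem area_of_collinear {A : Set Pl} (hA : Collinear ℝ A) {p q r : Pl} (hp : p ∈ A)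
    (hq : q ∈ A) (hr : r ∈ A) : area p q r = 0 := by
  rw [collinear_iff_of_mem hp] at hA
  obtain ⟨v, hv⟩ := hA
  obtain ⟨s, hs⟩ := hv q hq
  obtain ⟨t, ht⟩ := hv r hr
  rw [hs, ht]
  simp only [area, vadd_eq_add, PiLp.add_apply, PiLp.smul_apply, smul_eq_mul]
  ring

theorem mem_connecting {S T : Finset Pl} : T ∈ connectingLines S ↔ T ⊆ S ∧ 2 ≤ T.card ∧
    Collinear ℝ (T : Set Pl) ∧ ∀ r ∈ S, r ∈ affineSpan ℝ (T : Set Pl) → r ∈ T := by
  simp [connectingLines]

theorem connecting_eq {S T : Finset Pl} (hT : T ∈ connectingLines S) {p q : Pl} (hp : p ∈ T)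
    (hq : q ∈ T) (hpq : p ≠ q) : T = S.filter (fun r => area p q r = 0) := by
  rw [mem_connecting] at hT
  obtain ⟨h1, h2, h3, h4⟩ := hT
  ext r
  rw [mem_filter]
  constructor
  · intro hr
    exact ⟨h1 hr, area_of_collinear h3 (by exact_mod_cast hp) (by exact_mod_cast hq)
      (by exact_mod_cast hr)⟩
  · rintro ⟨hr, ha⟩
    refine h4 r hr ?_
    have hsub : affineSpan ℝ ({p, q} : Set Pl) ≤ affineSpan ℝ (T : Set Pl) := by
      apply affineSpan_mono
      intro x hx
      rcases hx with rfl | hx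
      · exact_mod_cast hp
      · rw [Set.mem_singleton_iff] at hx; rw [hx]; exact_mod_cast hq
    exact hsub (span_of_area hpq ha)

variable (S : Finset Pl)

/-- collinearity relation on the points of `S` -/
def Col (i j k : {p // p ∈ S}) : Prop := area i.1 j.1 k.1 = 0

theorem col_lin : Lin (Col S) := by
  constructor
  · intro i j k h; unfold Col area at *; linarith
  · intro i j k h; unfold Col area at *; linarith
  · intro i j; unfold Col area; ring
  · intro x w k l hxw h1 h2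
    have hne : x.1 ≠ w.1 := fun h => hxw (Subtype.ext h)
    unfold Col at *
    obtain ⟨s, hs⟩ := exists_of_area hne h1
    obtain ⟨t, ht⟩ := exists_of_area hne h2
    rw [hs, ht]
    simp only [area, vadd_eq_add, PiLp.add_apply, PiLp.smul_apply, smul_eq_mul, PiLp.sub_apply]
    ring

/-- the trace of an abstract line as a set of points of the plane -/
noncomputable def tr (T : Finset {p // p ∈ S}) : Finset Pl := T.map ⟨Subtype.val, Subtype.val_injective⟩

theorem tr_card (T : Finset {p // p ∈ S}) : (tr S T).card = T.card := by simp [tr]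

theorem mem_tr {T : Finset {p // p ∈ S}} {x : Pl} : x ∈ tr S T ↔ ∃ h : x ∈ S, (⟨x, h⟩ : {p // p ∈ S}) ∈ T := by
  simp only [tr, mem_map, Function.Embedding.coeFn_mk]
  constructor
  · rintro ⟨a, ha, rfl⟩; exact ⟨a.2, ha⟩
  · rintro ⟨h, hx⟩; exact ⟨_, hx, rfl⟩

theorem tr_connecting (i w : {p // p ∈ S}) (hiw : i ≠ w) :
    tr S (Ln (Col S) i w) ∈ connectingLines S := by
  have hne : i.1 ≠ w.1 := fun h => hiw (Subtype.ext h)
  have hm : ∀ x, x ∈ tr S (Ln (Col S) i w) ↔ x ∈ S ∧ area i.1 w.1 x = 0 := by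
    intro x
    rw [mem_tr]
    constructor
    · rintro ⟨h, hx⟩; rw [mem_Ln] at hx; exact ⟨h, hx⟩
    · rintro ⟨h, hx⟩; exact ⟨h, mem_Ln.mpr hx⟩
  have hi : i.1 ∈ tr S (Ln (Col S) i w) := (hm _).mpr ⟨i.2, by unfold area; ring⟩
  have hw : w.1 ∈ tr S (Ln (Col S) i w) := (hm _).mpr ⟨w.2, by unfold area; ring⟩
  rw [mem_connecting]
  refine ⟨fun x hx => ((hm x).mp hx).1, ?_, ?_, ?_⟩
  · have : 1 < (tr S (Ln (Col S) i w)).card := one_lt_card.mpr ⟨_, hi, _, hw, hne⟩
    omega
  · exact collinear_of_area hne _ (by exact_mod_cast hi) (fun r hr => ((hm r).mp (by exact_mod_cast hr)).2)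
  · intro r hr hr'
    have hsub : affineSpan ℝ ((tr S (Ln (Col S) i w) : Finset Pl) : Set Pl) ≤
        affineSpan ℝ ({i.1, w.1} : Set Pl) := by
      rw [affineSpan_le]
      intro x hx
      exact span_of_area hne ((hm x).mp (by exact_mod_cast hx)).2
    exact (hm r).mpr ⟨hr, area_of_span (hsub hr')⟩

theorem deg_le (i : {p // p ∈ S}) : deg (Col S) i ≤
    (((connectingLines S).filter (fun T => T.card ≠ 3)).filter (fun T => i.1 ∈ T)).card := by
  unfold deg bad
  refine Finset.card_le_card_of_injOn (tr S) ?_ ?_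
  · intro T hT
    simp only [coe_filter, mem_image, mem_erase, mem_univ, and_true, Set.mem_ofPred_eq] at hT
    obtain ⟨⟨w, hw, rfl⟩, h3⟩ := hT
    simp only [coe_filter, mem_filter, Set.mem_ofPred_eq]
    refine ⟨⟨tr_connecting S i w (Ne.symm hw), by rw [tr_card]; exact h3⟩, ?_⟩
    rw [mem_tr]
    exact ⟨i.2, (col_lin S).left_mem _ _⟩
  · intro T _ T' _ h
    exact Finset.map_injective _ h

theorem exists_chart (O : {p // p ∈ S})
    (h3 : ∀ T ∈ connectingLines S, O.1 ∈ T → T.card ≤ 3) :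
    ∃ u v : {p // p ∈ S} → ℝ, Chart (Col S) O u v := by
  -- a good slope
  obtain ⟨m, hm⟩ : ∃ m : ℝ, ∀ p : {p // p ∈ S}, p ≠ O →
      (p.1 1 - O.1 1) - m * (p.1 0 - O.1 0) ≠ 0 := by
    obtain ⟨m, hm⟩ := Infinite.exists_notMem_finset
      ((univ : Finset {p // p ∈ S}).image (fun p => (p.1 1 - O.1 1) / (p.1 0 - O.1 0)))
    refine ⟨m, fun p hp h => ?_⟩
    by_cases h0 : p.1 0 - O.1 0 = 0
    · rw [h0, mul_zero, sub_zero] at h
      exact hp (Subtype.ext (pl_ext (by linarith) (by linarith)))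
    · apply hm
      rw [mem_image]
      refine ⟨p, mem_univ p, ?_⟩
      rw [div_eq_iff h0]; linarith
  set X : {p // p ∈ S} → ℝ := fun p => p.1 0 - O.1 0 with hX
  set Y : {p // p ∈ S} → ℝ := fun p => (p.1 1 - O.1 1) - m * (p.1 0 - O.1 0) with hY
  have hY0 : ∀ p, p ≠ O → Y p ≠ 0 := hm
  have hD : ∀ i j k : {p // p ∈ S}, area i.1 j.1 k.1 =
      (X j - X i) * (Y k - Y i) - (Y j - Y i) * (X k - X i) := by
    intro i j k; simp only [hX, hY, area]; ring
  have hDO : ∀ i j : {p // p ∈ S}, area O.1 i.1 j.1 = X i * Y j - Y i * X j := by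
    intro i j; simp only [hX, hY, area]; ring
  have hO' : ∀ i j, i ≠ O → j ≠ O → (Col S O i j ↔ X i / Y i = X j / Y j) := by
    intro i j hi hj
    have h1 := hY0 i hi
    have h2 := hY0 j hj
    unfold Col
    rw [hDO, div_eq_div_iff h1 h2]
    constructor
    · intro h; linarith
    · intro h; linarith
  refine ⟨fun p => X p / Y p, fun p => 1 / Y p, ?_⟩
  constructor
  · exact col_lin S
  · intro a b c ha hb hc hab hca hne
    by_contra hcon
    push Not at hcon
    have h1 := (hO' a b ha hb).mpr hab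
    have h2 := (hO' a c ha hc).mpr hca.symm
    have h4 := h3 _ (tr_connecting S O a ha.symm)
      ((mem_tr S).mpr ⟨O.2, (col_lin S).left_mem _ _⟩)
    rw [tr_card] at h4
    have h5 : ({O, a, b, c} : Finset {p // p ∈ S}) ⊆ Ln (Col S) O a := by
      intro x hx
      simp only [mem_insert, mem_singleton] at hx
      rcases hx with rfl | rfl | rfl | rfl
      · exact (col_lin S).left_mem _ _
      · exact (col_lin S).right_mem _ _
      · exact mem_Ln.mpr h1
      · exact mem_Ln.mpr h2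
    have h6 := card_le_card h5
    rw [card_insert_of_notMem, card_insert_of_notMem, card_insert_of_notMem, card_singleton] at h6
    · omega
    · simp only [mem_singleton]; exact fun h => hcon.2 h.symm
    · simp only [mem_insert, mem_singleton, not_or]; exact ⟨hne, fun h => hcon.1 h.symm⟩
    · simp only [mem_insert, mem_singleton, not_or]; exact ⟨ha.symm, hb.symm, hc.symm⟩
  · intro i j k hi hj hk
    have h1 := hY0 i hi
    have h2 := hY0 j hj
    have h3 := hY0 k hk
    unfold Col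
    rw [hD]
    have key : (X j / Y j - X i / Y i) * (1 / Y k - 1 / Y i) -
        (1 / Y j - 1 / Y i) * (X k / Y k - X i / Y i) =
        -((X j - X i) * (Y k - Y i) - (Y j - Y i) * (X k - X i)) / (Y i * Y j * Y k) := by
      field_simp
      ring
    rw [key, div_eq_zero_iff, neg_eq_zero]
    constructor
    · intro h; exact Or.inl h
    · rintro (h | h)
      · exact h
      · exact absurd h (mul_ne_zero (mul_ne_zero h1 h2) h3)
  · exact hO'
  · intro i j hi hj hu hv
    have h1 := hY0 i hi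
    have h2 := hY0 j hj
    have e1 : Y i = Y j := by
      rw [div_eq_div_iff h1 h2] at hv; linarith
    have e2 : X i = X j := by
      rw [div_eq_div_iff h1 h2, e1] at hu
      exact mul_right_cancel₀ h2 hu
    simp only [hX] at e2
    simp only [hY] at e1
    have e3 : i.1 0 = j.1 0 := by linarith
    rw [e3] at e1
    exact Subtype.ext (pl_ext e3 (by linarith))

theorem sum_deg_ge (hS : ¬ Collinear ℝ (S : Set Pl)) :
    2 * (S.card / 2) ≤ ∑ p ∈ S,
      (((connectingLines S).filter (fun T => T.card ≠ 3)).filter (fun T => p ∈ T)).card := by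
  have hcard : Fintype.card {p // p ∈ S} = S.card := by simp
  have hle : ∑ i : {p // p ∈ S}, deg (Col S) i ≤ ∑ p ∈ S,
      (((connectingLines S).filter (fun T => T.card ≠ 3)).filter (fun T => p ∈ T)).card := by
    rw [← Finset.sum_coe_sort S (fun p =>
      (((connectingLines S).filter (fun T => T.card ≠ 3)).filter (fun T => p ∈ T)).card)]
    exact Finset.sum_le_sum (fun i _ => deg_le S i)
  rcases Nat.even_or_odd S.card with he | ho
  · have := (deg_even_case (col_lin S) (by rw [hcard]; exact he)).trans hle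
    rw [hcard] at this
    omega
  · by_cases hex : ∃ o ∈ S, ∀ T ∈ connectingLines S, o ∈ T → T.card ≤ 3
    · obtain ⟨o, ho', h3⟩ := hex
      obtain ⟨u, v, ch⟩ := exists_chart S ⟨o, ho'⟩ h3
      have := (odd_case ch (by rw [hcard]; exact ho) (by
        by_contra hcon
        push Not at hcon
        apply hS
        by_cases hex : ∃ q ∈ S, q ≠ o
        · obtain ⟨q, hq, hqo⟩ := hex
          refine collinear_of_area (Ne.symm hqo) _ (by exact_mod_cast ho') ?_
          intro r hr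
          have hr' : r ∈ S := by exact_mod_cast hr
          by_cases hro : r = o
          · rw [hro]; unfold area; ring
          · have hq' : (⟨q, hq⟩ : {p // p ∈ S}) ≠ ⟨o, ho'⟩ :=
              fun h => hqo (congrArg Subtype.val h)
            have hr'' : (⟨r, hr'⟩ : {p // p ∈ S}) ≠ ⟨o, ho'⟩ :=
              fun h => hro (congrArg Subtype.val h)
            exact (ch.hO ⟨q, hq⟩ ⟨r, hr'⟩ hq' hr'').mpr (hcon _ _ hq' hr'')
        · push Not at hex
          have : (S : Set Pl) ⊆ {o} := by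
            intro x hx
            exact hex x (by exact_mod_cast hx)
          exact (collinear_singleton ℝ o).subset this)).trans hle
      rw [hcard] at this
      rcases ho with ⟨b, hb⟩
      omega
    · push Not at hex
      have h1 : ∀ p ∈ S, 1 ≤
          (((connectingLines S).filter (fun T => T.card ≠ 3)).filter (fun T => p ∈ T)).card := by
        intro p hp
        obtain ⟨T, hT, hpT, hc⟩ := hex p hp
        rw [Nat.one_le_iff_ne_zero, ← Nat.pos_iff_ne_zero, card_pos]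
        exact ⟨T, by simp only [mem_filter]; exact ⟨⟨hT, by omega⟩, hpT⟩⟩
      have h2 := Finset.sum_le_sum h1
      simp only [sum_const, smul_eq_mul, mul_one] at h2
      omega

theorem double_count (A : Finset (Finset Pl)) (hA : ∀ T ∈ A, T ⊆ S) :
    ∑ p ∈ S, (A.filter (fun T => p ∈ T)).card = ∑ T ∈ A, T.card := by
  simp only [card_filter]
  rw [Finset.sum_comm]
  refine Finset.sum_congr rfl (fun T hT => ?_)
  have h6 : S.filter (fun p => p ∈ T) = T := by
    ext x
    simp only [mem_filter]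
    exact ⟨fun h => h.2, fun h => ⟨hA T hT h, h⟩⟩
  rw [← card_filter, h6]

theorem pairs_le : ∑ T ∈ connectingLines S, T.card.choose 2 ≤ S.card.choose 2 := by
  have h1 : ∀ T ∈ connectingLines S, (powersetCard 2 T).card = T.card.choose 2 := by
    intro T _; rw [card_powersetCard]
  rw [← Finset.sum_congr rfl h1, ← card_powersetCard, ← card_biUnion]
  · apply card_le_card
    intro P hP
    rw [mem_biUnion] at hP
    obtain ⟨T, hT, hP⟩ := hP
    rw [mem_powersetCard] at hP ⊢
    exact ⟨hP.1.trans (mem_connecting.mp hT).1, hP.2⟩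
  · intro T hT T' hT' hne
    rw [Function.onFun, Finset.disjoint_left]
    intro P hP hP'
    rw [mem_powersetCard] at hP hP'
    obtain ⟨p, q, hpq, rfl⟩ := card_eq_two.mp hP.2
    apply hne
    rw [connecting_eq (by exact_mod_cast hT) (hP.1 (by simp)) (hP.1 (by simp)) hpq,
      connecting_eq (by exact_mod_cast hT') (hP'.1 (by simp)) (hP'.1 (by simp)) hpq]

theorem ordinary_eq : {T : Finset Pl | T ⊆ S ∧ T.card = 2 ∧
      ∀ r ∈ S, r ∈ affineSpan ℝ (T : Set Pl) → r ∈ T}.ncard =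
    ((connectingLines S).filter (fun T => T.card = 2)).card := by
  rw [← Set.ncard_coe_finset]
  congr 1
  ext T
  simp only [Set.mem_ofPred_eq, coe_filter, mem_connecting]
  constructor
  · rintro ⟨h1, h2, h3⟩
    refine ⟨⟨h1, by omega, ?_, h3⟩, h2⟩
    obtain ⟨p, q, _, rfl⟩ := card_eq_two.mp h2
    rw [coe_pair]
    exact collinear_pair ℝ p q
  · rintro ⟨⟨h1, _, _, h3⟩, h2⟩
    exact ⟨h1, h2, h3⟩

theorem choose_ge (k : ℕ) (hk : 4 ≤ k) : k + 6 ≤ 2 * k.choose 2 := by
  induction k, hk using Nat.le_induction with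
  | base => decide
  | succ k hk ih =>
    rw [show (k + 1).choose 2 = k + k.choose 2 by
      rw [Nat.choose_succ_succ' k 1, Nat.choose_one_right]]
    omega

/-- Main theorem. -/
theorem main (S : Finset (EuclideanSpace ℝ (Fin 2)))
    (hS : ¬ Collinear ℝ (S : Set (EuclideanSpace ℝ (Fin 2)))) :
    (2 * (S.card / 2) ≤
      2 * {T : Finset (EuclideanSpace ℝ (Fin 2)) | T ⊆ S ∧ T.card = 2 ∧
            ∀ r ∈ S, r ∈ affineSpan ℝ (T : Set (EuclideanSpace ℝ (Fin 2))) → r ∈ T}.ncard +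
        ∑ T ∈ (connectingLines S).filter (fun T => 4 ≤ T.card), T.card) ∧
    ((∀ T ⊆ S, T.card = 4 → ¬ Collinear ℝ (T : Set (EuclideanSpace ℝ (Fin 2)))) →
      S.card / 2 ≤ {T : Finset (EuclideanSpace ℝ (Fin 2)) | T ⊆ S ∧ T.card = 2 ∧
            ∀ r ∈ S, r ∈ affineSpan ℝ (T : Set (EuclideanSpace ℝ (Fin 2))) → r ∈ T}.ncard) ∧
    (3 * ((connectingLines S).filter (fun T => 3 ≤ T.card)).card + S.card / 2 ≤
      S.card.choose 2) := by
  have hA : 2 * (S.card / 2) ≤ ∑ T ∈ (connectingLines S).filter (fun T => T.card ≠ 3), T.card := by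
    have h1 := sum_deg_ge S hS
    rw [double_count S _ (fun T hT => (mem_connecting.mp (mem_filter.mp hT).1).1)] at h1
    exact h1
  set t2 := ((connectingLines S).filter (fun T => T.card = 2)).card with ht2
  set R := (connectingLines S).filter (fun T => 4 ≤ T.card) with hR
  have hsplit : ∑ T ∈ (connectingLines S).filter (fun T => T.card ≠ 3), T.card =
      2 * t2 + ∑ T ∈ R, T.card := by
    have h1 : (connectingLines S).filter (fun T => T.card ≠ 3) =
        (connectingLines S).filter (fun T => T.card = 2) ∪ R := by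
      ext T
      simp only [hR, mem_union, mem_filter, mem_connecting]
      constructor
      · rintro ⟨h, h'⟩
        rcases Nat.lt_or_ge T.card 4 with h4 | h4
        · exact Or.inl ⟨h, by omega⟩
        · exact Or.inr ⟨h, h4⟩
      · rintro (⟨h, h'⟩ | ⟨h, h'⟩)
        · exact ⟨h, by omega⟩
        · exact ⟨h, by omega⟩
    have h2 : Disjoint ((connectingLines S).filter (fun T => T.card = 2)) R := by
      rw [Finset.disjoint_left]
      intro T h h'
      simp only [hR, mem_filter] at h h'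
      omega
    rw [h1, sum_union h2, ht2, mul_comm, ← smul_eq_mul, ← sum_const]
    congr 1
    exact Finset.sum_congr rfl (fun T hT => (mem_filter.mp hT).2)
  rw [hsplit] at hA
  have hord := ordinary_eq S
  refine ⟨?_, ?_, ?_⟩
  · rw [hord]; exact hA
  · intro h4
    have hR0 : R = ∅ := by
      rw [Finset.eq_empty_iff_forall_notMem]
      intro T hT
      rw [hR, mem_filter, mem_connecting] at hT
      obtain ⟨T', hT', hc⟩ := exists_subset_card_eq hT.2
      exact h4 T' (hT'.trans hT.1.1) hc (hT.1.2.2.1.subset (by exact_mod_cast hT'))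
    rw [hR0, sum_empty] at hA
    rw [hord]
    omega
  · have hp := pairs_le S
    have h1 : ∑ T ∈ connectingLines S, 2 * T.card.choose 2 ≥
        ∑ T ∈ connectingLines S, ((if 3 ≤ T.card then 6 else 0) + (if T.card = 2 then 2 else 0)
          + (if 4 ≤ T.card then T.card else 0)) := by
      refine Finset.sum_le_sum (fun T hT => ?_)
      have h2 := (mem_connecting.mp hT).2.1
      rcases Nat.lt_or_ge T.card 4 with h4 | h4
      · rcases (by omega : T.card = 2 ∨ T.card = 3) with h | h <;> rw [h] <;> decide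
      · have := choose_ge T.card h4
        rw [if_pos (by omega), if_neg (by omega), if_pos h4]
        omega
    rw [sum_add_distrib, sum_add_distrib, ← sum_filter, ← sum_filter, ← sum_filter, sum_const,
      sum_const, ← mul_sum, smul_eq_mul, smul_eq_mul, ← hR, ← ht2] at h1
    omega

end plane

end Pool.Agent.Dirac80
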