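import Mathlib
import Pool.Agent.Dirac80.Defs
import Pool.Agent.Dirac80.Parity

/-!
# Lines with an even number of points: the local inequality

Let `O` be a point of a finite planar set, sent to infinity.  If `{a, a'}` and `{b, b'}` are
pairs of consecutive points on two (cyclically) adjacent vertical lines, the total number of
lines through `a, a', b, b'` (not through `O`) with an even number of points, counted at each of
the four points, is at least four (`adj`).  Summing over the adjacent pairs of vertical lines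
gives `odd_case`.
-/

set_option autoImplicit false
set_option linter.unusedSectionVars false
open Finset Classical

namespace Pool.Agent.Dirac80b

open Pool.Agent.Dirac80 (Lin Ln mem_Ln icp icp_zero icp_lt icp_b)

variable {ι : Type*} [Fintype ι]

/-- the number of lines through `x` and a point of `U` which have an even number of points -/
noncomputable def ebad (C : ι → ι → ι → Prop) (x : ι) (U : Finset ι) : ℕ :=
  ((U.image (Ln C x)).filter (fun T => Even T.card)).card

/-- in a set closed under lines through `x`, the number of points and the number of even lines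
through `x` have the same parity -/
theorem ebad_parity {C : ι → ι → ι → Prop} (h : Lin C) (x : ι) (U : Finset ι) (hx : x ∉ U)
    (hU : ∀ w ∈ U, ∀ k, k ≠ x → C x w k → k ∈ U) : Even (U.card + ebad C x U) := by
  have h1 := Finset.card_eq_sum_card_image (Ln C x) U
  have h2 : ∀ T ∈ U.image (Ln C x), (U.filter (fun w => Ln C x w = T)).card = T.card - 1 := by
    intro T hT
    rw [mem_image] at hT
    obtain ⟨w0, hw0, rfl⟩ := hT
    have hne : x ≠ w0 := fun h' => hx (h' ▸ hw0)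
    have h4 : U.filter (fun w => Ln C x w = Ln C x w0) = (Ln C x w0).erase x := by
      ext w
      rw [mem_filter, mem_erase]
      constructor
      · rintro ⟨hw, he⟩
        refine ⟨fun h' => hx (h' ▸ hw), ?_⟩
        rw [← he]; exact h.right_mem x w
      · rintro ⟨hwx, hw⟩
        rw [mem_Ln] at hw
        exact ⟨hU w0 hw0 w hwx hw, h.Ln_eq hne (Ne.symm hwx) hw⟩
    rw [h4, card_erase_of_mem (h.left_mem x w0)]
  have h3 : U.card + ebad C x U =
      ∑ T ∈ U.image (Ln C x), (T.card - 1 + if Even T.card then 1 else 0) := by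
    rw [h1, Finset.sum_congr rfl h2, ebad, card_filter, ← sum_add_distrib]
  rw [h3]
  refine Finset.even_sum _ (fun T hT => ?_)
  have hpos : 0 < T.card := by
    rw [mem_image] at hT
    obtain ⟨w0, _, rfl⟩ := hT
    exact card_pos.mpr ⟨x, h.left_mem x w0⟩
  rcases Nat.even_or_odd T.card with he | ho
  · rw [if_pos he]
    obtain ⟨a, ha⟩ := he
    exact ⟨a, by omega⟩
  · rw [if_neg (Nat.not_even_iff_odd.mpr ho)]
    obtain ⟨a, ha⟩ := ho
    exact ⟨a, by omega⟩

theorem ebad_mono {C : ι → ι → ι → Prop} (x : ι) {U V : Finset ι} (h : U ⊆ V) :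
    ebad C x U ≤ ebad C x V :=
  card_le_card (filter_subset_filter _ (image_subset_image h))

/-- the parity lemma for one half strip -/
theorem half_strip {C : ι → ι → ι → Prop} (h : Lin C)
    (x y z : ι) (X Y Z c : Finset ι) (hx : x ∉ X) (hy : y ∉ Y) (hz : z ∉ Z)
    (hX : ∀ w ∈ X, ∀ k, k ≠ x → C x w k → k ∈ X)
    (hY : ∀ w ∈ Y, ∀ k, k ≠ y → C y w k → k ∈ Y)
    (hZ : ∀ w ∈ Z, ∀ k, k ≠ z → C z w k → k ∈ Z)
    (hpar : ∀ k, Even ((if k ∈ X then 1 else 0) + (if k ∈ Y then 1 else 0)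
      + (if k ∈ Z then 1 else 0) + (if k ∈ c then 1 else 0) : ℕ)) :
    1 ≤ ebad C x X + ebad C y Y + ebad C z Z + (if Even c.card then 1 else 0) := by
  by_contra hcon
  have e1 : ebad C x X = 0 := by omega
  have e2 : ebad C y Y = 0 := by omega
  have e3 : ebad C z Z = 0 := by omega
  have h1 := ebad_parity h x X hx hX
  have h2 := ebad_parity h y Y hy hY
  have h3 := ebad_parity h z Z hz hZ
  rw [e1, add_zero] at h1
  rw [e2, add_zero] at h2
  rw [e3, add_zero] at h3
  have h4 : Even (X.card + Y.card + Z.card + c.card) := by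
    have h5 : X.card + Y.card + Z.card + c.card = ∑ k : ι, ((if k ∈ X then 1 else 0)
        + (if k ∈ Y then 1 else 0) + (if k ∈ Z then 1 else 0) + (if k ∈ c then 1 else 0)) := by
      simp only [sum_add_distrib, sum_boole, filter_mem_eq_inter, univ_inter, Nat.cast_id]
    rw [h5]
    exact Finset.even_sum _ (fun k _ => hpar k)
  have h6 : Even c.card := by
    obtain ⟨a, ha⟩ := h1
    obtain ⟨b, hb⟩ := h2
    obtain ⟨d, hd⟩ := h3
    obtain ⟨f, hf⟩ := h4
    exact ⟨f - a - b - d, by omega⟩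
  rw [if_pos h6] at hcon
  omega

theorem deg_lower {C : ι → ι → ι → Prop} (h : Lin C) (x b : ι) (V : Finset ι) (hbV : b ∈ V)
    (hxV : x ∉ V)
    (U1 U2 U3 : Finset ι) (h1V : U1 ⊆ V) (h2V : U2 ⊆ V) (h3V : U3 ⊆ V)
    (h1b : b ∉ U1) (h2b : b ∉ U2) (h3b : b ∉ U3)
    (h1 : ∀ w ∈ U1, ∀ k, k ≠ x → C x w k → k ∈ U1)
    (h2 : ∀ w ∈ U2, ∀ k, k ≠ x → C x w k → k ∈ U2)
    (h3 : ∀ w ∈ U3, ∀ k, k ≠ x → C x w k → k ∈ U3)
    (h12 : ∀ w ∈ U1, w ∉ U2) (h13 : ∀ w ∈ U1, w ∉ U3) (h23 : ∀ w ∈ U2, w ∉ U3) :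
    ebad C x U1 + ebad C x U2 + ebad C x U3 + (if Even (Ln C x b).card then 1 else 0) ≤
      ebad C x V := by
  set F : Finset ι → Finset (Finset ι) := fun A => (A.image (Ln C x)).filter (fun T => Even T.card)
    with hF
  have hdis : ∀ A B : Finset ι, A ⊆ V → B ⊆ V → (∀ w ∈ A, ∀ k, k ≠ x → C x w k → k ∈ A) →
      (∀ w ∈ A, w ∉ B) → Disjoint (F A) (F B) := by
    intro A B hA hB hcl hAB
    rw [Finset.disjoint_left]
    intro T hTA hTB
    simp only [hF, mem_filter, mem_image] at hTA hTB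
    obtain ⟨⟨w, hw, rfl⟩, _⟩ := hTA
    obtain ⟨⟨k, hk, hk'⟩, _⟩ := hTB
    have hkx : k ≠ x := fun h' => hxV (h' ▸ hB hk)
    have hkm : k ∈ Ln C x w := by rw [← hk']; exact h.right_mem x k
    rw [mem_Ln] at hkm
    exact hAB k (hcl w hw k hkx hkm) hk
  have hsub : ∀ A : Finset ι, A ⊆ V → F A ⊆ F V := fun A hA =>
    filter_subset_filter _ (image_subset_image hA)
  have hbs : ({b} : Finset ι) ⊆ V := by simpa using hbV
  have hb : F {b} = if Even (Ln C x b).card then {Ln C x b} else ∅ := by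
    simp only [hF, image_singleton, filter_singleton]
  have hbc : (F {b}).card = if Even (Ln C x b).card then 1 else 0 := by
    rw [hb]; split_ifs <;> simp
  have d1 := hdis U1 U2 h1V h2V h1 h12
  have d2 := hdis U1 U3 h1V h3V h1 h13
  have d3 := hdis U2 U3 h2V h3V h2 h23
  have d4 := hdis U1 {b} h1V hbs h1 (fun w hw h' => h1b (by rw [mem_singleton] at h'; exact h' ▸ hw))
  have d5 := hdis U2 {b} h2V hbs h2 (fun w hw h' => h2b (by rw [mem_singleton] at h'; exact h' ▸ hw))
  have d6 := hdis U3 {b} h3V hbs h3 (fun w hw h' => h3b (by rw [mem_singleton] at h'; exact h' ▸ hw))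
  have key : (((F U1 ∪ F U2) ∪ F U3) ∪ F {b}).card ≤ (F V).card := by
    apply card_le_card
    exact union_subset (union_subset (union_subset (hsub U1 h1V) (hsub U2 h2V)) (hsub U3 h3V))
      (hsub {b} hbs)
  rw [card_union_of_disjoint, card_union_of_disjoint, card_union_of_disjoint d1, hbc] at key
  · exact key
  · exact Finset.disjoint_union_left.mpr ⟨d2, d3⟩
  · exact Finset.disjoint_union_left.mpr ⟨Finset.disjoint_union_left.mpr ⟨d4, d5⟩, d6⟩



section charts

/-- a chart in which the point `O` is the vertical point at infinity -/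
structure Chart (C : ι → ι → ι → Prop) (O : ι) (u v : ι → ℝ) : Prop where
  lin : Lin C
  hC : ∀ i j k, i ≠ O → j ≠ O → k ≠ O →
    (C i j k ↔ (u j - u i) * (v k - v i) - (v j - v i) * (u k - u i) = 0)
  hO : ∀ i j, i ≠ O → j ≠ O → (C O i j ↔ u i = u j)
  inj : ∀ i j, i ≠ O → j ≠ O → u i = u j → v i = v j → i = j

/-- the points off the line through `O` and `x` -/
noncomputable def off (O : ι) (u : ι → ℝ) (x : ι) : Finset ι :=
  univ.filter (fun k => k ≠ O ∧ u k ≠ u x)

/-- the points `k` for which the height at abscissa `β` of the line through `x` and `k`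
satisfies `P` -/
noncomputable def reg (O : ι) (u v : ι → ℝ) (x : ι) (β : ℝ) (P : ℝ → Prop) : Finset ι :=
  univ.filter (fun k => k ≠ O ∧ u k ≠ u x ∧ P (icp β (u x) (v x) (u k) (v k)))

theorem mem_reg {O : ι} {u v : ι → ℝ} {x : ι} {β : ℝ} {P : ℝ → Prop} {k : ι} :
    k ∈ reg O u v x β P ↔ k ≠ O ∧ u k ≠ u x ∧ P (icp β (u x) (v x) (u k) (v k)) := by
  simp [reg]

theorem mem_off {O : ι} {u : ι → ℝ} {x : ι} {k : ι} :
    k ∈ off O u x ↔ k ≠ O ∧ u k ≠ u x := by
  simp [off]

theorem reg_sub {O : ι} {u v : ι → ℝ} {x : ι} {β : ℝ} {P : ℝ → Prop} :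
    reg O u v x β P ⊆ off O u x := by
  intro k hk
  rw [mem_reg] at hk
  exact mem_off.mpr ⟨hk.1, hk.2.1⟩

theorem Chart.ne_O {C : ι → ι → ι → Prop} {O : ι} {u v : ι → ℝ} (ch : Chart C O u v)
    {x w k : ι} (hx : x ≠ O) (hw : w ≠ O) (h : u w ≠ u x) (hc : C x w k) : k ≠ O := by
  rintro rfl
  exact h (((ch.hO x w hx hw).mp (ch.lin.hs' _ _ _ (ch.lin.hs _ _ _ hc))).symm)

theorem Chart.ne_col {C : ι → ι → ι → Prop} {O : ι} {u v : ι → ℝ} (ch : Chart C O u v)
    {x w k : ι} (hx : x ≠ O) (hw : w ≠ O) (hk : k ≠ O) (h : u w ≠ u x) (hkx : k ≠ x)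
    (hc : C x w k) : u k ≠ u x := by
  intro h'
  rw [ch.hC x w k hx hw hk, h', sub_self, mul_zero, sub_zero] at hc
  rcases mul_eq_zero.mp hc with h1 | h1
  · exact h (by linarith)
  · exact hkx (ch.inj k x hk hx h' (by linarith))

theorem Chart.closed {C : ι → ι → ι → Prop} {O : ι} {u v : ι → ℝ} (ch : Chart C O u v)
    {x : ι} (hx : x ≠ O) (β : ℝ) (P : ℝ → Prop) :
    ∀ w ∈ reg O u v x β P, ∀ k, k ≠ x → C x w k → k ∈ reg O u v x β P := by
  intro w hw k hkx hc
  rw [mem_reg] at hw ⊢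
  have kO := ch.ne_O hx hw.1 hw.2.1 hc
  have ku := ch.ne_col hx hw.1 kO hw.2.1 hkx hc
  refine ⟨kO, ku, ?_⟩
  have hcol := (ch.hC x w k hx hw.1 kO).mp hc
  rw [← icp_b hw.2.1 ku hcol]
  exact hw.2.2

/-- four propositions, an even number of which hold -/
def Ev4 (p q r s : Prop) : Prop :=
  Even ((if p then 1 else 0) + (if q then 1 else 0) + (if r then 1 else 0)
    + (if s then 1 else 0) : ℕ)

theorem Ev4.mem {X Y Z c : Finset ι} {k : ι} {p q r s : Prop} (h1 : k ∈ X ↔ p) (h2 : k ∈ Y ↔ q)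
    (h3 : k ∈ Z ↔ r) (h4 : k ∈ c ↔ s) (h : Ev4 p q r s) :
    Even ((if k ∈ X then 1 else 0) + (if k ∈ Y then 1 else 0)
      + (if k ∈ Z then 1 else 0) + (if k ∈ c then 1 else 0) : ℕ) := by
  unfold Ev4 at h
  by_cases hp : p <;> by_cases hq : q <;> by_cases hr : r <;> by_cases hs : s <;>
    simp_all

theorem par1 {s1 s2 p : ℝ} (h : s1 < s2) : Ev4 (s1 < p) (s2 < p) (s1 < p ∧ p < s2) (p = s2) := by
  unfold Ev4
  rcases lt_trichotomy p s2 with h1 | h1 | h1
  · rcases lt_or_ge s1 p with h2 | h2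
    · simp [h1, h2, h1.ne, not_lt.mpr h1.le]
    · simp [not_lt.mpr h2, h1.ne, not_lt.mpr h1.le]
  · subst h1; simp [h]
  · have h2 : s1 < p := by linarith
    simp [h1, h2, h1.ne', not_lt.mpr h1.le]

theorem par3 {p q s : ℝ} (h : p < q) : Ev4 (s < q) (s < p) (p < s ∧ s < q) (p = s) := by
  unfold Ev4
  rcases lt_trichotomy p s with h1 | h1 | h1
  · rcases lt_or_ge s q with h2 | h2
    · simp [h1, h2, h1.ne, not_lt.mpr h1.le]
    · simp [not_lt.mpr h2, h1.ne, not_lt.mpr h1.le]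
  · subst h1; simp [h]
  · have h2 : s < q := by linarith
    simp [h1, h2, h1.ne', not_lt.mpr h1.le]

theorem par2 {p q s : ℝ} (h : p < q) : Ev4 (p < s) (q < s) (p < s ∧ s < q) (q = s) := by
  unfold Ev4
  rcases lt_trichotomy q s with h1 | h1 | h1
  · have h2 : p < s := by linarith
    simp [h1, h2, h1.ne, not_lt.mpr h1.le]
  · subst h1; simp [h]
  · rcases lt_or_ge p s with h2 | h2
    · simp [h1, h2, h1.ne', not_lt.mpr h1.le]
    · simp [not_lt.mpr h2, h1.ne', not_lt.mpr h1.le]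

theorem par4 {s1 s2 q : ℝ} (h : s1 < s2) : Ev4 (q < s2) (q < s1) (s1 < q ∧ q < s2) (q = s1) := by
  unfold Ev4
  rcases lt_trichotomy q s1 with h1 | h1 | h1
  · have h2 : q < s2 := by linarith
    simp [h1, h2, h1.ne, not_lt.mpr h1.le]
  · subst h1; simp [h]
  · rcases lt_or_ge q s2 with h2 | h2
    · simp [h1, h2, h1.ne', not_lt.mpr h1.le]
    · simp [not_lt.mpr h2, h1.ne', not_lt.mpr h1.le]

theorem par_eq {p : Prop} : Ev4 p p False False := by
  unfold Ev4; by_cases h : p <;> simp [h]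

theorem par_no : Ev4 False False False False := by
  unfold Ev4; simp

/-- membership is decided pointwise: sign relation between the two kinds of heights -/
theorem icp_rel {α β s t x y : ℝ} (ha : x ≠ α) (hb : x ≠ β) :
    (x - β) * (icp α β t x y - s) = (x - α) * (t - icp β α s x y) := by
  have h1 : x - β ≠ 0 := sub_ne_zero.mpr hb
  have h2 : x - α ≠ 0 := sub_ne_zero.mpr ha
  unfold icp
  field_simp
  ring

theorem icp_self {α β t y : ℝ} (h : α ≠ β) : icp α β t α y = y := by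
  have h1 : α - β ≠ 0 := sub_ne_zero.mpr h
  unfold icp
  field_simp
  ring

/-- the local inequality for two adjacent columns, oriented version -/
theorem adj_or {C : ι → ι → ι → Prop} {O : ι} {u v : ι → ℝ} (ch : Chart C O u v)
    {a1 a2 b1 b2 : ι} (ha1 : a1 ≠ O) (ha2 : a2 ≠ O) (hb1 : b1 ≠ O) (hb2 : b2 ≠ O)
    (ua : u a1 = u a2) (ub : u b1 = u b2) (uab : u a1 ≠ u b1)
    (hva : v a1 < v a2)
    (hA : ∀ k, k ≠ O → u k = u a1 → ¬ (v a1 < v k ∧ v k < v a2))
    (hB : ∀ k, k ≠ O → u k = u b1 →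
      ¬ ((v b2 - v b1) * (v b1 - v k) < 0 ∧ 0 < (v b2 - v b1) * (v b2 - v k)))
    (hη : v b2 - v b1 ≠ 0)
    (hvb : ∀ w, w ≠ O → u w ≠ u a1 → u w ≠ u b1 →
      0 < (v b2 - v b1) * ((u w - u a1) * (u w - u b1))) :
    4 ≤ ebad C a1 (off O u a1) + ebad C a2 (off O u a2) + ebad C b1 (off O u b1)
      + ebad C b2 (off O u b2) := by
  obtain ⟨η, hηd⟩ : ∃ η, η = v b2 - v b1 := ⟨_, rfl⟩
  rw [← hηd] at hη hvb hB
  have h12 : η * (v b2 - v b1) = η ^ 2 := by rw [← hηd]; ring
  have hη2 : 0 < η ^ 2 := by positivity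
  -- the set of points in neither column
  obtain ⟨W, hW⟩ : ∃ W : Finset ι, W = univ.filter (fun w => w ≠ O ∧ u w ≠ u a1 ∧ u w ≠ u b1) :=
    ⟨_, rfl⟩
  have mW : ∀ w, w ∈ W ↔ (w ≠ O ∧ u w ≠ u a1 ∧ u w ≠ u b1) := by intro w; simp [hW]
  -- the two sign systems agree on `W`
  have key : ∀ w ∈ W, ∀ s t : ℝ, ∃ c > 0,
      icp (u a1) (u b1) t (u w) (v w) - s = c * (η * (t - icp (u b1) (u a1) s (u w) (v w))) := by
    intro w hw s t
    rw [mW] at hw
    have h0 := hvb w hw.1 hw.2.1 hw.2.2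
    have hb0 : u w - u b1 ≠ 0 := sub_ne_zero.mpr hw.2.2
    have hrel := icp_rel (s := s) (t := t) (y := v w) hw.2.1 hw.2.2
    refine ⟨(η * ((u w - u a1) * (u w - u b1))) / (η ^ 2 * (u w - u b1) ^ 2), ?_, ?_⟩
    · exact div_pos h0 (by positivity)
    · have h3 : icp (u a1) (u b1) t (u w) (v w) - s =
          (u w - u a1) * (t - icp (u b1) (u a1) s (u w) (v w)) / (u w - u b1) := by
        rw [eq_div_iff hb0]; linarith
      rw [h3]
      field_simp
  -- regions
  set A1 := reg O u v a1 (u b1) with hA1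
  set A2 := reg O u v a2 (u b1) with hA2
  set B1 := reg O u v b1 (u a1) with hB1
  set B2 := reg O u v b2 (u a1) with hB2
  have mA1 : ∀ (P : ℝ → Prop) k, k ∈ A1 P ↔ k ≠ O ∧ u k ≠ u a1 ∧
      P (icp (u b1) (u a1) (v a1) (u k) (v k)) := by
    intro P k; rw [hA1, mem_reg]
  have mA2 : ∀ (P : ℝ → Prop) k, k ∈ A2 P ↔ k ≠ O ∧ u k ≠ u a1 ∧
      P (icp (u b1) (u a1) (v a2) (u k) (v k)) := by
    intro P k; rw [hA2, mem_reg, ← ua]
  have mB1 : ∀ (P : ℝ → Prop) k, k ∈ B1 P ↔ k ≠ O ∧ u k ≠ u b1 ∧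
      P (icp (u a1) (u b1) (v b1) (u k) (v k)) := by
    intro P k; rw [hB1, mem_reg]
  have mB2 : ∀ (P : ℝ → Prop) k, k ∈ B2 P ↔ k ≠ O ∧ u k ≠ u b1 ∧
      P (icp (u a1) (u b1) (v b2) (u k) (v k)) := by
    intro P k; rw [hB2, mem_reg, ← ub]
  -- the pointwise evaluation of the three kinds of points
  have colA : ∀ k, k ≠ O → u k = u a1 → ∀ t, icp (u a1) (u b1) t (u k) (v k) = v k := by
    intro k _ hk t; rw [hk]; exact icp_self uab
  have colB : ∀ k, k ≠ O → u k = u b1 → ∀ t, icp (u b1) (u a1) t (u k) (v k) = v k := by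
    intro k _ hk t; rw [hk]; exact icp_self uab.symm
  -- the four half strips
  set c := W.filter (fun k => icp (u a1) (u b1) (v b1) (u k) (v k) = v a2) with hc
  set c' := W.filter (fun k => icp (u a1) (u b1) (v b2) (u k) (v k) = v a1) with hc'
  have m_c : ∀ k, k ∈ c ↔ (k ≠ O ∧ u k ≠ u a1 ∧ u k ≠ u b1) ∧
      icp (u a1) (u b1) (v b1) (u k) (v k) = v a2 := by
    intro k; rw [hc, mem_filter, mW]
  have m_c' : ∀ k, k ∈ c' ↔ (k ≠ O ∧ u k ≠ u a1 ∧ u k ≠ u b1) ∧
      icp (u a1) (u b1) (v b2) (u k) (v k) = v a1 := by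
    intro k; rw [hc', mem_filter, mW]
  have nin : ∀ (x : ι) (β : ℝ) (P : ℝ → Prop), x ∉ reg O u v x β P := by
    intro x β P h; rw [mem_reg] at h; exact h.2.1 rfl
  -- signs on `W`
  have sg : ∀ w, w ≠ O → u w ≠ u a1 → u w ≠ u b1 → ∀ s t : ℝ,
      (0 < η * (t - icp (u b1) (u a1) s (u w) (v w)) ↔ s < icp (u a1) (u b1) t (u w) (v w)) ∧
      (η * (t - icp (u b1) (u a1) s (u w) (v w)) < 0 ↔ icp (u a1) (u b1) t (u w) (v w) < s) := by
    intro w h0 h1 h2 s t
    obtain ⟨c, hc, he⟩ := key w ((mW w).mpr ⟨h0, h1, h2⟩) s t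
    constructor
    · constructor
      · intro h; have := mul_pos hc h; linarith
      · intro h; exact (pos_iff_pos_of_mul_pos (by rw [← he]; linarith)).mp hc
    · constructor
      · intro h; have := mul_neg_of_pos_of_neg hc h; linarith
      · intro h
        by_contra hcon
        have := mul_nonneg hc.le (not_lt.mp hcon)
        linarith
  have pq : ∀ w, w ≠ O → u w ≠ u a1 → u w ≠ u b1 →
      icp (u a1) (u b1) (v b1) (u w) (v w) < icp (u a1) (u b1) (v b2) (u w) (v w) := by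
    intro w h0 h1 h2
    exact icp_lt (by rw [← hηd]; exact hvb w h0 h1 h2)
  -- a case distinction
  have cases : ∀ k, k = O ∨ (k ≠ O ∧ u k = u a1) ∨ (k ≠ O ∧ u k = u b1) ∨
      (k ≠ O ∧ u k ≠ u a1 ∧ u k ≠ u b1) := by
    intro k
    by_cases h0 : k = O
    · exact Or.inl h0
    by_cases h1 : u k = u a1
    · exact Or.inr (Or.inl ⟨h0, h1⟩)
    by_cases h2 : u k = u b1
    · exact Or.inr (Or.inr (Or.inl ⟨h0, h2⟩))
    · exact Or.inr (Or.inr (Or.inr ⟨h0, h1, h2⟩))
  -- HS1
  have H1 := half_strip ch.lin a1 a2 b1 (A1 (fun τ => 0 < η * (v b1 - τ)))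
    (A2 (fun τ => 0 < η * (v b1 - τ))) (B1 (fun σ => v a1 < σ ∧ σ < v a2)) c
    (nin _ _ _) (nin _ _ _) (nin _ _ _) (ch.closed ha1 _ _) (ch.closed ha2 _ _)
    (ch.closed hb1 _ _) (by
      intro k
      rcases cases k with h0 | ⟨h0, h1⟩ | ⟨h0, h2⟩ | ⟨h0, h1, h2⟩
      · exact Ev4.mem (by rw [mA1]; simp [h0]) (by rw [mA2]; simp [h0]) (by rw [mB1]; simp [h0])
          (by rw [m_c]; simp [h0]) par_no
      · refine Ev4.mem (by rw [mA1]; simp [h1]) (by rw [mA2]; simp [h1])
          (?_ : _ ↔ False) (by rw [m_c]; simp [h1]) par_no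
        rw [mB1, colA k h0 h1]
        simp only [iff_false, not_and]
        intro _ _ h3; exact fun h4 => hA k h0 h1 ⟨h3, h4⟩
      · exact Ev4.mem (p := 0 < η * (v b1 - v k)) (q := 0 < η * (v b1 - v k))
          (by rw [mA1, colB k h0 h2]; simp [h0, h2, uab.symm])
          (by rw [mA2, colB k h0 h2]; simp [h0, h2, uab.symm])
          (by rw [mB1]; simp [h2]) (by rw [m_c]; simp [h2]) par_eq
      · exact Ev4.mem (by rw [mA1, (sg k h0 h1 h2 _ _).1]; simp [h0, h1])
          (by rw [mA2, (sg k h0 h1 h2 _ _).1]; simp [h0, h1])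
          (by rw [mB1]; simp [h0, h2]) (by rw [m_c]; simp [h0, h1, h2]) (par1 (p := icp (u a1) (u b1) (v b1) (u k) (v k)) hva))
  -- HS3
  have H3 := half_strip ch.lin b2 b1 a2 (B2 (fun σ => v a2 < σ)) (B1 (fun σ => v a2 < σ))
    (A2 (fun τ => η * (v b1 - τ) < 0 ∧ 0 < η * (v b2 - τ))) c
    (nin _ _ _) (nin _ _ _) (nin _ _ _) (ch.closed hb2 _ _) (ch.closed hb1 _ _)
    (ch.closed ha2 _ _) (by
      intro k
      rcases cases k with h0 | ⟨h0, h1⟩ | ⟨h0, h2⟩ | ⟨h0, h1, h2⟩
      · exact Ev4.mem (by rw [mB2]; simp [h0]) (by rw [mB1]; simp [h0]) (by rw [mA2]; simp [h0])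
          (by rw [m_c]; simp [h0]) par_no
      · exact Ev4.mem (p := v a2 < v k) (q := v a2 < v k)
          (by rw [mB2, colA k h0 h1]; simp [h0, h1, uab])
          (by rw [mB1, colA k h0 h1]; simp [h0, h1, uab])
          (by rw [mA2]; simp [h1]) (by rw [m_c]; simp [h1]) par_eq
      · refine Ev4.mem (by rw [mB2]; simp [h2]) (by rw [mB1]; simp [h2])
          (?_ : _ ↔ False) (by rw [m_c]; simp [h2]) par_no
        rw [mA2, colB k h0 h2]
        simp only [iff_false, not_and]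
        intro _ _ h3; exact fun h4 => hB k h0 h2 ⟨h3, h4⟩
      · exact Ev4.mem (by rw [mB2]; simp [h0, h2]) (by rw [mB1]; simp [h0, h2])
          (by rw [mA2, (sg k h0 h1 h2 _ _).1, (sg k h0 h1 h2 _ _).2]; simp [h0, h1])
          (by rw [m_c]; simp [h0, h1, h2]) (par3 (s := v a2) (pq k h0 h1 h2)))
  -- HS2
  have H2 := half_strip ch.lin b1 b2 a1 (B1 (fun σ => σ < v a1)) (B2 (fun σ => σ < v a1))
    (A1 (fun τ => η * (v b1 - τ) < 0 ∧ 0 < η * (v b2 - τ))) c'
    (nin _ _ _) (nin _ _ _) (nin _ _ _) (ch.closed hb1 _ _) (ch.closed hb2 _ _)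
    (ch.closed ha1 _ _) (by
      intro k
      rcases cases k with h0 | ⟨h0, h1⟩ | ⟨h0, h2⟩ | ⟨h0, h1, h2⟩
      · exact Ev4.mem (by rw [mB1]; simp [h0]) (by rw [mB2]; simp [h0]) (by rw [mA1]; simp [h0])
          (by rw [m_c']; simp [h0]) par_no
      · exact Ev4.mem (p := v k < v a1) (q := v k < v a1)
          (by rw [mB1, colA k h0 h1]; simp [h0, h1, uab])
          (by rw [mB2, colA k h0 h1]; simp [h0, h1, uab])
          (by rw [mA1]; simp [h1]) (by rw [m_c']; simp [h1]) par_eq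
      · refine Ev4.mem (by rw [mB1]; simp [h2]) (by rw [mB2]; simp [h2])
          (?_ : _ ↔ False) (by rw [m_c']; simp [h2]) par_no
        rw [mA1, colB k h0 h2]
        simp only [iff_false, not_and]
        intro _ _ h3; exact fun h4 => hB k h0 h2 ⟨h3, h4⟩
      · exact Ev4.mem (by rw [mB1]; simp [h0, h2]) (by rw [mB2]; simp [h0, h2])
          (by rw [mA1, (sg k h0 h1 h2 _ _).1, (sg k h0 h1 h2 _ _).2]; simp [h0, h1])
          (by rw [m_c']; simp [h0, h1, h2]) (par2 (s := v a1) (pq k h0 h1 h2)))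
  -- HS4
  have H4 := half_strip ch.lin a2 a1 b2 (A2 (fun τ => η * (v b2 - τ) < 0))
    (A1 (fun τ => η * (v b2 - τ) < 0)) (B2 (fun σ => v a1 < σ ∧ σ < v a2)) c'
    (nin _ _ _) (nin _ _ _) (nin _ _ _) (ch.closed ha2 _ _) (ch.closed ha1 _ _)
    (ch.closed hb2 _ _) (by
      intro k
      rcases cases k with h0 | ⟨h0, h1⟩ | ⟨h0, h2⟩ | ⟨h0, h1, h2⟩
      · exact Ev4.mem (by rw [mA2]; simp [h0]) (by rw [mA1]; simp [h0]) (by rw [mB2]; simp [h0])
          (by rw [m_c']; simp [h0]) par_no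
      · refine Ev4.mem (by rw [mA2]; simp [h1]) (by rw [mA1]; simp [h1])
          (?_ : _ ↔ False) (by rw [m_c']; simp [h1]) par_no
        rw [mB2, colA k h0 h1]
        simp only [iff_false, not_and]
        intro _ _ h3; exact fun h4 => hA k h0 h1 ⟨h3, h4⟩
      · exact Ev4.mem (p := η * (v b2 - v k) < 0) (q := η * (v b2 - v k) < 0)
          (by rw [mA2, colB k h0 h2]; simp [h0, h2, uab.symm])
          (by rw [mA1, colB k h0 h2]; simp [h0, h2, uab.symm])
          (by rw [mB2]; simp [h2]) (by rw [m_c']; simp [h2]) par_eq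
      · exact Ev4.mem (by rw [mA2, (sg k h0 h1 h2 _ _).2]; simp [h0, h1])
          (by rw [mA1, (sg k h0 h1 h2 _ _).2]; simp [h0, h1])
          (by rw [mB2]; simp [h0, h2]) (by rw [m_c']; simp [h0, h1, h2]) (par4 (q := icp (u a1) (u b1) (v b2) (u k) (v k)) hva))
  have n12 : a1 ≠ b2 := fun h => uab (by rw [h, ub])
  have n21 : a2 ≠ b1 := fun h => uab (by rw [ua, h])
  have ici : ∀ (x y : ι), u x ≠ u y → icp (u x) (u y) (v y) (u x) (v x) = v x := by
    intro x y h; exact icp_self h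
  -- degree bounds
  have D1 := deg_lower ch.lin a1 b2 (off O u a1) (mem_off.mpr ⟨hb2, by rw [← ub]; exact uab.symm⟩)
    (by rw [mem_off]; exact fun h => h.2 rfl)
    (A1 (fun τ => 0 < η * (v b1 - τ))) (A1 (fun τ => η * (v b1 - τ) < 0 ∧ 0 < η * (v b2 - τ)))
    (A1 (fun τ => η * (v b2 - τ) < 0)) reg_sub reg_sub reg_sub
    (by rw [mA1, colB b2 hb2 ub.symm]; rintro ⟨_, _, h⟩; nlinarith)
    (by rw [mA1, colB b2 hb2 ub.symm]; rintro ⟨_, _, _, h⟩; nlinarith)
    (by rw [mA1, colB b2 hb2 ub.symm]; rintro ⟨_, _, h⟩; nlinarith)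
    (ch.closed ha1 _ _) (ch.closed ha1 _ _) (ch.closed ha1 _ _)
    (by intro w h h'; rw [mA1] at h h'; linarith [h.2.2, h'.2.2.1])
    (by intro w h h'; rw [mA1] at h h'; nlinarith [h.2.2, h'.2.2])
    (by intro w h h'; rw [mA1] at h h'; linarith [h.2.2.2, h'.2.2])
  have D2 := deg_lower ch.lin a2 b1 (off O u a2) (mem_off.mpr ⟨hb1, by rw [← ua]; exact uab.symm⟩)
    (by rw [mem_off]; exact fun h => h.2 rfl)
    (A2 (fun τ => 0 < η * (v b1 - τ))) (A2 (fun τ => η * (v b1 - τ) < 0 ∧ 0 < η * (v b2 - τ)))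
    (A2 (fun τ => η * (v b2 - τ) < 0)) reg_sub reg_sub reg_sub
    (by rw [mA2, colB b1 hb1 rfl]; rintro ⟨_, _, h⟩; nlinarith)
    (by rw [mA2, colB b1 hb1 rfl]; rintro ⟨_, _, h, _⟩; nlinarith)
    (by rw [mA2, colB b1 hb1 rfl]; rintro ⟨_, _, h⟩; nlinarith)
    (ch.closed ha2 _ _) (ch.closed ha2 _ _) (ch.closed ha2 _ _)
    (by intro w h h'; rw [mA2] at h h'; linarith [h.2.2, h'.2.2.1])
    (by intro w h h'; rw [mA2] at h h'; nlinarith [h.2.2, h'.2.2])
    (by intro w h h'; rw [mA2] at h h'; linarith [h.2.2.2, h'.2.2])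
  have D3 := deg_lower ch.lin b1 a2 (off O u b1) (mem_off.mpr ⟨ha2, by rw [← ua]; exact uab⟩)
    (by rw [mem_off]; exact fun h => h.2 rfl)
    (B1 (fun σ => v a2 < σ)) (B1 (fun σ => v a1 < σ ∧ σ < v a2))
    (B1 (fun σ => σ < v a1)) reg_sub reg_sub reg_sub
    (by rw [mB1, colA a2 ha2 ua.symm]; rintro ⟨_, _, h⟩; linarith)
    (by rw [mB1, colA a2 ha2 ua.symm]; rintro ⟨_, _, _, h⟩; linarith)
    (by rw [mB1, colA a2 ha2 ua.symm]; rintro ⟨_, _, h⟩; linarith)
    (ch.closed hb1 _ _) (ch.closed hb1 _ _) (ch.closed hb1 _ _)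
    (by intro w h h'; rw [mB1] at h h'; linarith [h.2.2, h'.2.2.2])
    (by intro w h h'; rw [mB1] at h h'; linarith [h.2.2, h'.2.2])
    (by intro w h h'; rw [mB1] at h h'; linarith [h.2.2.1, h'.2.2])
  have D4 := deg_lower ch.lin b2 a1 (off O u b2) (mem_off.mpr ⟨ha1, by rw [← ub]; exact uab⟩)
    (by rw [mem_off]; exact fun h => h.2 rfl)
    (B2 (fun σ => v a2 < σ)) (B2 (fun σ => v a1 < σ ∧ σ < v a2))
    (B2 (fun σ => σ < v a1)) reg_sub reg_sub reg_sub
    (by rw [mB2, colA a1 ha1 rfl]; rintro ⟨_, _, h⟩; linarith)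
    (by rw [mB2, colA a1 ha1 rfl]; rintro ⟨_, _, h, _⟩; linarith)
    (by rw [mB2, colA a1 ha1 rfl]; rintro ⟨_, _, h⟩; linarith)
    (ch.closed hb2 _ _) (ch.closed hb2 _ _) (ch.closed hb2 _ _)
    (by intro w h h'; rw [mB2] at h h'; linarith [h.2.2, h'.2.2.2])
    (by intro w h h'; rw [mB2] at h h'; linarith [h.2.2, h'.2.2])
    (by intro w h h'; rw [mB2] at h h'; linarith [h.2.2.1, h'.2.2])
  -- the two special lines
  have card21 : (Ln C a2 b1).card = c.card + 2 := by
    have : Ln C a2 b1 = insert a2 (insert b1 c) := by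
      ext k
      rw [mem_insert, mem_insert, m_c]
      by_cases k1 : k = a2
      · simp only [k1, true_or, iff_true]; exact ch.lin.left_mem _ _
      by_cases k2 : k = b1
      · simp only [k2, true_or, or_true, iff_true]; exact ch.lin.right_mem _ _
      simp only [k1, k2, false_or]
      rw [mem_Ln]
      constructor
      · intro h
        have kO := ch.ne_O ha2 hb1 (by rw [← ua]; exact uab.symm) h
        have ku := ch.ne_col ha2 hb1 kO (by rw [← ua]; exact uab.symm) k1 h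
        have ku2 := ch.ne_col hb1 ha2 kO (by rw [← ua]; exact uab) k2 (ch.lin.hs' _ _ _ h)
        rw [← ua] at ku
        refine ⟨⟨kO, ku, ku2⟩, ?_⟩
        have h2 := (ch.hC a2 b1 k ha2 hb1 kO).mp h
        rw [← ua] at h2
        have := (icp_zero (s := v a2) ku2).mpr h2
        linarith
      · rintro ⟨⟨kO, ku, ku2⟩, h⟩
        have h2 := (icp_zero (α := u a1) (β := u b1) (s := v a2) (t := v b1) (y := v k) ku2).mp
          (by linarith)
        rw [ch.hC a2 b1 k ha2 hb1 kO, ← ua]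
        exact h2
    rw [this, card_insert_of_notMem, card_insert_of_notMem]
    · rw [m_c]; exact fun h => h.1.2.2 rfl
    · rw [mem_insert, m_c, not_or]; exact ⟨n21, fun h => h.1.2.1 ua.symm⟩
  have card12 : (Ln C a1 b2).card = c'.card + 2 := by
    have : Ln C a1 b2 = insert a1 (insert b2 c') := by
      ext k
      rw [mem_insert, mem_insert, m_c']
      by_cases k1 : k = a1
      · simp only [k1, true_or, iff_true]; exact ch.lin.left_mem _ _
      by_cases k2 : k = b2
      · simp only [k2, true_or, or_true, iff_true]; exact ch.lin.right_mem _ _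
      simp only [k1, k2, false_or]
      rw [mem_Ln]
      constructor
      · intro h
        have kO := ch.ne_O ha1 hb2 (by rw [← ub]; exact uab.symm) h
        have ku := ch.ne_col ha1 hb2 kO (by rw [← ub]; exact uab.symm) k1 h
        have ku2 := ch.ne_col hb2 ha1 kO (by rw [← ub]; exact uab) k2 (ch.lin.hs' _ _ _ h)
        rw [← ub] at ku2
        refine ⟨⟨kO, ku, ku2⟩, ?_⟩
        have h2 := (ch.hC a1 b2 k ha1 hb2 kO).mp h
        rw [← ub] at h2
        have := (icp_zero (s := v a1) ku2).mpr h2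
        linarith
      · rintro ⟨⟨kO, ku, ku2⟩, h⟩
        have h2 := (icp_zero (α := u a1) (β := u b1) (s := v a1) (t := v b2) (y := v k) ku2).mp
          (by linarith)
        rw [ch.hC a1 b2 k ha1 hb2 kO, ← ub]
        exact h2
    rw [this, card_insert_of_notMem, card_insert_of_notMem]
    · rw [m_c']; exact fun h => h.1.2.2 ub.symm
    · rw [mem_insert, m_c', not_or]; exact ⟨n12, fun h => h.1.2.1 rfl⟩
  rw [ch.lin.Ln_symm b1 a2] at D3
  rw [ch.lin.Ln_symm b2 a1] at D4
  rw [card21] at D2 D3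
  rw [card12] at D1 D4
  have e1 : Even (c.card + 2) ↔ Even c.card := by
    rw [Nat.even_add]; simp
  have e2 : Even (c'.card + 2) ↔ Even c'.card := by
    rw [Nat.even_add]; simp
  simp only [e1] at D2 D3
  simp only [e2] at D1 D4
  omega

/-- the local inequality for two adjacent columns -/
theorem adj {C : ι → ι → ι → Prop} {O : ι} {u v : ι → ℝ} (ch : Chart C O u v)
    {a1 a2 b1 b2 : ι} (ha1 : a1 ≠ O) (ha2 : a2 ≠ O) (hb1 : b1 ≠ O) (hb2 : b2 ≠ O)
    (ha : a1 ≠ a2) (hb : b1 ≠ b2) (ua : u a1 = u a2) (ub : u b1 = u b2) (uab : u a1 ≠ u b1)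
    (hA : ∀ k, k ≠ O → u k = u a1 → k ≠ a1 → k ≠ a2 → 0 < (v k - v a1) * (v k - v a2))
    (hB : ∀ k, k ≠ O → u k = u b1 → k ≠ b1 → k ≠ b2 → 0 < (v k - v b1) * (v k - v b2))
    (hsep : ∀ w k, w ≠ O → k ≠ O → u w ≠ u a1 → u w ≠ u b1 → u k ≠ u a1 → u k ≠ u b1 →
      0 < ((u w - u a1) * (u w - u b1)) * ((u k - u a1) * (u k - u b1))) :
    4 ≤ ebad C a1 (off O u a1) + ebad C a2 (off O u a2) + ebad C b1 (off O u b1)
      + ebad C b2 (off O u b2) := by
  have key : ∀ a1 a2 b1 b2 : ι, a1 ≠ O → a2 ≠ O → b1 ≠ O → b2 ≠ O → b1 ≠ b2 →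
      u a1 = u a2 → u b1 = u b2 → u a1 ≠ u b1 → v a1 < v a2 →
      (∀ k, k ≠ O → u k = u a1 → k ≠ a1 → k ≠ a2 → 0 < (v k - v a1) * (v k - v a2)) →
      (∀ k, k ≠ O → u k = u b1 → k ≠ b1 → k ≠ b2 → 0 < (v k - v b1) * (v k - v b2)) →
      (∀ w k, w ≠ O → k ≠ O → u w ≠ u a1 → u w ≠ u b1 → u k ≠ u a1 → u k ≠ u b1 →
      0 < ((u w - u a1) * (u w - u b1)) * ((u k - u a1) * (u k - u b1))) →
      4 ≤ ebad C a1 (off O u a1) + ebad C a2 (off O u a2) + ebad C b1 (off O u b1)
      + ebad C b2 (off O u b2) := by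
    intro a1 a2 b1 b2 ha1 ha2 hb1 hb2 hb ua ub uab hva hA hB hsep
    have hvne : v b2 - v b1 ≠ 0 := fun h => hb (ch.inj b1 b2 hb1 hb2 ub (by linarith))
    have hA' : ∀ k, k ≠ O → u k = u a1 → ¬ (v a1 < v k ∧ v k < v a2) := by
      rintro k h0 h1 ⟨h2, h3⟩
      have := hA k h0 h1 (fun h => by rw [h] at h2; exact lt_irrefl _ h2)
        (fun h => by rw [h] at h3; exact lt_irrefl _ h3)
      nlinarith
    have hB' : ∀ b1 b2 : ι, (∀ k, k ≠ O → u k = u b1 → k ≠ b1 → k ≠ b2 →
        0 < (v k - v b1) * (v k - v b2)) → ∀ k, k ≠ O → u k = u b1 →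
        ¬ ((v b2 - v b1) * (v b1 - v k) < 0 ∧ 0 < (v b2 - v b1) * (v b2 - v k)) := by
      rintro b1 b2 hB k h0 h1 ⟨h2, h3⟩
      have := hB k h0 h1 (fun h => by rw [h, sub_self, mul_zero] at h2; exact lt_irrefl _ h2)
        (fun h => by rw [h, sub_self, mul_zero] at h3; exact lt_irrefl _ h3)
      have h4 : 0 < ((v b2 - v b1) * (v k - v b1)) * ((v b2 - v b1) * (v b2 - v k)) :=
        mul_pos (by linarith) h3
      have h5 : 0 ≤ (v b2 - v b1) ^ 2 * ((v k - v b1) * (v k - v b2)) :=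
        mul_nonneg (sq_nonneg _) this.le
      nlinarith
    by_cases hw : ∃ w, w ≠ O ∧ u w ≠ u a1 ∧ u w ≠ u b1
    · obtain ⟨w0, h0, h1, h2⟩ := hw
      have hne : (v b2 - v b1) * ((u w0 - u a1) * (u w0 - u b1)) ≠ 0 :=
        mul_ne_zero hvne (mul_ne_zero (sub_ne_zero.mpr h1) (sub_ne_zero.mpr h2))
      rcases lt_or_gt_of_ne hne with hneg | hpos
      · have := adj_or ch ha1 ha2 hb2 hb1 ua ub.symm (by rw [← ub]; exact uab) hva hA'
          (hB' b2 b1 (by
            intro k h0 h1 h2 h3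
            rw [mul_comm]
            exact hB k h0 (by rw [h1, ub]) h3 h2))
          (fun h => hvne (by linarith))
          (by
            intro w g0 g1 g2
            rw [← ub] at g2 ⊢
            have h3 := hsep w0 w h0 g0 h1 h2 g1 g2
            have h4 : 0 < (v b1 - v b2) * ((u w0 - u a1) * (u w0 - u b1)) := by linarith
            have h5 : 0 < ((v b1 - v b2) * ((u w - u a1) * (u w - u b1))) *
              ((u w0 - u a1) * (u w0 - u b1)) ^ 2 := by
              have := mul_pos h4 h3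
              nlinarith [this]
            exact (pos_iff_pos_of_mul_pos h5).mpr (by positivity))
        omega
      · refine adj_or ch ha1 ha2 hb1 hb2 ua ub uab hva hA' (hB' b1 b2 hB) hvne ?_
        intro w g0 g1 g2
        have h3 := hsep w0 w h0 g0 h1 h2 g1 g2
        have h5 : 0 < ((v b2 - v b1) * ((u w - u a1) * (u w - u b1))) *
          ((u w0 - u a1) * (u w0 - u b1)) ^ 2 := by
          have := mul_pos hpos h3
          nlinarith [this]
        exact (pos_iff_pos_of_mul_pos h5).mpr (by positivity)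
    · refine adj_or ch ha1 ha2 hb1 hb2 ua ub uab hva hA' (hB' b1 b2 hB) hvne ?_
      intro w g0 g1 g2
      exact absurd ⟨w, g0, g1, g2⟩ hw
  rcases lt_trichotomy (v a1) (v a2) with h | h | h
  · exact key a1 a2 b1 b2 ha1 ha2 hb1 hb2 hb ua ub uab h hA hB hsep
  · exact absurd (ch.inj a1 a2 ha1 ha2 ua h) ha
  · have := key a2 a1 b1 b2 ha2 ha1 hb1 hb2 hb ua.symm ub (by rw [← ua]; exact uab) h
      (by
        intro k h0 h1 h2 h3
        rw [mul_comm]
        exact hA k h0 (by rw [h1, ua]) h3 h2) hB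
      (by rw [← ua]; exact hsep)
    omega

/-- two elements with the smallest values -/
theorem exists_pair (F : Finset ι) (v : ι → ℝ) (hv : ∀ i ∈ F, ∀ j ∈ F, v i = v j → i = j)
    (h : 2 ≤ F.card) : ∃ a1 ∈ F, ∃ a2 ∈ F, a1 ≠ a2 ∧
      ∀ k ∈ F, k ≠ a1 → k ≠ a2 → 0 < (v k - v a1) * (v k - v a2) := by
  obtain ⟨a1, h1, m1⟩ := exists_min_image F v (card_pos.mp (by omega))
  obtain ⟨a2, h2, m2⟩ := exists_min_image (F.erase a1) v
    (card_pos.mp (by rw [card_erase_of_mem h1]; omega))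
  rw [mem_erase] at h2
  refine ⟨a1, h1, a2, h2.2, h2.1.symm, fun k hk k1 k2 => ?_⟩
  have e1 := m1 k hk
  have e2 := m2 k (mem_erase.mpr ⟨k1, hk⟩)
  have n1 : v a1 ≠ v k := fun h => k1 (hv _ hk _ h1 h.symm)
  have n2 : v a2 ≠ v k := fun h => k2 (hv _ hk _ h2.2 h.symm)
  exact mul_pos (sub_pos.mpr (lt_of_le_of_ne e1 n1)) (sub_pos.mpr (lt_of_le_of_ne e2 n2))

/-- the points of the column at abscissa `c` -/
noncomputable def colm (O : ι) (u : ι → ℝ) (c : ℝ) : Finset ι :=
  (univ.erase O).filter (fun i => u i = c)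

theorem mem_colm {O : ι} {u : ι → ℝ} {c : ℝ} {i : ι} : i ∈ colm O u c ↔ i ≠ O ∧ u i = c := by
  simp [colm]

theorem card_off {O : ι} {u : ι → ℝ} (x : ι) :
    (off O u x).card + (colm O u (u x)).card + 1 = Fintype.card ι := by
  have h1 : (univ.erase O).filter (fun i => ¬ u i = u x) = off O u x := by
    ext i; simp [off]
  have h2 := card_filter_add_card_filter_not (s := (univ : Finset ι).erase O)
    (fun i => u i = u x)
  rw [h1, card_erase_of_mem (mem_univ O), card_univ] at h2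
  have h3 : 0 < Fintype.card ι := Fintype.card_pos_iff.mpr ⟨x⟩
  have h4 : (colm O u (u x)).card = ((univ.erase O).filter (fun i => u i = u x)).card := rfl
  omega

theorem Chart.closed_off {C : ι → ι → ι → Prop} {O : ι} {u v : ι → ℝ} (ch : Chart C O u v)
    {x : ι} (hx : x ≠ O) :
    ∀ w ∈ off O u x, ∀ k, k ≠ x → C x w k → k ∈ off O u x := by
  intro w hw k hkx hc
  rw [mem_off] at hw ⊢
  have kO := ch.ne_O hx hw.1 hw.2 hc
  exact ⟨kO, ch.ne_col hx hw.1 kO hw.2 hkx hc⟩

theorem Chart.par {C : ι → ι → ι → Prop} {O : ι} {u v : ι → ℝ} (ch : Chart C O u v)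
    {x : ι} (hx : x ≠ O) :
    Even (ebad C x (off O u x) + (colm O u (u x)).card + 1 + Fintype.card ι) := by
  have h1 := ebad_parity ch.lin x (off O u x) (by rw [mem_off]; exact fun h => h.2 rfl)
    (ch.closed_off hx)
  have h2 := card_off (O := O) (u := u) x
  obtain ⟨a, ha⟩ := h1
  exact ⟨ebad C x (off O u x) + (colm O u (u x)).card + 1 + (off O u x).card - a, by omega⟩

theorem odd_case {C : ι → ι → ι → Prop} {O : ι} {u v : ι → ℝ} (ch : Chart C O u v)
    (hn : Odd (Fintype.card ι)) (hcol : ∃ i j, i ≠ O ∧ j ≠ O ∧ u i ≠ u j) :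
    Fintype.card ι - 1 ≤ ∑ i ∈ univ.erase O, ebad C i (off O u i)
      + ∑ c ∈ (univ.erase O).image u, ((if (colm O u c).card = 1 then 2 else 0)
        + (if Even (colm O u c).card then (colm O u c).card - 2 else 0)) := by
  set J : Finset ι := univ.erase O with hJ
  set U : Finset ℝ := J.image u with hU
  have memJ : ∀ i, i ∈ J ↔ i ≠ O := by intro i; simp [hJ]
  set E : ℝ → ℕ := fun c => ∑ i ∈ colm O u c, ebad C i (off O u i) with hE
  set L : ℝ → ℕ := fun c => (if (colm O u c).card = 1 then 2 else 0)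
        + (if Even (colm O u c).card then (colm O u c).card - 2 else 0) with hL
  have Fpos : ∀ c ∈ U, 1 ≤ (colm O u c).card := by
    intro c hc
    rw [hU, mem_image] at hc
    obtain ⟨i, hi, hic⟩ := hc
    rw [Nat.one_le_iff_ne_zero, ← Nat.pos_iff_ne_zero, card_pos]
    exact ⟨i, mem_colm.mpr ⟨(memJ i).mp hi, hic⟩⟩
  -- sums over columns
  have sumJ : ∑ c ∈ U, E c = ∑ i ∈ J, ebad C i (off O u i) := by
    simp only [hE, colm, ← hJ]
    exact Finset.sum_fiberwise_of_maps_to (fun i hi => mem_image_of_mem u hi) _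
  have cardJ : ∑ c ∈ U, (colm O u c).card = J.card := by
    rw [Finset.card_eq_sum_card_fiberwise (f := u) (t := U)
      (fun i hi => by exact_mod_cast mem_image_of_mem u hi)]
    rfl
  have cardJ' : J.card = Fintype.card ι - 1 := by
    rw [hJ, card_erase_of_mem (mem_univ O), card_univ]
  -- the representatives
  have hR : ∀ c, ∃ R : ℕ, c ∈ U → (R + (colm O u c).card ≤ E c + L c + 2 ∧
      (R = 4 ∨ ∃ a1 ∈ colm O u c, ∃ a2 ∈ colm O u c, a1 ≠ a2 ∧
        (∀ k ∈ colm O u c, k ≠ a1 → k ≠ a2 → 0 < (v k - v a1) * (v k - v a2)) ∧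
        R = ebad C a1 (off O u a1) + ebad C a2 (off O u a2))) := by
    intro c
    by_cases hc : c ∈ U
    swap
    · exact ⟨0, fun h => absurd h hc⟩
    have h1 := Fpos c hc
    have odd1 : Odd (colm O u c).card → ∀ i ∈ colm O u c, 1 ≤ ebad C i (off O u i) := by
      intro ho i hi
      rw [mem_colm] at hi
      have h2 := ch.par hi.1
      rw [hi.2] at h2
      by_contra hcon
      have h3 : ebad C i (off O u i) = 0 := by omega
      rw [h3] at h2
      obtain ⟨a, ha⟩ := h2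
      obtain ⟨b, hb⟩ := hn
      obtain ⟨d, hd⟩ := ho
      omega
    by_cases hc1 : (colm O u c).card = 1
    · refine ⟨4, fun _ => ⟨?_, Or.inl rfl⟩⟩
      obtain ⟨i, hi⟩ := card_eq_one.mp hc1
      have h2 := odd1 (by rw [hc1]; exact odd_one) i (by rw [hi]; exact mem_singleton_self i)
      have h3 : E c = ebad C i (off O u i) := by simp only [hE, hi, sum_singleton]
      have h4 : L c = 2 := by simp only [hL, hc1]; decide
      rw [h3, h4, hc1]; omega
    · obtain ⟨a1, m1, a2, m2, hne, hadj⟩ := exists_pair (colm O u c) v (by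
        intro i hi j hj h
        rw [mem_colm] at hi hj
        exact ch.inj i j hi.1 hj.1 (by rw [hi.2, hj.2]) h) (by omega)
      refine ⟨ebad C a1 (off O u a1) + ebad C a2 (off O u a2), fun _ =>
        ⟨?_, Or.inr ⟨a1, m1, a2, m2, hne, hadj, rfl⟩⟩⟩
      have hsplit : E c = ebad C a1 (off O u a1) + ebad C a2 (off O u a2) +
          ∑ i ∈ ((colm O u c).erase a1).erase a2, ebad C i (off O u i) := by
        simp only [hE]
        rw [← Finset.add_sum_erase _ _ m1, ← Finset.add_sum_erase ((colm O u c).erase a1) _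
          (mem_erase.mpr ⟨hne.symm, m2⟩), add_assoc]
      have hcard : (((colm O u c).erase a1).erase a2).card = (colm O u c).card - 2 := by
        rw [card_erase_of_mem (mem_erase.mpr ⟨hne.symm, m2⟩), card_erase_of_mem m1]; omega
      rcases Nat.even_or_odd (colm O u c).card with he | ho
      · have h4 : L c = (colm O u c).card - 2 := by simp only [hL, if_neg hc1, if_pos he, zero_add]
        rw [hsplit, h4]
        omega
      · have h5 : (colm O u c).card - 2 ≤
            ∑ i ∈ ((colm O u c).erase a1).erase a2, ebad C i (off O u i) := by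
          rw [← hcard]
          have := Finset.card_nsmul_le_sum (((colm O u c).erase a1).erase a2)
            (fun i => ebad C i (off O u i)) 1 (by
              intro i hi
              exact odd1 ho i (mem_of_mem_erase (mem_of_mem_erase hi)))
          simpa using this
        rw [hsplit]
        omega
  choose R hR using hR
  -- two adjacent columns
  have adj' : ∀ c ∈ U, ∀ d ∈ U, c ≠ d →
      (∀ γ ∈ U, ∀ δ ∈ U, γ ≠ c → γ ≠ d → δ ≠ c → δ ≠ d →
        0 < ((γ - c) * (γ - d)) * ((δ - c) * (δ - d))) →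
      4 ≤ R c + R d := by
    intro c hc d hd hcd hsep
    rcases (hR c hc).2 with h | ⟨a1, A1, a2, A2, ha, haa, hRc⟩
    · omega
    rcases (hR d hd).2 with h | ⟨b1, B1, b2, B2, hb, hbb, hRd⟩
    · omega
    rw [mem_colm] at A1 A2 B1 B2
    have hg := adj ch A1.1 A2.1 B1.1 B2.1 ha hb (by rw [A1.2, A2.2]) (by rw [B1.2, B2.2])
      (by rw [A1.2, B1.2]; exact hcd)
      (by intro k k0 k1; exact haa k (mem_colm.mpr ⟨k0, by rw [k1, A1.2]⟩))
      (by intro k k0 k1; exact hbb k (mem_colm.mpr ⟨k0, by rw [k1, B1.2]⟩)) (by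
        intro x k x0 k0 x1 x2 k1 k2
        rw [A1.2] at x1 k1 ⊢
        rw [B1.2] at x2 k2 ⊢
        exact hsep (u x) (mem_image_of_mem u ((memJ x).mpr x0)) (u k)
          (mem_image_of_mem u ((memJ k).mpr k0)) x1 x2 k1 k2)
    omega
  -- at least two columns
  have hM : 2 ≤ U.card := by
    obtain ⟨i, j, hi, hj, hij⟩ := hcol
    have : 1 < U.card := one_lt_card.mpr ⟨u i, mem_image_of_mem u ((memJ i).mpr hi), u j,
      mem_image_of_mem u ((memJ j).mpr hj), hij⟩
    omega
  -- cyclic summation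
  obtain ⟨m, hm⟩ : ∃ m, U.card = m + 1 := ⟨U.card - 1, by omega⟩
  set f : Fin (m + 1) ↪o ℝ := U.orderEmbOfFin hm with hf
  have fmem : ∀ k, f k ∈ U := fun k => orderEmbOfFin_mem U hm k
  have fsurj : ∀ c ∈ U, ∃ k, f k = c := by
    intro c hc
    have : c ∈ Set.range f := by rw [hf, range_orderEmbOfFin]; exact_mod_cast hc
    exact this
  have sumf : ∀ g : ℝ → ℕ, ∑ k, g (f k) = ∑ c ∈ U, g c := by
    intro g
    have : U = (univ : Finset (Fin (m + 1))).map f.toEmbedding := by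
      ext c
      simp only [mem_map, mem_univ, true_and]
      constructor
      · intro hc; obtain ⟨k, hk⟩ := fsurj c hc; exact ⟨k, hk⟩
      · rintro ⟨k, hk⟩; rw [← hk]; exact fmem k
    rw [this, sum_map]
    rfl
  have sumf' : ∀ g : ℝ → ℕ, ∑ k, g (f (finRotate (m + 1) k)) = ∑ c ∈ U, g c := by
    intro g
    rw [← sumf g]
    exact Equiv.sum_comp (finRotate (m + 1)) (fun k => g (f k))
  have hm1 : 1 ≤ m := by omega
  have loc : ∀ k : Fin (m + 1), 4 ≤ R (f k) + R (f (finRotate (m + 1) k)) := by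
    intro k
    by_cases hk : k = Fin.last m
    · subst hk
      rw [finRotate_last]
      have hlt : (0 : Fin (m + 1)) < Fin.last m := by
        rw [Fin.lt_def, Fin.val_zero, Fin.val_last]; omega
      refine adj' _ (fmem _) _ (fmem _) (fun h => by
        have := f.injective h; rw [this] at hlt; exact lt_irrefl _ hlt) ?_
      intro γ hγ δ hδ g1 g2 d1 d2
      have key : ∀ γ ∈ U, γ ≠ f (Fin.last m) → γ ≠ f 0 →
          (γ - f (Fin.last m)) * (γ - f 0) < 0 := by
        intro γ hγ g1 g2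
        obtain ⟨l, rfl⟩ := fsurj γ hγ
        have l1 : f l < f (Fin.last m) :=
          lt_of_le_of_ne (f.monotone (Fin.le_last l)) g1
        have l2 : f 0 < f l := lt_of_le_of_ne (f.monotone (Fin.zero_le l)) (Ne.symm g2)
        exact mul_neg_of_neg_of_pos (by linarith) (by linarith)
      exact mul_pos_of_neg_of_neg (key γ hγ g1 g2) (key δ hδ d1 d2)
    · have hk' : k.val < m := by
        have := Fin.lt_last_iff_ne_last.mpr hk
        rw [Fin.lt_def] at this
        simpa using this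
      have hr : finRotate (m + 1) k = ⟨k.val + 1, by omega⟩ := by
        rw [finRotate_apply]
        apply Fin.ext
        rw [Fin.val_add_one_of_lt (Fin.lt_last_iff_ne_last.mpr hk)]
      rw [hr]
      have hlt : k < (⟨k.val + 1, by omega⟩ : Fin (m + 1)) := by
        rw [Fin.lt_def]; simp
      refine adj' _ (fmem _) _ (fmem _) (fun h => by
        have := f.injective h; rw [← this] at hlt; exact lt_irrefl _ hlt) ?_
      intro γ hγ δ hδ g1 g2 d1 d2
      have key : ∀ γ ∈ U, γ ≠ f k → γ ≠ f ⟨k.val + 1, by omega⟩ →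
          0 < (γ - f k) * (γ - f ⟨k.val + 1, by omega⟩) := by
        intro γ hγ g1 g2
        obtain ⟨l, rfl⟩ := fsurj γ hγ
        have l1 : l ≠ k := fun h => g1 (by rw [h])
        have l2 : l ≠ ⟨k.val + 1, by omega⟩ := fun h => g2 (by rw [h])
        have hkk := f.strictMono hlt
        rcases lt_or_gt_of_ne l1 with h | h
        · have := f.strictMono h
          exact mul_pos_of_neg_of_neg (by linarith) (by linarith)
        · have h' : (⟨k.val + 1, by omega⟩ : Fin (m + 1)) < l := by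
            rw [Fin.lt_def]
            rw [Fin.lt_def] at h
            have : l.val ≠ k.val + 1 := fun h' => l2 (Fin.ext h')
            simp only
            omega
          have := f.strictMono h'
          exact mul_pos (by linarith) (by linarith)
      exact mul_pos (key γ hγ g1 g2) (key δ hδ d1 d2)
  have hsum := Finset.sum_le_sum (fun k (_ : k ∈ (univ : Finset (Fin (m + 1)))) => loc k)
  simp only [sum_add_distrib, sumf, sumf', sum_const, card_univ, Fintype.card_fin,
    smul_eq_mul] at hsum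
  have hsum2 := Finset.sum_le_sum (fun c (hc : c ∈ U) => (hR c hc).1)
  simp only [sum_add_distrib, sum_const, smul_eq_mul] at hsum2
  rw [cardJ, cardJ', sumJ] at hsum2
  have hLs : ∑ c ∈ U, L c = ∑ c ∈ U, (if (colm O u c).card = 1 then 2 else 0)
        + ∑ c ∈ U, (if Even (colm O u c).card then (colm O u c).card - 2 else 0) := by
    simp only [hL, sum_add_distrib]
  rw [sum_add_distrib, ← hLs]
  omega

end charts

end Pool.Agent.Dirac80b
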