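import Mathlib
import Pool.Agent.Dirac80.Defs
import Pool.Agent.Dirac80.Parity
import Pool.Agent.Dirac80.EvenA

/-!
# Lines with an even number of points: excluding one line

Let `n` be even and let `A` be a line with an even number `M ≥ 4` of points of the set.  A point
`O` of `A` is bad if every other line through it has an odd number of points.  If more than half
of the points of `A` are bad, two consecutive points `x, x'` of `A` are bad, and for every other
bad `O` the two lines through `O` supporting the remaining points (in the affine plane with `A`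
at infinity) each carry two points with at least four even lines in total, by the local
inequality.  A point lies on at most two such supporting lines.
-/

set_option autoImplicit false
set_option linter.unusedSectionVars false
open Finset Classical

namespace Pool.Agent.Dirac80b

open Pool.Agent.Dirac80 (Lin Ln mem_Ln Pl area pl_ext exists_of_area collinear_of_area
  area_of_collinear connectingLines mem_connecting connecting_eq Col col_lin tr tr_card mem_tr
  tr_connecting double_count ordinary_eq)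

section abs

variable {ι : Type*} [Fintype ι]

/-- the number of lines with an even number of points through a point -/
noncomputable def evn (C : ι → ι → ι → Prop) (x : ι) : ℕ := ebad C x (univ.erase x)

theorem erase_iff {x k : ι} : k ∈ (univ : Finset ι).erase x ↔ k ≠ x := by simp

theorem evn_parity {C : ι → ι → ι → Prop} (h : Lin C) (x : ι) :
    Even (Fintype.card ι + 1 + evn C x) := by
  have h1 := ebad_parity h x (univ.erase x) (by simp) (by
    intro w _ k hk _; simp [hk])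
  have h2 : 0 < Fintype.card ι := Fintype.card_pos_iff.mpr ⟨x⟩
  rw [card_erase_of_mem (mem_univ x), card_univ] at h1
  unfold evn
  obtain ⟨a, ha⟩ := h1
  exact ⟨a + 1, by omega⟩

theorem line_eq {C : ι → ι → ι → Prop} (h : Lin C) {a b p q : ι} (hab : a ≠ b)
    (hp : p ∈ Ln C a b) (hq : q ∈ Ln C a b) (hpq : p ≠ q) : Ln C p q = Ln C a b := by
  by_cases h1 : p = a
  · subst h1
    exact h.Ln_eq hab hpq (mem_Ln.mp hq)
  · have e1 : Ln C a p = Ln C a b := h.Ln_eq hab (Ne.symm h1) (mem_Ln.mp hp)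
    have e2 : Ln C p a = Ln C a b := by rw [h.Ln_symm p a, e1]
    have e3 : q ∈ Ln C p a := by rw [e2]; exact hq
    rw [← e2]
    exact h.Ln_eq h1 hpq (mem_Ln.mp e3)

theorem ebad_zero {C : ι → ι → ι → Prop} {x w : ι} {U : Finset ι} (h : ebad C x U = 0)
    (hw : w ∈ U) : ¬ Even (Ln C x w).card := by
  intro he
  have : Ln C x w ∈ (U.image (Ln C x)).filter (fun T => Even T.card) := by
    rw [mem_filter, mem_image]
    exact ⟨⟨w, hw, rfl⟩, he⟩
  have h0 : (U.image (Ln C x)).filter (fun T => Even T.card) = ∅ := card_eq_zero.mp h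
  rw [h0] at this
  exact notMem_empty _ this

theorem card_Ln {C : ι → ι → ι → Prop} {O : ι} {u v : ι → ℝ} (ch : Chart C O u v) {w : ι}
    (hw : w ≠ O) : (Ln C O w).card = (colm O u (u w)).card + 1 := by
  have : Ln C O w = insert O (colm O u (u w)) := by
    ext k
    rw [mem_insert, mem_colm]
    by_cases hk : k = O
    · simp only [hk, true_or, iff_true]; exact ch.lin.left_mem _ _
    · rw [mem_Ln, ch.hO w k hw hk]
      constructor
      · intro h; exact Or.inr ⟨hk, h.symm⟩
      · rintro (h | h)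
        · exact absurd h hk
        · exact h.2.symm
  rw [this, card_insert_of_notMem]
  rw [mem_colm]; exact fun h => h.1 rfl

/-- the column next to a column with two consecutive points on no even line -/
theorem side {C : ι → ι → ι → Prop} {O : ι} {u v : ι → ℝ} (ch : Chart C O u v)
    {x x' w : ι} (hx : x ≠ O) (hx' : x' ≠ O) (hne : x ≠ x') (ux : u x = u x')
    (uw : u x ≠ u w)
    (hA : ∀ k, k ≠ O → u k = u x → k ≠ x → k ≠ x' → 0 < (v k - v x) * (v k - v x'))
    (h0 : ebad C x (off O u x) = 0) (h0' : ebad C x' (off O u x') = 0)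
    (hc : 2 ≤ (colm O u (u w)).card)
    (hsep : ∀ w' k, w' ≠ O → k ≠ O → u w' ≠ u x → u w' ≠ u w → u k ≠ u x → u k ≠ u w →
      0 < ((u w' - u x) * (u w' - u w)) * ((u k - u x) * (u k - u w))) :
    ∃ b1 b2, b1 ≠ O ∧ b2 ≠ O ∧ b1 ≠ b2 ∧ u b1 = u w ∧ u b2 = u w ∧
      4 ≤ evn C b1 + evn C b2 := by
  obtain ⟨b1, m1, b2, m2, hb, hadj⟩ := exists_pair (colm O u (u w)) v (by
    intro i hi j hj h
    rw [mem_colm] at hi hj
    exact ch.inj i j hi.1 hj.1 (by rw [hi.2, hj.2]) h) hc
  rw [mem_colm] at m1 m2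
  refine ⟨b1, b2, m1.1, m2.1, hb, m1.2, m2.2, ?_⟩
  have h4 := adj ch hx hx' m1.1 m2.1 hne hb ux (by rw [m1.2, m2.2]) (by rw [m1.2]; exact uw) hA
    (by intro k k0 k1; exact hadj k (mem_colm.mpr ⟨k0, by rw [k1, m1.2]⟩))
    (by rw [m1.2]; exact hsep)
  have e1 : ebad C b1 (off O u b1) ≤ evn C b1 := ebad_mono _ (by
    intro k hk
    rw [mem_off] at hk
    rw [mem_erase]
    exact ⟨fun h => hk.2 (by rw [h]), mem_univ _⟩)
  have e2 : ebad C b2 (off O u b2) ≤ evn C b2 := ebad_mono _ (by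
    intro k hk
    rw [mem_off] at hk
    rw [mem_erase]
    exact ⟨fun h => hk.2 (by rw [h]), mem_univ _⟩)
  omega

/-- two consecutive elements of a set of which more than half are marked -/
theorem adj_pair {ι : Type*} (A Z : Finset ι) (s : ι → ℝ)
    (hs : ∀ i ∈ A, ∀ j ∈ A, s i = s j → i = j) (hZ : Z ⊆ A) (h : A.card + 1 < 2 * Z.card) :
    ∃ x ∈ Z, ∃ x' ∈ Z, x ≠ x' ∧
      ∀ y ∈ A, y ≠ x → y ≠ x' → 0 < (s y - s x) * (s y - s x') := by
  by_contra hcon
  push Not at hcon
  set Z0 := Z.filter (fun x => ∃ y ∈ A, s x < s y) with hZ0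
  have hlast : (Z.filter (fun x => ¬ ∃ y ∈ A, s x < s y)).card ≤ 1 := by
    rw [card_le_one]
    intro x hx y hy
    rw [mem_filter] at hx hy
    have h1 : s y ≤ s x := by
      by_contra hc
      exact hx.2 ⟨y, hZ hy.1, not_le.mp hc⟩
    have h2 : s x ≤ s y := by
      by_contra hc
      exact hy.2 ⟨x, hZ hx.1, not_le.mp hc⟩
    exact hs x (hZ hx.1) y (hZ hy.1) (le_antisymm h2 h1)
  have hsum := card_filter_add_card_filter_not (s := Z) (fun x => ∃ y ∈ A, s x < s y)
  have hsucc : ∀ x ∈ Z0, ∃ y ∈ A, s x < s y ∧ ∀ z ∈ A, s x < s z → s y ≤ s z := by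
    intro x hx
    rw [hZ0, mem_filter] at hx
    obtain ⟨y, hy, hxy⟩ := hx.2
    obtain ⟨y', hy', hm⟩ := exists_min_image (A.filter (fun z => s x < s z)) s
      ⟨y, mem_filter.mpr ⟨hy, hxy⟩⟩
    rw [mem_filter] at hy'
    exact ⟨y', hy'.1, hy'.2, fun z hz hxz => hm z (mem_filter.mpr ⟨hz, hxz⟩)⟩
  choose! f hf1 hf2 hf3 using hsucc
  have hle : Z0.card ≤ (A \ Z).card := by
    refine card_le_card_of_injOn f ?_ ?_
    · intro x hx
      have hx' : x ∈ Z0 := by exact_mod_cast hx
      have hxZ : x ∈ Z := (mem_filter.mp hx').1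
      simp only [coe_sdiff, Set.mem_sdiff, mem_coe]
      refine ⟨hf1 x hx', fun hfz => ?_⟩
      have hlt := hf2 x hx'
      obtain ⟨y, hy, y1, y2, hneg⟩ := hcon x hxZ (f x) hfz
        (fun h' => by rw [← h'] at hlt; exact lt_irrefl _ hlt)
      rcases lt_trichotomy (s y) (s x) with h1 | h1 | h1
      · have : 0 < (s y - s x) * (s y - s (f x)) :=
          mul_pos_of_neg_of_neg (by linarith) (by linarith)
        linarith
      · exact y1 (hs y hy x (hZ hxZ) h1)
      · have h2 := hf3 x hx' y hy h1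
        have h3 : s (f x) ≠ s y := fun h' => y2 (hs _ (hf1 x hx') _ hy h').symm
        have : 0 < (s y - s x) * (s y - s (f x)) :=
          mul_pos (by linarith) (sub_pos.mpr (lt_of_le_of_ne h2 h3))
        linarith
    · intro x hx y hy hxy
      have hx' : x ∈ Z0 := by exact_mod_cast hx
      have hy' : y ∈ Z0 := by exact_mod_cast hy
      have hxA := hZ (mem_filter.mp hx').1
      have hyA := hZ (mem_filter.mp hy').1
      rcases lt_trichotomy (s x) (s y) with h1 | h1 | h1
      · have h2 := hf3 x hx' y hyA h1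
        have h3 := hf2 y hy'
        rw [← hxy] at h3
        linarith
      · exact hs x hxA y hyA h1
      · have h2 := hf3 y hy' x hxA h1
        have h3 := hf2 x hx'
        rw [hxy] at h3
        linarith
  have hsd : (A \ Z).card = A.card - Z.card := card_sdiff_of_subset hZ
  have hZA := card_le_card hZ
  have hZ0' : Z0.card = (Z.filter (fun x => ∃ y ∈ A, s x < s y)).card := rfl
  omega

end abs

section plane

variable (S : Finset Pl)

theorem exists_chart (O : {p // p ∈ S}) :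
    ∃ u v Y : {p // p ∈ S} → ℝ, Chart (Col S) O u v ∧ (∀ p, p ≠ O → Y p ≠ 0) ∧
      (∀ i j, i ≠ O → j ≠ O → area O.1 i.1 j.1 = Y i * Y j * (u i - u j)) ∧
      (∀ i, v i = 1 / Y i) ∧
      (∀ i j (c : ℝ), i.1 0 - O.1 0 = c * (j.1 0 - O.1 0) →
        i.1 1 - O.1 1 = c * (j.1 1 - O.1 1) → Y i = c * Y j) := by
  -- a good slope
  obtain ⟨m, hm⟩ : ∃ m : ℝ, ∀ p : {p // p ∈ S}, p ≠ O →
      (p.1 1 - O.1 1) - m * (p.1 0 - O.1 0) ≠ 0 := by
    obtain ⟨m, hm⟩ := Infinite.exists_notMem_finset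
      ((univ : Finset {p // p ∈ S}).image (fun p => (p.1 1 - O.1 1) / (p.1 0 - O.1 0)))
    refine ⟨m, fun p hp h => ?_⟩
    by_cases h0 : p.1 0 - O.1 0 = 0
    · rw [h0, mul_zero, sub_zero] at h
      exact hp (Subtype.ext (pl_ext (by linarith) (by linarith)))
    · apply hm
      rw [mem_image]
      refine ⟨p, mem_univ p, ?_⟩
      rw [div_eq_iff h0]; linarith
  set X : {p // p ∈ S} → ℝ := fun p => p.1 0 - O.1 0 with hX
  set Y : {p // p ∈ S} → ℝ := fun p => (p.1 1 - O.1 1) - m * (p.1 0 - O.1 0) with hY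
  have hY0 : ∀ p, p ≠ O → Y p ≠ 0 := hm
  have hD : ∀ i j k : {p // p ∈ S}, area i.1 j.1 k.1 =
      (X j - X i) * (Y k - Y i) - (Y j - Y i) * (X k - X i) := by
    intro i j k; simp only [hX, hY, area]; ring
  have hDO : ∀ i j : {p // p ∈ S}, area O.1 i.1 j.1 = X i * Y j - Y i * X j := by
    intro i j; simp only [hX, hY, area]; ring
  have hO' : ∀ i j, i ≠ O → j ≠ O → (Col S O i j ↔ X i / Y i = X j / Y j) := by
    intro i j hi hj
    have h1 := hY0 i hi
    have h2 := hY0 j hj
    unfold Col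
    rw [hDO, div_eq_div_iff h1 h2]
    constructor
    · intro h; linarith
    · intro h; linarith
  refine ⟨fun p => X p / Y p, fun p => 1 / Y p, Y, ?_, hY0, ?_, fun _ => rfl, ?_⟩
  · constructor
    · exact col_lin S
    · intro i j k hi hj hk
      have h1 := hY0 i hi
      have h2 := hY0 j hj
      have h3 := hY0 k hk
      unfold Col
      rw [hD]
      have key : (X j / Y j - X i / Y i) * (1 / Y k - 1 / Y i) -
          (1 / Y j - 1 / Y i) * (X k / Y k - X i / Y i) =
          -((X j - X i) * (Y k - Y i) - (Y j - Y i) * (X k - X i)) / (Y i * Y j * Y k) := by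
        field_simp
        ring
      rw [key, div_eq_zero_iff, neg_eq_zero]
      constructor
      · intro h; exact Or.inl h
      · rintro (h | h)
        · exact h
        · exact absurd h (mul_ne_zero (mul_ne_zero h1 h2) h3)
    · exact hO'
    · intro i j hi hj hu hv
      have h1 := hY0 i hi
      have h2 := hY0 j hj
      have e1 : Y i = Y j := by
        rw [div_eq_div_iff h1 h2] at hv; linarith
      have e2 : X i = X j := by
        rw [div_eq_div_iff h1 h2, e1] at hu
        exact mul_right_cancel₀ h2 hu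
      simp only [hX] at e2
      simp only [hY] at e1
      have e3 : i.1 0 = j.1 0 := by linarith
      rw [e3] at e1
      exact Subtype.ext (pl_ext e3 (by linarith))
  · intro i j hi hj
    have h1 := hY0 i hi
    have h2 := hY0 j hj
    rw [hDO]
    field_simp
  · intro i j c h1 h2
    simp only [hY]
    rw [h1, h2]; ring

/-- a point lies on at most two supporting lines with further points -/
theorem at_most_two {a0 a1 b : Pl} (hb : area a0 a1 b ≠ 0) (O q : Fin 3 → Pl)
    (hO : ∀ i, area a0 a1 (O i) = 0) (hij : ∀ i j, i ≠ j → area (O i) b (O j) ≠ 0)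
    (hq : ∀ i, area a0 a1 (q i) ≠ 0) (hqb : ∀ i, q i ≠ b) (hOb : ∀ i, O i ≠ b)
    (hc : ∀ i, area (O i) b (q i) = 0) (ε : Fin 3 → ℝ) (hε : ∀ i, ε i ≠ 0)
    (hsup : ∀ i j, 0 ≤ ε i * (area (O i) b (q j) * (area a0 a1 b * area a0 a1 (q j)))) :
    False := by
  have ht : ∀ i, ∃ t : ℝ, q i = t • (b - O i) +ᵥ O i := fun i => exists_of_area (hOb i) (hc i)
  choose t ht using ht
  have q0 : ∀ i, q i 0 = t i * (b 0 - O i 0) + O i 0 := by
    intro i; rw [ht i]
    simp only [vadd_eq_add, PiLp.add_apply, PiLp.smul_apply, PiLp.sub_apply, smul_eq_mul]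
  have q1 : ∀ i, q i 1 = t i * (b 1 - O i 1) + O i 1 := by
    intro i; rw [ht i]
    simp only [vadd_eq_add, PiLp.add_apply, PiLp.smul_apply, PiLp.sub_apply, smul_eq_mul]
  have t0 : ∀ i, t i ≠ 0 := by
    intro i h
    apply hq i
    have e0 := q0 i
    have e1 := q1 i
    rw [h] at e0 e1
    have := hO i
    unfold area at this ⊢
    rw [e0, e1]
    linarith
  have t1 : ∀ i, t i ≠ 1 := by
    intro i h
    apply hqb i
    have e0 := q0 i
    have e1 := q1 i
    rw [h] at e0 e1
    exact pl_ext (by linarith) (by linarith)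
  have lam : ∀ i, area a0 a1 (q i) = t i * area a0 a1 b := by
    intro i
    have := hO i
    unfold area at this ⊢
    rw [q0, q1]
    linear_combination (1 - t i) * this
  have ar : ∀ i j, area (O i) b (q j) = (1 - t j) * area (O i) b (O j) := by
    intro i j
    unfold area
    rw [q0, q1]
    ring
  have anti : ∀ i j, area (O j) b (O i) = - area (O i) b (O j) := by
    intro i j; unfold area; ring
  have pos : ∀ i j, i ≠ j → 0 < ε i * (t j * (1 - t j)) * area (O i) b (O j) := by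
    intro i j h
    have h1 := hsup i j
    rw [lam, ar] at h1
    have h2 : 0 < (area a0 a1 b) ^ 2 := by positivity
    have h3 : ε i * ((1 - t j) * area (O i) b (O j) * (area a0 a1 b * (t j * area a0 a1 b))) =
        (ε i * (t j * (1 - t j)) * area (O i) b (O j)) * (area a0 a1 b) ^ 2 := by ring
    rw [h3] at h1
    have h4 : 0 ≤ ε i * (t j * (1 - t j)) * area (O i) b (O j) := nonneg_of_mul_nonneg_left h1 h2
    refine lt_of_le_of_ne h4 (Ne.symm ?_)
    exact mul_ne_zero (mul_ne_zero (hε i) (mul_ne_zero (t0 j) (sub_ne_zero.mpr (t1 j).symm)))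
      (hij i j h)
  have neg : ∀ i j, i ≠ j →
      (ε i * (t i * (1 - t i))) * (ε j * (t j * (1 - t j))) < 0 := by
    intro i j h
    have h1 := pos i j h
    have h2 := pos j i h.symm
    rw [anti i j] at h2
    have h3 := mul_pos h1 h2
    have h4 : 0 < (area (O i) b (O j)) ^ 2 := by have := hij i j h; positivity
    have h5 : ε i * (t j * (1 - t j)) * area (O i) b (O j) *
        (ε j * (t i * (1 - t i)) * - area (O i) b (O j)) =
        - ((ε i * (t i * (1 - t i))) * (ε j * (t j * (1 - t j)))) * (area (O i) b (O j)) ^ 2 := by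
      ring
    rw [h5] at h3
    have h6 := (pos_iff_pos_of_mul_pos h3).mpr h4
    linarith
  have n01 := neg 0 1 (by decide)
  have n02 := neg 0 2 (by decide)
  have n12 := neg 1 2 (by decide)
  have h7 := mul_pos_of_neg_of_neg n01 n02
  have h8 := mul_neg_of_pos_of_neg h7 n12
  have h9 : (ε 0 * (t 0 * (1 - t 0))) * (ε 1 * (t 1 * (1 - t 1))) *
      ((ε 0 * (t 0 * (1 - t 0))) * (ε 2 * (t 2 * (1 - t 2)))) *
      ((ε 1 * (t 1 * (1 - t 1))) * (ε 2 * (t 2 * (1 - t 2)))) =
      ((ε 0 * (t 0 * (1 - t 0))) * (ε 1 * (t 1 * (1 - t 1))) * (ε 2 * (t 2 * (1 - t 2)))) ^ 2 := by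
    ring
  rw [h9] at h8
  have := sq_nonneg ((ε 0 * (t 0 * (1 - t 0))) * (ε 1 * (t 1 * (1 - t 1))) * (ε 2 * (t 2 * (1 - t 2))))
  linarith

/-- the number of lines with an even number of points through a point -/
noncomputable def ev (x : {p // p ∈ S}) : ℕ := evn (Col S) x

theorem ev_parity (x : {p // p ∈ S}) : Even (S.card + 1 + ev S x) := by
  have h1 := evn_parity (col_lin S) x
  rw [show Fintype.card {p // p ∈ S} = S.card by simp] at h1
  exact h1

theorem ev_pos (hn : Even S.card) (x : {p // p ∈ S}) : 1 ≤ ev S x := by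
  have h1 := ev_parity S x
  by_contra hcon
  have h0 : ev S x = 0 := by omega
  rw [h0] at h1
  obtain ⟨a, ha⟩ := h1
  obtain ⟨b, hb⟩ := hn
  omega

theorem support (hn : Even S.card) {a0 a1 : {p // p ∈ S}} (h01 : a0 ≠ a1)
    (s : {p // p ∈ S} → ℝ)
    (hs : ∀ k ∈ Ln (Col S) a0 a1, k.1 0 - a0.1 0 = s k * (a1.1 0 - a0.1 0) ∧
      k.1 1 - a0.1 1 = s k * (a1.1 1 - a0.1 1))
    {O x x' : {p // p ∈ S}} (hO : O ∈ Ln (Col S) a0 a1) (hx : x ∈ Ln (Col S) a0 a1)
    (hx' : x' ∈ Ln (Col S) a0 a1) (hxO : x ≠ O) (hxO' : x' ≠ O) (hne : x ≠ x')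
    (hadj : ∀ y ∈ Ln (Col S) a0 a1, y ≠ x → y ≠ x' → 0 < (s y - s x) * (s y - s x'))
    (bO : ebad (Col S) O (univ \ Ln (Col S) a0 a1) = 0)
    (bx : ebad (Col S) x (univ \ Ln (Col S) a0 a1) = 0)
    (bx' : ebad (Col S) x' (univ \ Ln (Col S) a0 a1) = 0)
    (hP : ∃ w, w ∉ Ln (Col S) a0 a1) :
    ∃ T : Finset {p // p ∈ S}, 4 ≤ ∑ b ∈ T, (ev S b - 1) ∧
      ∀ b ∈ T, b ∉ Ln (Col S) a0 a1 ∧
      (∃ ε : ℝ, ε ≠ 0 ∧ ∀ p ∉ Ln (Col S) a0 a1,
        0 ≤ ε * (area O.1 b.1 p.1 * (area a0.1 a1.1 b.1 * area a0.1 a1.1 p.1))) ∧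
      (∃ q, q ∉ Ln (Col S) a0 a1 ∧ q ≠ b ∧ area O.1 b.1 q.1 = 0) := by
  obtain ⟨A, hA⟩ : ∃ A, A = Ln (Col S) a0 a1 := ⟨_, rfl⟩
  rw [← hA] at hs hO hx hx' hadj bO bx bx' hP ⊢
  obtain ⟨u, v, Y, ch, hY, hU, hv, hYc⟩ := exists_chart S O
  have hAx : ∀ k, k ≠ O → (k ∈ A ↔ u k = u x) := by
    intro k hk
    have e : Ln (Col S) O x = A := by
      rw [hA]
      exact line_eq (col_lin S) h01 (hA ▸ hO) (hA ▸ hx) hxO.symm
    rw [← e, mem_Ln, ch.hO x k hxO hk]
    exact eq_comm
  have hux : u x = u x' := ((hAx x' hxO').mp hx').symm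
  have hoff : ∀ z, z ≠ O → z ∈ A → off O u z = univ \ A := by
    intro z hz hzA
    ext k
    rw [mem_off, mem_sdiff, (hAx z hz).mp hzA]
    constructor
    · rintro ⟨h1, h2⟩
      exact ⟨mem_univ _, fun h => h2 ((hAx k h1).mp h)⟩
    · rintro ⟨_, h⟩
      have h1 : k ≠ O := fun h' => h (h' ▸ hO)
      exact ⟨h1, fun h' => h ((hAx k h1).mpr h')⟩
  have sinj : ∀ i ∈ A, ∀ j ∈ A, s i = s j → i = j := by
    intro i hi j hj h
    have h1 := hs i hi
    have h2 := hs j hj
    rw [h] at h1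
    exact Subtype.ext (pl_ext (by linarith [h1.1, h2.1]) (by linarith [h1.2, h2.2]))
  -- consecutive in the chart
  have hadj' : ∀ k, k ≠ O → u k = u x → k ≠ x → k ≠ x' → 0 < (v k - v x) * (v k - v x') := by
    intro k kO ku k1 k2
    have kA : k ∈ A := (hAx k kO).mpr ku
    have p1 := hadj k kA k1 k2
    have p2 := hadj O hO hxO.symm hxO'.symm
    have hk0 : s k - s O ≠ 0 := sub_ne_zero.mpr (fun h => kO (sinj _ kA _ hO h))
    have hx0 : s x - s O ≠ 0 := sub_ne_zero.mpr (fun h => hxO (sinj _ hx _ hO h))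
    have hx0' : s x' - s O ≠ 0 := sub_ne_zero.mpr (fun h => hxO' (sinj _ hx' _ hO h))
    have Yk := hY k kO
    have rel : ∀ i ∈ A, Y i = (s i - s O) / (s k - s O) * Y k := by
      intro i hi
      have h1 := hs i hi
      have h2 := hs O hO
      have h3 := hs k kA
      refine hYc i k _ ?_ ?_
      · have e1 : i.1 0 - O.1 0 = (s i - s O) * (a1.1 0 - a0.1 0) := by linarith [h1.1, h2.1]
        have e2 : k.1 0 - O.1 0 = (s k - s O) * (a1.1 0 - a0.1 0) := by linarith [h3.1, h2.1]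
        rw [e1, e2]; field_simp
      · have e1 : i.1 1 - O.1 1 = (s i - s O) * (a1.1 1 - a0.1 1) := by linarith [h1.2, h2.2]
        have e2 : k.1 1 - O.1 1 = (s k - s O) * (a1.1 1 - a0.1 1) := by linarith [h3.2, h2.2]
        rw [e1, e2]; field_simp
    rw [hv k, hv x, hv x', rel x hx, rel x' hx']
    have e : (1 / Y k - 1 / ((s x - s O) / (s k - s O) * Y k)) *
        (1 / Y k - 1 / ((s x' - s O) / (s k - s O) * Y k)) =
        ((s k - s x) * (s k - s x')) / ((Y k) ^ 2 * ((s O - s x) * (s O - s x'))) := by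
      have hx1 : s O - s x ≠ 0 := fun h => hx0 (by linarith)
      have hx1' : s O - s x' ≠ 0 := fun h => hx0' (by linarith)
      field_simp
      ring
    rw [e]
    exact div_pos p1 (mul_pos (by positivity) p2)
  -- the number of points of a column
  have hcol : ∀ w ∉ A, 2 ≤ (colm O u (u w)).card := by
    intro w hw
    have wO : w ≠ O := fun h => hw (h ▸ hO)
    have h1 := card_Ln ch wO
    have h2 : ¬ Even (Ln (Col S) O w).card :=
      ebad_zero bO (mem_sdiff.mpr ⟨mem_univ _, hw⟩)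
    have h3 : 0 < (colm O u (u w)).card := card_pos.mpr ⟨w, mem_colm.mpr ⟨wO, rfl⟩⟩
    by_contra hcon
    have h4 : (colm O u (u w)).card = 1 := by omega
    rw [h1, h4] at h2
    exact h2 (by decide)
  have notA : ∀ w, w ∉ A → w ≠ O ∧ u w ≠ u x := by
    intro w hw
    have wO : w ≠ O := fun h => hw (h ▸ hO)
    exact ⟨wO, fun h => hw ((hAx w wO).mpr h)⟩
  have lam : ∀ k : {p // p ∈ S}, area O.1 x.1 k.1 = (s x - s O) * area a0.1 a1.1 k.1 := by
    intro k
    have h1 := hs x hx
    have h2 := hs O hO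
    have e0 : x.1 0 = O.1 0 + (s x - s O) * (a1.1 0 - a0.1 0) := by linarith [h1.1, h2.1]
    have e1 : x.1 1 = O.1 1 + (s x - s O) * (a1.1 1 - a0.1 1) := by linarith [h1.2, h2.2]
    have e2 : O.1 0 = a0.1 0 + s O * (a1.1 0 - a0.1 0) := by linarith [h2.1]
    have e3 : O.1 1 = a0.1 1 + s O * (a1.1 1 - a0.1 1) := by linarith [h2.2]
    unfold area
    rw [e0, e1, e2, e3]
    ring
  -- one side
  have sub : ∀ w ∉ A, ∀ σ : ℝ, σ ≠ 0 →
      (∀ k ∉ A, u k ≠ u w → 0 < σ * ((u k - u w) * ((u k - u x) * (u w - u x)))) →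
      ∃ b1 b2, b1 ∉ A ∧ b2 ∉ A ∧ b1 ≠ b2 ∧ u b1 = u w ∧ u b2 = u w ∧
        4 ≤ ev S b1 + ev S b2 ∧
        ∀ b, b ∉ A → u b = u w → (∃ ε : ℝ, ε ≠ 0 ∧ ∀ p ∉ A,
        0 ≤ ε * (area O.1 b.1 p.1 * (area a0.1 a1.1 b.1 * area a0.1 a1.1 p.1))) := by
    intro w hw σ hσ0 hσ
    obtain ⟨wO, wu⟩ := notA w hw
    obtain ⟨b1, b2, m1, m2, hb, e1, e2, h4⟩ := side ch hxO hxO' hne hux wu.symm hadj'
      (by rw [hoff x hxO hx]; exact bx) (by rw [hoff x' hxO' hx']; exact bx') (hcol w hw) (by
        intro k l kO lO k1 k2 l1 l2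
        have h1 := hσ k (fun h => k1 ((hAx k kO).mp h)) k2
        have h2 := hσ l (fun h => l1 ((hAx l lO).mp h)) l2
        have h3 := mul_pos h1 h2
        have h5 : σ * ((u k - u w) * ((u k - u x) * (u w - u x))) *
            (σ * ((u l - u w) * ((u l - u x) * (u w - u x)))) =
            ((u k - u x) * (u k - u w) * ((u l - u x) * (u l - u w))) *
              (σ ^ 2 * (u w - u x) ^ 2) := by ring
        rw [h5] at h3
        have h6 : 0 < σ ^ 2 * (u w - u x) ^ 2 := by
          have := sub_ne_zero.mpr wu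
          positivity
        exact (pos_iff_pos_of_mul_pos h3).mpr h6)
    have nA : ∀ b, b ≠ O → u b = u w → b ∉ A := fun b bO hb h => wu (by
      rw [← hb]; exact (hAx b bO).mp h)
    refine ⟨b1, b2, nA b1 m1 e1, nA b2 m2 e2, hb, e1, e2, h4, ?_⟩
    intro b hbA hbu
    obtain ⟨bO', bu⟩ := notA b hbA
    refine ⟨-σ, neg_ne_zero.mpr hσ0, fun p hp => ?_⟩
    obtain ⟨pO, pu⟩ := notA p hp
    have hx0 : s x - s O ≠ 0 := sub_ne_zero.mpr (fun h => hxO (sinj _ hx _ hO h))
    have a1' := hU b p bO' pO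
    have a2' := hU x b hxO bO'
    have a3' := hU x p hxO pO
    rw [lam] at a2' a3'
    have hkey : (area O.1 b.1 p.1 * (area a0.1 a1.1 b.1 * area a0.1 a1.1 p.1)) *
        (s x - s O) ^ 2 = (Y b * Y p * Y x) ^ 2 *
          ((u b - u p) * ((u x - u b) * (u x - u p))) := by
      have : (area O.1 b.1 p.1 * (area a0.1 a1.1 b.1 * area a0.1 a1.1 p.1)) *
        (s x - s O) ^ 2 = area O.1 b.1 p.1 * (((s x - s O) * area a0.1 a1.1 b.1) *
          ((s x - s O) * area a0.1 a1.1 p.1)) := by ring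
      rw [this, a1', a2', a3']; ring
    have hsgn : 0 ≤ -σ * ((u b - u p) * ((u x - u b) * (u x - u p))) := by
      by_cases hp' : u p = u w
      · rw [hbu, hp', sub_self, zero_mul, mul_zero]
      · have h1 := hσ p hp hp'
        rw [hbu]
        have h2 : -σ * ((u w - u p) * ((u x - u w) * (u x - u p))) =
            σ * ((u p - u w) * ((u p - u x) * (u w - u x))) := by ring
        rw [h2]; exact h1.le
    have h2 : 0 < (s x - s O) ^ 2 := by positivity
    refine nonneg_of_mul_nonneg_left (b := (s x - s O) ^ 2) ?_ h2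
    have h3 : -σ * (area O.1 b.1 p.1 * (area a0.1 a1.1 b.1 * area a0.1 a1.1 p.1)) *
        (s x - s O) ^ 2 = (Y b * Y p * Y x) ^ 2 *
          (-σ * ((u b - u p) * ((u x - u b) * (u x - u p)))) := by
      rw [mul_assoc, hkey]; ring
    rw [h3]
    exact mul_nonneg (sq_nonneg _) hsgn
  -- the extreme columns
  obtain ⟨w0, hw0⟩ := hP
  obtain ⟨wM, hM, hM'⟩ := exists_max_image (univ \ A) (fun k => 1 / (u k - u x))
    ⟨w0, mem_sdiff.mpr ⟨mem_univ _, hw0⟩⟩
  obtain ⟨wm, hm, hm'⟩ := exists_min_image (univ \ A) (fun k => 1 / (u k - u x))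
    ⟨w0, mem_sdiff.mpr ⟨mem_univ _, hw0⟩⟩
  rw [mem_sdiff] at hM hm
  have diffe : ∀ w k, w ∉ A → k ∉ A → 1 / (u w - u x) - 1 / (u k - u x) =
      ((u k - u w) * ((u k - u x) * (u w - u x))) / ((u k - u x) ^ 2 * (u w - u x) ^ 2) := by
    intro w k hw hk
    have h1 := sub_ne_zero.mpr (notA w hw).2
    have h2 := sub_ne_zero.mpr (notA k hk).2
    field_simp
    ring
  have posd : ∀ w k, w ∉ A → k ∉ A → 0 < (u k - u x) ^ 2 * (u w - u x) ^ 2 := by
    intro w k hw hk
    have h1 := sub_ne_zero.mpr (notA w hw).2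
    have h2 := sub_ne_zero.mpr (notA k hk).2
    positivity
  have prodne : ∀ w k, w ∉ A → k ∉ A → u k ≠ u w →
      (u k - u w) * ((u k - u x) * (u w - u x)) ≠ 0 := by
    intro w k hw hk h
    exact mul_ne_zero (sub_ne_zero.mpr h) (mul_ne_zero (sub_ne_zero.mpr (notA k hk).2)
      (sub_ne_zero.mpr (notA w hw).2))
  obtain ⟨b1, b2, A1, A2, hb, e1, e2, h4, hS⟩ := sub wM hM.2 1 one_ne_zero (by
    intro k hk hkw
    have h1 := hM' k (mem_sdiff.mpr ⟨mem_univ _, hk⟩)
    have h2 : 0 ≤ 1 / (u wM - u x) - 1 / (u k - u x) := by linarith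
    rw [diffe wM k hM.2 hk] at h2
    have h3 : 0 ≤ (u k - u wM) * ((u k - u x) * (u wM - u x)) := by
      by_contra hc
      have := div_neg_of_neg_of_pos (not_le.mp hc) (posd wM k hM.2 hk)
      linarith
    rw [one_mul]
    exact lt_of_le_of_ne h3 (prodne wM k hM.2 hk hkw).symm)
  obtain ⟨c1, c2, B1, B2, hc, f1, f2, g4, hS'⟩ := sub wm hm.2 (-1) (by norm_num) (by
    intro k hk hkw
    have h1 := hm' k (mem_sdiff.mpr ⟨mem_univ _, hk⟩)
    have h2 : 1 / (u wm - u x) - 1 / (u k - u x) ≤ 0 := by linarith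
    rw [diffe wm k hm.2 hk] at h2
    have h3 : (u k - u wm) * ((u k - u x) * (u wm - u x)) ≤ 0 := by
      by_contra hc
      have := div_pos (not_le.mp hc) (posd wm k hm.2 hk)
      linarith
    have h4 := lt_of_le_of_ne h3 (prodne wm k hm.2 hk hkw)
    linarith)
  -- the two columns are different
  have hdiff : u wM ≠ u wm := by
    intro heq
    have hall : ∀ k ∉ A, u k = u wM := by
      intro k hk
      have h1 := hM' k (mem_sdiff.mpr ⟨mem_univ _, hk⟩)
      have h2 := hm' k (mem_sdiff.mpr ⟨mem_univ _, hk⟩)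
      rw [← heq] at h2
      have h3 : 1 / (u k - u x) = 1 / (u wM - u x) := le_antisymm h1 h2
      have h5 := sub_ne_zero.mpr (notA wM hM.2).2
      have h6 := sub_ne_zero.mpr (notA k hk).2
      rw [div_eq_div_iff h6 h5] at h3
      linarith
    have hL : Ln (Col S) x wM = {x, wM} := by
      ext k
      rw [mem_Ln, mem_insert, mem_singleton]
      constructor
      · intro h
        by_cases hkx : k = x
        · exact Or.inl hkx
        by_cases hkw : k = wM
        · exact Or.inr hkw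
        exfalso
        obtain ⟨MO, Mu⟩ := notA wM hM.2
        have kO := ch.ne_O hxO MO Mu h
        have ku := ch.ne_col hxO MO kO Mu hkx h
        have kA : k ∉ A := fun h' => ku ((hAx k kO).mp h')
        exact ch.ne_col MO hxO kO Mu.symm hkw ((col_lin S).hs' _ _ _ h) (hall k kA)
      · rintro (rfl | rfl)
        · exact mem_Ln.mp ((col_lin S).left_mem _ _)
        · exact mem_Ln.mp ((col_lin S).right_mem _ _)
    have hxM : x ≠ wM := fun h => hM.2 (h ▸ hx)
    refine ebad_zero bx (mem_sdiff.mpr ⟨mem_univ _, hM.2⟩) ?_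
    rw [hL, card_pair hxM]; decide
  have n1 : b1 ≠ c1 := fun h => hdiff (by rw [← e1, ← f1, h])
  have n2 : b1 ≠ c2 := fun h => hdiff (by rw [← e1, ← f2, h])
  have n3 : b2 ≠ c1 := fun h => hdiff (by rw [← e2, ← f1, h])
  have n4 : b2 ≠ c2 := fun h => hdiff (by rw [← e2, ← f2, h])
  have colq : ∀ b q, b ∉ A → q ∉ A → u b = u q → area O.1 b.1 q.1 = 0 := by
    intro b q hb' hq' h
    exact (ch.hO b q (notA b hb').1 (notA q hq').1).mpr h
  refine ⟨{b1, b2, c1, c2}, ?_, ?_⟩
  · rw [sum_insert (by simp [hb, n1, n2]), sum_insert (by simp [n3, n4]), sum_pair hc]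
    have i1 := ev_pos S hn b1
    have i2 := ev_pos S hn b2
    have i3 := ev_pos S hn c1
    have i4 := ev_pos S hn c2
    omega
  · intro b hb'
    simp only [mem_insert, mem_singleton] at hb'
    rcases hb' with rfl | rfl | rfl | rfl
    · exact ⟨A1, hS _ A1 e1, b2, A2, hb.symm, colq _ _ A1 A2 (by rw [e1, e2])⟩
    · exact ⟨A2, hS _ A2 e2, b1, A1, hb, colq _ _ A2 A1 (by rw [e1, e2])⟩
    · exact ⟨B1, hS' _ B1 f1, c2, B2, hc.symm, colq _ _ B1 B2 (by rw [f1, f2])⟩
    · exact ⟨B2, hS' _ B2 f2, c1, B1, hc, colq _ _ B2 B1 (by rw [f1, f2])⟩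

end plane

end Pool.Agent.Dirac80b
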