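import Mathlib
import Pool.Agent.Dirac80.Defs
import Pool.Agent.Dirac80.Parity
import Pool.Agent.Dirac80.EvenA
import Pool.Agent.Dirac80.EvenB

/-!
# Ordinary lines of sets with one rich line
-/

set_option autoImplicit false
set_option linter.unusedSectionVars false
open Finset Classical

namespace Pool.Agent.Dirac80b

open Pool.Agent.Dirac80 (Lin Ln mem_Ln Pl area pl_ext exists_of_area collinear_of_area
  area_of_collinear connectingLines mem_connecting connecting_eq Col col_lin tr tr_card mem_tr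
  tr_connecting double_count ordinary_eq)

theorem odd_case' {ι : Type*} [Fintype ι] [inst : DecidableEq ι] {C : ι → ι → ι → Prop} {O : ι}
    {u v : ι → ℝ} (ch : Chart C O u v)
    (hn : Odd (Fintype.card ι)) (hcol : ∃ i j, i ≠ O ∧ j ≠ O ∧ u i ≠ u j) :
    Fintype.card ι - 1 ≤ ∑ i ∈ univ.erase O, ebad C i (off O u i)
      + ∑ c ∈ (univ.erase O).image u, ((if (colm O u c).card = 1 then 2 else 0)
        + (if Even (colm O u c).card then (colm O u c).card - 2 else 0)) := by
  have h := odd_case ch hn hcol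
  have e : inst = fun a b => propDecidable (a = b) := Subsingleton.elim _ _
  subst e
  exact h

section plane

variable (S : Finset Pl)

theorem eA_even (hn : Even S.card) {a0 a1 : {p // p ∈ S}} (h01 : a0 ≠ a1)
    (hE : Even (Ln (Col S) a0 a1).card) {x : {p // p ∈ S}} (hx : x ∈ Ln (Col S) a0 a1) :
    Even (ebad (Col S) x (univ \ Ln (Col S) a0 a1)) := by
  have h1 := ebad_parity (col_lin S) x (univ \ Ln (Col S) a0 a1)
    (by rw [mem_sdiff]; exact fun h => h.2 hx) (by
      intro w hw k hkx hc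
      rw [mem_sdiff] at hw ⊢
      refine ⟨mem_univ _, fun hk => hw.2 ?_⟩
      rw [← line_eq (col_lin S) h01 hx hk (Ne.symm hkx), mem_Ln]
      exact (col_lin S).hs _ _ _ hc)
  have h2 : (univ \ Ln (Col S) a0 a1).card = S.card - (Ln (Col S) a0 a1).card := by
    rw [card_sdiff_of_subset (subset_univ _), card_univ]; simp
  have h3 : (Ln (Col S) a0 a1).card ≤ S.card := by
    have := card_le_card (subset_univ (Ln (Col S) a0 a1))
    rw [card_univ] at this
    simpa using this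
  rw [h2] at h1
  obtain ⟨a, ha⟩ := h1
  obtain ⟨b, hb⟩ := hn
  obtain ⟨c, hc⟩ := hE
  exact ⟨a + c - b, by omega⟩

theorem even_count (hn : Even S.card) {a0 a1 : {p // p ∈ S}} (h01 : a0 ≠ a1)
    (hE : Even (Ln (Col S) a0 a1).card) (hM : 4 ≤ (Ln (Col S) a0 a1).card)
    (hP : ∃ w, w ∉ Ln (Col S) a0 a1) :
    S.card ≤ ∑ w ∈ univ \ Ln (Col S) a0 a1, ev S w +
      ∑ x ∈ Ln (Col S) a0 a1, ebad (Col S) x (univ \ Ln (Col S) a0 a1) := by
  have hs0 : ∀ k : {p // p ∈ S}, ∃ t : ℝ, k ∈ Ln (Col S) a0 a1 →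
      k.1 0 - a0.1 0 = t * (a1.1 0 - a0.1 0) ∧ k.1 1 - a0.1 1 = t * (a1.1 1 - a0.1 1) := by
    intro k
    by_cases hk : k ∈ Ln (Col S) a0 a1
    · rw [mem_Ln] at hk
      obtain ⟨t, ht⟩ := exists_of_area (fun h => h01 (Subtype.ext h)) hk
      refine ⟨t, fun _ => ?_⟩
      rw [ht]
      simp only [vadd_eq_add, PiLp.add_apply, PiLp.smul_apply, PiLp.sub_apply, smul_eq_mul]
      constructor <;> ring
    · exact ⟨0, fun h => absurd h hk⟩
  choose s hs using hs0
  have sinj : ∀ i ∈ Ln (Col S) a0 a1, ∀ j ∈ Ln (Col S) a0 a1, s i = s j → i = j := by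
    intro i hi j hj h
    have h1 := hs i hi
    have h2 := hs j hj
    rw [h] at h1
    exact Subtype.ext (pl_ext (by linarith [h1.1, h2.1]) (by linarith [h1.2, h2.2]))
  have heA := fun x hx => eA_even S hn h01 hE (x := x) hx
  obtain ⟨eA, heAd⟩ : ∃ eA : {p // p ∈ S} → ℕ, eA = fun x =>
    ebad (Col S) x (univ \ Ln (Col S) a0 a1) := ⟨_, rfl⟩
  have heA0 : ∀ x, ebad (Col S) x (univ \ Ln (Col S) a0 a1) = eA x := by
    intro x; rw [heAd]
  have hsup : ∀ x x' : {p // p ∈ S}, x ∈ Ln (Col S) a0 a1 → x' ∈ Ln (Col S) a0 a1 → x ≠ x' →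
      (∀ y ∈ Ln (Col S) a0 a1, y ≠ x → y ≠ x' → 0 < (s y - s x) * (s y - s x')) →
      eA x = 0 → eA x' = 0 → ∀ O, O ∈ Ln (Col S) a0 a1 → x ≠ O → x' ≠ O → eA O = 0 →
      ∃ T : Finset {p // p ∈ S}, 4 ≤ ∑ b ∈ T, (ev S b - 1) ∧
      ∀ b ∈ T, b ∉ Ln (Col S) a0 a1 ∧
      (∃ ε : ℝ, ε ≠ 0 ∧ ∀ p ∉ Ln (Col S) a0 a1,
        0 ≤ ε * (area O.1 b.1 p.1 * (area a0.1 a1.1 b.1 * area a0.1 a1.1 p.1))) ∧
      (∃ q, q ∉ Ln (Col S) a0 a1 ∧ q ≠ b ∧ area O.1 b.1 q.1 = 0) := by
    intro x x' hx hx' hne hadj bx bx' O hO hxO hxO' bO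
    exact support S hn h01 s hs hO hx hx' hxO hxO' hne hadj (by rw [heA0]; exact bO)
      (by rw [heA0]; exact bx) (by rw [heA0]; exact bx') hP
  simp only [heA0] at heA ⊢
  obtain ⟨A, hA⟩ : ∃ A, A = Ln (Col S) a0 a1 := ⟨_, rfl⟩
  have hAline : ∀ p ∈ A, ∀ q ∈ A, p ≠ q → ∀ b : {p // p ∈ S}, b ∉ A → area p.1 b.1 q.1 ≠ 0 := by
    intro p hp q hq hpq b hb h
    apply hb
    rw [hA] at hp hq ⊢
    rw [← line_eq (col_lin S) h01 hp hq hpq, mem_Ln]
    exact (col_lin S).hs _ _ _ h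
  have hAmem : ∀ k : {p // p ∈ S}, k ∈ A ↔ area a0.1 a1.1 k.1 = 0 := by
    intro k; rw [hA, mem_Ln]; rfl
  rw [← hA] at hE hM hP hs sinj heA ⊢
  simp only [← hA] at hsup
  have hcardP : (univ \ A).card = S.card - A.card := by
    rw [card_sdiff_of_subset (subset_univ _), card_univ]; simp
  have hcardA : A.card ≤ S.card := by
    have := card_le_card (subset_univ A)
    rw [card_univ] at this
    simpa using this
  obtain ⟨δ, hδd⟩ : ∃ δ : {p // p ∈ S} → ℕ, δ = fun w => ev S w - 1 := ⟨_, rfl⟩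
  have hev : ∀ w, ev S w = δ w + 1 := by
    intro w
    have := ev_pos S hn w
    rw [hδd]; simp only; omega
  have hsumev : ∑ w ∈ univ \ A, ev S w = ∑ w ∈ univ \ A, δ w + (S.card - A.card) := by
    rw [← hcardP, Finset.sum_congr rfl (fun w _ => hev w), sum_add_distrib, sum_const,
      smul_eq_mul, mul_one]
  set Z := A.filter (fun x => eA x = 0) with hZ
  have hZA : Z ⊆ A := filter_subset _ _
  have hsumA : 2 * (A.card - Z.card) ≤ ∑ x ∈ A, eA x := by
    have h1 : ∀ x ∈ A \ Z, 2 ≤ eA x := by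
      intro x hx
      rw [mem_sdiff, hZ, mem_filter, not_and] at hx
      have h2 := heA x hx.1
      have h3 := hx.2 hx.1
      obtain ⟨a, ha⟩ := h2
      omega
    have h2 : (A \ Z).card • 2 ≤ ∑ x ∈ A \ Z, eA x := Finset.card_nsmul_le_sum (A \ Z) _ 2 h1
    rw [smul_eq_mul, card_sdiff_of_subset hZA] at h2
    have h3 : ∑ x ∈ A \ Z, eA x ≤ ∑ x ∈ A, eA x :=
      Finset.sum_le_sum_of_subset sdiff_subset
    omega
  have hZcard := card_le_card hZA
  rw [hsumev]
  by_cases hz : 2 * Z.card ≤ A.card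
  · omega
  -- many bad points
  obtain ⟨x, hxZ, x', hxZ', hne, hadj⟩ := adj_pair A Z s sinj hZA (by
    obtain ⟨a, ha⟩ := hE; omega)
  have memZ : ∀ y, y ∈ Z ↔ y ∈ A ∧ eA y = 0 := by intro y; rw [hZ, mem_filter]
  obtain ⟨hxA, hx0⟩ := (memZ x).mp hxZ
  obtain ⟨hxA', hx0'⟩ := (memZ x').mp hxZ'
  obtain ⟨Z', hZ'⟩ : ∃ Z', Z' = Z.filter (fun O => x ≠ O ∧ x' ≠ O) := ⟨_, rfl⟩
  have memZ' : ∀ y, y ∈ Z' ↔ (y ∈ A ∧ eA y = 0) ∧ x ≠ y ∧ x' ≠ y := by
    intro y; rw [hZ', mem_filter, memZ]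
  have hZ'card : Z.card ≤ Z'.card + 2 := by
    have h1 : Z ⊆ Z' ∪ {x, x'} := by
      intro y hy
      rw [mem_union, mem_insert, mem_singleton, hZ', mem_filter]
      by_cases h1 : x = y
      · exact Or.inr (Or.inl h1.symm)
      by_cases h2 : x' = y
      · exact Or.inr (Or.inr h2.symm)
      exact Or.inl ⟨hy, h1, h2⟩
    have h2 := card_le_card h1
    have h3 := card_union_le Z' {x, x'}
    have h4 : ({x, x'} : Finset {p // p ∈ S}).card ≤ 2 := card_le_two
    omega
  have hT : ∀ O, ∃ T : Finset {p // p ∈ S}, O ∈ Z' → (4 ≤ ∑ b ∈ T, δ b ∧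
      ∀ b ∈ T, b ∉ A ∧
      (∃ ε : ℝ, ε ≠ 0 ∧ ∀ p ∉ A,
        0 ≤ ε * (area O.1 b.1 p.1 * (area a0.1 a1.1 b.1 * area a0.1 a1.1 p.1))) ∧
      (∃ q, q ∉ A ∧ q ≠ b ∧ area O.1 b.1 q.1 = 0)) := by
    intro O
    by_cases hO : O ∈ Z'
    · obtain ⟨⟨hOA, hO0⟩, h1, h2⟩ := (memZ' O).mp hO
      obtain ⟨T, hT1, hT2⟩ := hsup x x' hxA hxA' hne hadj hx0 hx0' O hOA h1 h2 hO0
      exact ⟨T, fun _ => ⟨by rw [hδd]; exact hT1, hT2⟩⟩
    · exact ⟨∅, fun h => absurd h hO⟩
  choose T hT using hT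
  have low : 4 * Z'.card ≤ ∑ O ∈ Z', ∑ b ∈ T O, δ b := by
    have := Finset.card_nsmul_le_sum Z' (fun O => ∑ b ∈ T O, δ b) 4 (fun O hO => (hT O hO).1)
    rw [smul_eq_mul] at this
    omega
  have two : ∀ b ∈ univ \ A, (Z'.filter (fun O => b ∈ T O)).card ≤ 2 := by
    intro b hb
    rw [mem_sdiff] at hb
    by_contra hcon
    obtain ⟨O0, h0, O1, h1, O2, h2, n01, n02, n12⟩ := two_lt_card.mp (not_le.mp hcon)
    rw [mem_filter] at h0 h1 h2
    obtain ⟨_, ⟨ε0, e0, s0⟩, q0, r0, t0, w0⟩ := (hT O0 h0.1).2 b h0.2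
    obtain ⟨_, ⟨ε1, e1, s1⟩, q1, r1, t1, w1⟩ := (hT O1 h1.1).2 b h1.2
    obtain ⟨_, ⟨ε2, e2, s2⟩, q2, r2, t2, w2⟩ := (hT O2 h2.1).2 b h2.2
    have A0 := ((memZ' O0).mp h0.1).1.1
    have A1 := ((memZ' O1).mp h1.1).1.1
    have A2 := ((memZ' O2).mp h2.1).1.1
    have nb : ∀ O ∈ A, O.1 ≠ b.1 := fun O hO h => hb.2 (by rw [← Subtype.ext h]; exact hO)
    have nq : ∀ q : {p // p ∈ S}, q ≠ b → q.1 ≠ b.1 := fun q hq h => hq (Subtype.ext h)
    refine Pool.Agent.Dirac80b.at_most_two (a0 := a0.1) (a1 := a1.1) (b := b.1)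
      (fun h => hb.2 ((hAmem b).mpr h)) ![O0.1, O1.1, O2.1] ![q0.1, q1.1, q2.1] ?_ ?_ ?_ ?_ ?_ ?_
      ![ε0, ε1, ε2] ?_ ?_
    · intro i
      fin_cases i
      · exact (hAmem O0).mp A0
      · exact (hAmem O1).mp A1
      · exact (hAmem O2).mp A2
    · intro i j hij
      fin_cases i <;> fin_cases j
      · exact absurd rfl hij
      · exact hAline O0 A0 O1 A1 n01 b hb.2
      · exact hAline O0 A0 O2 A2 n02 b hb.2
      · exact hAline O1 A1 O0 A0 n01.symm b hb.2
      · exact absurd rfl hij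
      · exact hAline O1 A1 O2 A2 n12 b hb.2
      · exact hAline O2 A2 O0 A0 n02.symm b hb.2
      · exact hAline O2 A2 O1 A1 n12.symm b hb.2
      · exact absurd rfl hij
    · intro i
      fin_cases i
      · exact fun h => r0 ((hAmem q0).mpr h)
      · exact fun h => r1 ((hAmem q1).mpr h)
      · exact fun h => r2 ((hAmem q2).mpr h)
    · intro i
      fin_cases i
      · exact nq q0 t0
      · exact nq q1 t1
      · exact nq q2 t2
    · intro i
      fin_cases i
      · exact nb O0 A0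
      · exact nb O1 A1
      · exact nb O2 A2
    · intro i
      fin_cases i
      · exact w0
      · exact w1
      · exact w2
    · intro i
      fin_cases i
      · exact e0
      · exact e1
      · exact e2
    · intro i j
      fin_cases i <;> fin_cases j
      · exact s0 q0 r0
      · exact s0 q1 r1
      · exact s0 q2 r2
      · exact s1 q0 r0
      · exact s1 q1 r1
      · exact s1 q2 r2
      · exact s2 q0 r0
      · exact s2 q1 r1
      · exact s2 q2 r2
  have high : ∑ O ∈ Z', ∑ b ∈ T O, δ b ≤ 2 * ∑ b ∈ univ \ A, δ b := by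
    have h1 : ∀ O ∈ Z', ∑ b ∈ T O, δ b = ∑ b ∈ univ \ A, if b ∈ T O then δ b else 0 := by
      intro O hO
      rw [← sum_filter]
      congr 1
      ext b
      rw [mem_filter, mem_sdiff]
      constructor
      · intro hb; exact ⟨⟨mem_univ _, ((hT O hO).2 b hb).1⟩, hb⟩
      · intro hb; exact hb.2
    rw [Finset.sum_congr rfl h1, sum_comm, mul_sum]
    refine Finset.sum_le_sum (fun b hb => ?_)
    rw [← sum_filter, sum_const, smul_eq_mul]
    exact Nat.mul_le_mul_right _ (two b hb)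
  omega

theorem ebad_le (x : {p // p ∈ S}) (U : Finset {p // p ∈ S}) (F : Finset (Finset Pl))
    (h : ∀ w ∈ U, Even (Ln (Col S) x w).card → tr S (Ln (Col S) x w) ∈ F) :
    ebad (Col S) x U ≤ (F.filter (fun T => x.1 ∈ T)).card := by
  unfold ebad
  refine Finset.card_le_card_of_injOn (tr S) ?_ ?_
  · intro T hT
    simp only [coe_filter, mem_image, Set.mem_ofPred_eq] at hT
    obtain ⟨⟨w, hw, rfl⟩, h3⟩ := hT
    simp only [coe_filter, Set.mem_ofPred_eq]
    refine ⟨h w hw h3, ?_⟩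
    rw [mem_tr]
    exact ⟨x.2, (col_lin S).left_mem _ _⟩
  · intro T _ T' _ h
    exact Finset.map_injective _ h

theorem mem_tr_self (x w : {p // p ∈ S}) : x.1 ∈ tr S (Ln (Col S) x w) := by
  rw [mem_tr]; exact ⟨x.2, (col_lin S).left_mem _ _⟩

/-- for even `n` : the lines with an even number of points, except one with at least four points,
have at least `n` incidences -/
theorem even_main (hn : Even S.card) (hS : ¬ Collinear ℝ (S : Set Pl)) {A : Finset Pl}
    (hA : A ∈ connectingLines S) (hE : Even A.card) (hM : 4 ≤ A.card) :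
    S.card ≤ ∑ T ∈ (connectingLines S).filter (fun T => Even T.card ∧ T ≠ A), T.card := by
  obtain ⟨F, hF⟩ : ∃ F, F = (connectingLines S).filter (fun T => Even T.card ∧ T ≠ A) := ⟨_, rfl⟩
  have hAS := (mem_connecting.mp hA).1
  obtain ⟨a0, ha0, a1, ha1, h01⟩ := one_lt_card.mp (show 1 < A.card by omega)
  have hAe := connecting_eq hA ha0 ha1 h01
  set b0 : {p // p ∈ S} := ⟨a0, hAS ha0⟩ with hb0
  set b1 : {p // p ∈ S} := ⟨a1, hAS ha1⟩ with hb1
  have hb01 : b0 ≠ b1 := fun h => h01 (congrArg Subtype.val h)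
  have htr : tr S (Ln (Col S) b0 b1) = A := by
    ext x
    rw [mem_tr, hAe, mem_filter]
    constructor
    · rintro ⟨h, hx⟩; rw [mem_Ln] at hx; exact ⟨h, hx⟩
    · rintro ⟨h, hx⟩; exact ⟨h, mem_Ln.mpr hx⟩
  have hcA : (Ln (Col S) b0 b1).card = A.card := by rw [← htr, tr_card]
  have hmem : ∀ k : {p // p ∈ S}, k ∈ Ln (Col S) b0 b1 ↔ k.1 ∈ A := by
    intro k
    rw [← htr, mem_tr]
    constructor
    · intro h; exact ⟨k.2, h⟩
    · rintro ⟨_, h⟩; exact h
  have hP : ∃ w, w ∉ Ln (Col S) b0 b1 := by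
    by_contra hcon
    push Not at hcon
    apply hS
    refine collinear_of_area h01 _ (by exact_mod_cast hAS ha0) ?_
    intro r hr
    have hr' : r ∈ S := by exact_mod_cast hr
    exact mem_Ln.mp (hcon ⟨r, hr'⟩)
  have hmain := even_count S hn hb01 (by rw [hcA]; exact hE) (by rw [hcA]; exact hM) hP
  have e1 : ∀ w ∈ univ \ Ln (Col S) b0 b1, ev S w ≤ (F.filter (fun T => w.1 ∈ T)).card := by
    intro w hw
    rw [mem_sdiff, hmem] at hw
    refine ebad_le S w _ F ?_
    intro k hk he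
    replace hk := erase_iff.mp hk
    rw [hF, mem_filter]
    refine ⟨tr_connecting S w k hk.symm, by rw [tr_card]; exact he, fun h => hw.2 ?_⟩
    rw [← h]; exact mem_tr_self S w k
  have e2 : ∀ x ∈ Ln (Col S) b0 b1, ebad (Col S) x (univ \ Ln (Col S) b0 b1) ≤
      (F.filter (fun T => x.1 ∈ T)).card := by
    intro x hx
    refine ebad_le S x _ F ?_
    intro k hk he
    rw [mem_sdiff] at hk
    have hxk : x ≠ k := fun h => hk.2 (h ▸ hx)
    rw [hF, mem_filter]
    refine ⟨tr_connecting S x k hxk, by rw [tr_card]; exact he, fun h => hk.2 ?_⟩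
    rw [hmem, ← h, mem_tr]
    exact ⟨k.2, (col_lin S).right_mem _ _⟩
  have e3 := Finset.sum_le_sum e1
  have e4 := Finset.sum_le_sum e2
  have e5 := Finset.sum_sdiff (f := fun w : {p // p ∈ S} => (F.filter (fun T => w.1 ∈ T)).card)
    (subset_univ (Ln (Col S) b0 b1))
  have e6 := double_count S F (fun T hT => by
    rw [hF] at hT; exact (mem_connecting.mp (mem_filter.mp hT).1).1)
  rw [← Finset.sum_coe_sort S (fun p => (F.filter (fun T => p ∈ T)).card)] at e6
  rw [← hF]
  omega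

/-- for even `n` : the lines with an even number of points have at least `n` incidences -/
theorem even_all (hn : Even S.card) :
    S.card ≤ ∑ T ∈ (connectingLines S).filter (fun T => Even T.card), T.card := by
  obtain ⟨F, hF⟩ : ∃ F, F = (connectingLines S).filter (fun T => Even T.card) := ⟨_, rfl⟩
  have e1 : ∀ w ∈ (univ : Finset {p // p ∈ S}), 1 ≤ (F.filter (fun T => w.1 ∈ T)).card := by
    intro w _
    refine (ev_pos S hn w).trans (ebad_le S w _ F ?_)
    intro k hk he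
    replace hk := erase_iff.mp hk
    rw [hF, mem_filter]
    exact ⟨tr_connecting S w k hk.symm, by rw [tr_card]; exact he⟩
  have e3 := Finset.sum_le_sum e1
  have e6 := double_count S F (fun T hT => by
    rw [hF] at hT; exact (mem_connecting.mp (mem_filter.mp hT).1).1)
  rw [← Finset.sum_coe_sort S (fun p => (F.filter (fun T => p ∈ T)).card)] at e6
  rw [← hF, ← e6]
  refine le_trans ?_ e3
  simp

/-- for odd `n` and a point `O` : the lines with an even number of points -/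
theorem star_main (hn : Odd S.card) (hS : ¬ Collinear ℝ (S : Set Pl)) {o : Pl} (ho : o ∈ S) :
    S.card - 1 ≤ ∑ T ∈ (connectingLines S).filter (fun T => Even T.card ∧ o ∉ T), T.card +
      ∑ T ∈ (connectingLines S).filter (fun T => o ∈ T),
        ((if T.card = 2 then 2 else 0) + (if Odd T.card then T.card - 3 else 0)) := by
  obtain ⟨F, hF⟩ : ∃ F, F = (connectingLines S).filter (fun T => Even T.card ∧ o ∉ T) := ⟨_, rfl⟩
  set O : {p // p ∈ S} := ⟨o, ho⟩ with hO
  obtain ⟨u, v, Y, ch, -, -, -, -⟩ := exists_chart S O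
  have hcard : Fintype.card {p // p ∈ S} = S.card := by simp
  have hmain := odd_case' ch (by rw [hcard]; exact hn) (by
    by_contra hcon
    push Not at hcon
    apply hS
    by_cases hex : ∃ q ∈ S, q ≠ o
    · obtain ⟨q, hq, hqo⟩ := hex
      refine collinear_of_area (Ne.symm hqo) _ (by exact_mod_cast ho) ?_
      intro r hr
      have hr' : r ∈ S := by exact_mod_cast hr
      by_cases hro : r = o
      · rw [hro]; unfold area; ring
      · have hq' : (⟨q, hq⟩ : {p // p ∈ S}) ≠ O := fun h => hqo (congrArg Subtype.val h)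
        have hr'' : (⟨r, hr'⟩ : {p // p ∈ S}) ≠ O := fun h => hro (congrArg Subtype.val h)
        exact (ch.hO ⟨q, hq⟩ ⟨r, hr'⟩ hq' hr'').mpr (hcon _ _ hq' hr'')
    · push Not at hex
      have : (S : Set Pl) ⊆ {o} := by
        intro x hx
        exact hex x (by exact_mod_cast hx)
      exact (collinear_singleton ℝ o).subset this)
  rw [hcard] at hmain
  -- points different from `O`
  have e1 : ∀ i ∈ (univ : Finset {p // p ∈ S}).erase O, ebad (Col S) i (off O u i) ≤
      (F.filter (fun T => i.1 ∈ T)).card := by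
    intro i hi
    rw [mem_erase] at hi
    refine ebad_le S i _ F ?_
    intro k hk he
    rw [mem_off] at hk
    have hik : i ≠ k := fun h => hk.2 (by rw [h])
    rw [hF, mem_filter]
    refine ⟨tr_connecting S i k hik, by rw [tr_card]; exact he, fun h => ?_⟩
    rw [mem_tr] at h
    obtain ⟨_, h⟩ := h
    rw [mem_Ln] at h
    exact ch.ne_O hi.1 hk.1 hk.2 h rfl
  have e3 := Finset.sum_le_sum e1
  have e4 : ∑ i ∈ (univ : Finset {p // p ∈ S}).erase O, (F.filter (fun T => i.1 ∈ T)).card ≤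
      ∑ i : {p // p ∈ S}, (F.filter (fun T => i.1 ∈ T)).card :=
    Finset.sum_le_sum_of_subset (erase_subset _ _)
  have e6 := double_count S F (fun T hT => by
    rw [hF] at hT; exact (mem_connecting.mp (mem_filter.mp hT).1).1)
  rw [← Finset.sum_coe_sort S (fun p => (F.filter (fun T => p ∈ T)).card)] at e6
  -- the lines through `O`
  obtain ⟨U, hU⟩ : ∃ U, U = ((univ : Finset {p // p ∈ S}).erase O).image u := ⟨_, rfl⟩
  have hex : ∀ c, ∃ T : Finset Pl, c ∈ U → (T ∈ connectingLines S ∧ o ∈ T ∧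
      T.card = (colm O u c).card + 1 ∧ ∃ i : {p // p ∈ S}, i ≠ O ∧ u i = c ∧ i.1 ∈ T ∧
      ∀ j : {p // p ∈ S}, j ≠ O → j.1 ∈ T → u j = c) := by
    intro c
    by_cases hc : c ∈ U
    · rw [hU, mem_image] at hc
      obtain ⟨i, hi, hic⟩ := hc
      rw [mem_erase] at hi
      refine ⟨tr S (Ln (Col S) O i), fun _ => ⟨tr_connecting S O i hi.1.symm,
        mem_tr_self S O i, ?_, i, hi.1, hic, ?_, ?_⟩⟩
      · rw [tr_card, card_Ln ch hi.1, hic]
      · rw [mem_tr]; exact ⟨i.2, (col_lin S).right_mem _ _⟩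
      · intro j hj hjT
        rw [mem_tr] at hjT
        obtain ⟨_, h⟩ := hjT
        rw [mem_Ln, ch.hO i j hi.1 hj] at h
        rw [← h, hic]
    · exact ⟨∅, fun h => absurd h hc⟩
  choose T hT using hex
  have hinj : Set.InjOn T (U : Set ℝ) := by
    intro c hc d hd hcd
    obtain ⟨_, _, _, i, hi, hic, hiT, _⟩ := hT c (by exact_mod_cast hc)
    obtain ⟨_, _, _, _, _, _, _, hd'⟩ := hT d (by exact_mod_cast hd)
    rw [hcd] at hiT
    rw [← hic, hd' i hi hiT]
  have e7 : ∑ c ∈ U, ((if (colm O u c).card = 1 then 2 else 0)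
        + (if Even (colm O u c).card then (colm O u c).card - 2 else 0)) ≤
      ∑ T ∈ (connectingLines S).filter (fun T => o ∈ T),
        ((if T.card = 2 then 2 else 0) + (if Odd T.card then T.card - 3 else 0)) := by
    have h1 : ∑ c ∈ U, ((if (colm O u c).card = 1 then 2 else 0)
        + (if Even (colm O u c).card then (colm O u c).card - 2 else 0)) =
        ∑ T' ∈ U.image T, ((if T'.card = 2 then 2 else 0)
          + (if Odd T'.card then T'.card - 3 else 0)) := by
      rw [Finset.sum_image (by exact hinj)]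
      refine Finset.sum_congr rfl (fun c hc => ?_)
      obtain ⟨_, _, h3, _⟩ := hT c hc
      rw [h3]
      congr 1
      · by_cases h : (colm O u c).card = 1
        · rw [if_pos h, if_pos (by omega)]
        · rw [if_neg h, if_neg (by omega)]
      · by_cases h : Even (colm O u c).card
        · rw [if_pos h, if_pos h.add_one]; omega
        · rw [if_neg h, if_neg]
          intro h'
          apply h
          rcases Nat.even_or_odd (colm O u c).card with h2 | h2
          · exact h2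
          · exact absurd h2.add_one (Nat.not_even_iff_odd.mpr h')
    rw [h1]
    refine Finset.sum_le_sum_of_subset ?_
    intro T' hT'
    rw [mem_image] at hT'
    obtain ⟨c, hc, rfl⟩ := hT'
    obtain ⟨h1, h2, _⟩ := hT c hc
    exact mem_filter.mpr ⟨h1, h2⟩
  rw [← hF]
  rw [hU] at e7
  refine hmain.trans (add_le_add ?_ e7)
  rw [← e6]
  exact e3.trans e4

theorem two_mul_ordinary : 2 * {T : Finset Pl | T ⊆ S ∧ T.card = 2 ∧
      ∀ r ∈ S, r ∈ affineSpan ℝ (T : Set Pl) → r ∈ T}.ncard =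
    ∑ T ∈ connectingLines S, (if T.card = 2 then 2 else 0) := by
  rw [ordinary_eq, ← sum_filter, sum_const, smul_eq_mul, mul_comm]

end plane

end Pool.Agent.Dirac80b
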