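import Mathlib
import Pool.Agent.Dirac80.Defs
import Pool.Agent.Dirac80.Parity
import Pool.Agent.Dirac80.EvenC

/-!
# Ordinary lines of sets with one rich line: the final statements
-/

set_option autoImplicit false
open Finset

namespace Pool.Agent.Dirac80b

open Pool.Agent.Dirac80 (connectingLines mem_connecting)

/-- Dirac's bound up to the lines with at least four points, one of which need not be counted. -/
theorem one_rich (S : Finset (EuclideanSpace ℝ (Fin 2)))
    (hS : ¬ Collinear ℝ (S : Set (EuclideanSpace ℝ (Fin 2))))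
    (A : Finset (EuclideanSpace ℝ (Fin 2))) :
    2 * (S.card / 2) ≤
      2 * {T : Finset (EuclideanSpace ℝ (Fin 2)) | T ⊆ S ∧ T.card = 2 ∧
            ∀ r ∈ S, r ∈ affineSpan ℝ (T : Set (EuclideanSpace ℝ (Fin 2))) → r ∈ T}.ncard +
        ∑ T ∈ (connectingLines S).filter (fun T => 4 ≤ T.card ∧ T ≠ A), T.card := by
  rw [two_mul_ordinary S, sum_filter, ← sum_add_distrib]
  rcases Nat.even_or_odd S.card with he | ho
  · by_cases hA : A ∈ connectingLines S ∧ Even A.card ∧ 4 ≤ A.card
    · have h1 := even_main S he hS hA.1 hA.2.1 hA.2.2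
      rw [sum_filter] at h1
      refine le_trans (by omega) (h1.trans (Finset.sum_le_sum (fun T _ => ?_)))
      by_cases h2 : Even T.card ∧ T ≠ A
      · rw [if_pos h2]
        by_cases h3 : T.card = 2
        · rw [if_pos h3, h3]; omega
        · by_cases h4 : 4 ≤ T.card
          · rw [if_pos (⟨h4, h2.2⟩ : 4 ≤ T.card ∧ T ≠ A)]; omega
          · obtain ⟨a, ha⟩ := h2.1
            have : T.card = 0 := by omega
            rw [this]; exact Nat.zero_le _
      · rw [if_neg h2]; exact Nat.zero_le _
    · have h1 := even_all S he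
      rw [sum_filter] at h1
      refine le_trans (by omega) (h1.trans (Finset.sum_le_sum (fun T hT => ?_)))
      by_cases h2 : Even T.card
      · rw [if_pos h2]
        by_cases h3 : T.card = 2
        · rw [if_pos h3, h3]; omega
        · by_cases h4 : 4 ≤ T.card
          · rw [if_pos (⟨h4, fun h => hA ⟨h ▸ hT, h ▸ h2, h ▸ h4⟩⟩ : 4 ≤ T.card ∧ T ≠ A)]; omega
          · obtain ⟨a, ha⟩ := h2
            have : T.card = 0 := by omega
            rw [this]; exact Nat.zero_le _
      · rw [if_neg h2]; exact Nat.zero_le _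
  · -- the point `O`
    obtain ⟨o, ho', hoA⟩ : ∃ o ∈ S, ∀ T ∈ connectingLines S,
        ((Even T.card ∧ o ∉ T ∧ 4 ≤ T.card) ∨ (o ∈ T ∧ Odd T.card)) → T ≠ A := by
      by_cases hA : A ∈ connectingLines S
      · have hAc := mem_connecting.mp hA
        by_cases hE : Even A.card
        · have hne : A.Nonempty := card_pos.mp (by omega)
          obtain ⟨o, hoA⟩ := hne
          refine ⟨o, hAc.1 hoA, fun T _ h hTA => ?_⟩
          rcases h with h | h
          · exact h.2.1 (hTA ▸ hoA)
          · exact (Nat.not_even_iff_odd.mpr h.2) (hTA ▸ hE)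
        · obtain ⟨o, hoS, hoA⟩ : ∃ o ∈ S, o ∉ A := by
            by_contra hcon
            push Not at hcon
            exact hS (hAc.2.2.1.subset (by exact_mod_cast hcon))
          refine ⟨o, hoS, fun T _ h hTA => ?_⟩
          rcases h with h | h
          · exact hE (hTA ▸ h.1)
          · exact hoA (hTA ▸ h.1)
      · have hne : S.Nonempty := card_pos.mp (by obtain ⟨a, ha⟩ := ho; omega)
        obtain ⟨o, hoS⟩ := hne
        exact ⟨o, hoS, fun T hT _ hTA => hA (hTA ▸ hT)⟩
    have h1 := star_main S ho hS ho'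
    rw [sum_filter, sum_filter, ← sum_add_distrib] at h1
    refine le_trans (by obtain ⟨a, ha⟩ := ho; omega)
      (h1.trans (Finset.sum_le_sum (fun T hT => ?_)))
    have h2 := (mem_connecting.mp hT).2.1
    have h3 := hoA T hT
    by_cases hoT : o ∈ T
    · rw [if_neg (fun h => h.2 hoT), if_pos hoT, zero_add]
      by_cases hodd : Odd T.card
      · rw [if_pos hodd]
        by_cases h4 : 4 ≤ T.card
        · rw [if_pos (⟨h4, h3 (Or.inr ⟨hoT, hodd⟩)⟩ : 4 ≤ T.card ∧ T ≠ A)]; omega
        · have : T.card - 3 = 0 := by omega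
          rw [this]; omega
      · rw [if_neg hodd]; omega
    · rw [if_neg hoT, add_zero]
      by_cases hev : Even T.card
      · rw [if_pos ⟨hev, hoT⟩]
        by_cases h4 : 4 ≤ T.card
        · rw [if_pos (⟨h4, h3 (Or.inl ⟨hev, hoT, h4⟩)⟩ : 4 ≤ T.card ∧ T ≠ A)]; omega
        · obtain ⟨a, ha⟩ := hev
          have : T.card = 2 := by omega
          rw [if_pos this]; omega
      · rw [if_neg (fun h => hev h.1)]; exact Nat.zero_le _

/-- For odd `n` and a point `O` of the set. -/
theorem star (S : Finset (EuclideanSpace ℝ (Fin 2))) (hn : Odd S.card)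
    (hS : ¬ Collinear ℝ (S : Set (EuclideanSpace ℝ (Fin 2))))
    (o : EuclideanSpace ℝ (Fin 2)) (ho : o ∈ S) :
    S.card ≤ 1 +
      2 * {T : Finset (EuclideanSpace ℝ (Fin 2)) | T ⊆ S ∧ T.card = 2 ∧
            ∀ r ∈ S, r ∈ affineSpan ℝ (T : Set (EuclideanSpace ℝ (Fin 2))) → r ∈ T}.ncard +
        ∑ T ∈ (connectingLines S).filter (fun T => 4 ≤ T.card ∧ Even T.card ∧ o ∉ T), T.card +
        ∑ T ∈ (connectingLines S).filter (fun T => Odd T.card ∧ o ∈ T), (T.card - 3) := by
  have h1 := star_main S hn hS ho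
  rw [sum_filter, sum_filter, ← sum_add_distrib] at h1
  rw [two_mul_ordinary S, sum_filter, sum_filter, add_assoc, add_assoc, ← sum_add_distrib,
    ← sum_add_distrib]
  refine le_trans (by omega : S.card ≤ 1 + (S.card - 1)) (Nat.add_le_add_left
    (h1.trans (Finset.sum_le_sum (fun T hT => ?_))) 1)
  have h2 := (mem_connecting.mp hT).2.1
  by_cases hoT : o ∈ T
  · rw [if_neg (fun h => h.2 hoT), if_pos hoT, zero_add]
    by_cases hodd : Odd T.card
    · rw [if_pos hodd, if_pos (⟨hodd, hoT⟩ : Odd T.card ∧ o ∈ T)]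
      omega
    · rw [if_neg hodd]; omega
  · rw [if_neg hoT, add_zero]
    by_cases hev : Even T.card
    · rw [if_pos ⟨hev, hoT⟩]
      by_cases h4 : 4 ≤ T.card
      · rw [if_pos (⟨h4, hev, hoT⟩ : 4 ≤ T.card ∧ Even T.card ∧ o ∉ T)]; omega
      · obtain ⟨a, ha⟩ := hev
        have : T.card = 2 := by omega
        rw [if_pos this]; omega
    · rw [if_neg (fun h => hev h.1)]; exact Nat.zero_le _

end Pool.Agent.Dirac80b
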